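import Pool.Agent.Lib.TV19.Defs
import Pool.Agent.Lib.MP_3ecc11_lc.Main

set_option autoImplicit false
set_option linter.unusedVariables false

namespace Pool.Agent.Lib.TV

open Pool.Agent.Lib.MP_3ecc11_lc Pool.Agent.Lib.TV19

/-! ## The hierarchy -/

noncomputable def ball (L R : ℤ) (d : ℤ → ℤ → ℕ) (u : ℤ) (k : ℕ) : Finset ℤ :=
  (Finset.Ioo L R).filter (fun v => d u v ≤ k)

theorem mem_ball {L R : ℤ} {d : ℤ → ℤ → ℕ} {u v : ℤ} {k : ℕ} :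
    v ∈ ball L R d u k ↔ L < v ∧ v < R ∧ d u v ≤ k := by
  unfold ball
  rw [Finset.mem_filter, Finset.mem_Ioo, and_assoc]

structure Hier (L R : ℤ) (a b : ℤ → ℤ) (d : ℤ → ℤ → ℕ) (z : ℤ → ℤ) : Prop where
  d0 : ∀ u v, L < u → u < R → L < v → v < R → (d u v = 0 ↔ u = v)
  sym : ∀ u v, L < u → u < R → L < v → v < R → d u v = d v u
  d1 : ∀ u v w, L < u → u < R → L < v → v < R → L < w → w < R → d u w ≤ max (d u v) (d v w)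
  d2 : ∀ u v w, L < u → u < R → L < v → v < R → L < w → w < R → d u v = d u w → 0 < d u v →
    d v w < d u v
  d3 : ∀ u v w, L < u → u < R → Anc a b u v → Anc a b v w → d u v ≤ d u w ∧ d v w ≤ d u w
  d4 : ∀ u k, L < u → u < R → (ball L R d u k).card ≤ 2 ^ k
  d5 : ∀ u v, L < u → u < R → L < v → v < R →
    2 ^ (d u v / 5) ≤ 4 * (ball L R d u (d u v)).card
  d6 : ∀ u k, L < u → u < R → ∃ m ∈ ball L R d u k, ∀ v ∈ ball L R d u k, Anc a b m v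
  d7 : ∀ u k, L < u → u < R → ∃ l1 l2 l3 l4 : ℤ, l1 ≤ l2 ∧ l2 < l3 ∧ l3 ≤ l4 ∧
    ∀ v, v ∈ ball L R d u k ↔ (l1 < v ∧ v < l4 ∧ ¬ (l2 < v ∧ v < l3))
  z1 : ∀ v, L < v → v < R → Anc a b v (z v)
  z2 : ∀ t w e, L < t → t < R → Anc a b t w → w ≠ t → Anc a b w e → e ≠ w →
    d t w < d w e → z t = z w ∧ (w < e ↔ w < z w)
  z3 : ∀ t u v, L < t → t < R → Anc a b t u → Anc a b t v → u ≤ v → u ≠ t → v ≠ t →
    (v ≤ z t → d t u ≤ d t v) ∧ (z t ≤ u → d t v ≤ d t u)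
  /-- a ball with two points that does not contain all descendants of its points has one hole -/
  hole : ∀ u v t y, L < u → u < R → L < v → v < R → u ≠ v → t ∈ ball L R d u (d u v) →
    Anc a b t y → d u v < d u y → ∃ h, L < h ∧ h < R ∧ (∀ y', Anc a b h y' → d u v < d u y') ∧
      ∀ t' y', t' ∈ ball L R d u (d u v) → Anc a b t' y' → d u v < d u y' →
        Anc a b t' h ∧ Anc a b h y' ∧ z t' = z h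

def St_HIER : Prop := ∀ (N : ℤ) (a b : ℤ → ℤ), Lam 0 N a b →
  ∃ (d : ℤ → ℤ → ℕ) (z : ℤ → ℤ), Hier 0 N a b d z

/-- mirror image of a hierarchy -/
def St_HM : Prop := ∀ (L R : ℤ) (a b : ℤ → ℤ) (d : ℤ → ℤ → ℕ) (z : ℤ → ℤ), Lam L R a b →
  Hier L R a b d z → Hier (-R) (-L) (rf b) (rf a) (fun u v => d (-u) (-v)) (rf z)

/-! ## The concrete system -/

noncomputable def nn (S : Sys) : ℕ := (Finset.Ioo S.L S.R).card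

noncomputable def AA (S : Sys) (A : ℤ → Finset ℤ) : ℕ := ∑ t ∈ Finset.Ioo S.L S.R, (A t).card

open Classical in
noncomputable def affS (S : Sys) (t : ℤ) : Finset ℤ :=
  (Finset.Ioo S.L S.R).filter (fun c => S.Aff t c)

open Classical in
theorem mem_affS {S : Sys} {t c : ℤ} : c ∈ affS S t ↔ S.L < c ∧ c < S.R ∧ S.Aff t c := by
  unfold affS
  rw [Finset.mem_filter, Finset.mem_Ioo, and_assoc]

noncomputable def affN (S : Sys) : ℕ := ∑ t ∈ Finset.Ioo S.L S.R, (affS S t).card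

/-- old contacts that neither win nor lose -/
def Skip (S : Sys) (sk : ℤ → ℕ) : Prop :=
  ∀ t u, S.Key t → S.Key u →
    (S.a u = t → S.b u = S.b t → ∀ K : Finset ℤ, (∀ v ∈ K, t < v ∧ v < S.b t ∧ S.P t v = S.a t ∧
      S.P u v = t ∧ S.Q u v = S.Q t v) → K.card ≤ sk t) ∧
    (S.b u = t → S.a u = S.a t → ∀ K : Finset ℤ, (∀ v ∈ K, S.a t < v ∧ v < t ∧ S.Q t v = S.b t ∧
      S.Q u v = t ∧ S.P u v = S.P t v) → K.card ≤ sk t)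

def St_TOP : Prop := ∀ (L R : ℤ) (a b : ℤ → ℤ), Lam L R a b → ∃ top item : ℤ → ℤ → ℤ,
  (∀ u v, L < u → u ≤ v → v < R →
    u ≤ top u v ∧ top u v ≤ v ∧ a (top u v) < u ∧ v < b (top u v)) ∧
  (∀ u v, L < u → u < v → v < R → u ≤ item u v ∧ item u v < v ∧
    (top u v = item u v ∨ top u v = item u v + 1)) ∧
  (∀ u v u' v', L < u → u ≤ u' → u' ≤ item u v → item u v < v' → v' ≤ v → v < R →
    item u' v' = item u v)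

def St_EX : Prop := ∀ (n : ℕ) (T S S' : BT ℤ) (c : ℕ), Full 0 (n + 1) T → Full 0 (n + 1) S →
  Run (preord T) S S' c → ∃ (Y : Sys) (sk : ℤ → ℕ), Y.L = 0 ∧ Y.R = n + 1 ∧ Skip Y sk ∧
    c ≤ affN Y + 20 * n ∧ ∑ t ∈ Finset.Ioo Y.L Y.R, sk t ≤ 20 * n

/-- freeze -/
def St_F0 : Prop := ∀ (S : Sys) (t s c : ℤ), S.Key t → Anc S.a S.b t s → Anc S.a S.b t c →
  S.a s < S.P t c → S.Q t c < S.b s → S.P s c = S.P t c ∧ S.Q s c = S.Q t c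

/-- a hidden node, looking back -/
def St_HB : Prop := ∀ (S : Sys) (t s c : ℤ), S.Key t → Anc S.a S.b t s → Anc S.a S.b s c →
  S.a s < S.P s c → S.Q s c < S.b s → (S.P t c = S.P s c ∧ S.Q t c = S.Q s c) ∨
    ∃ τ, Anc S.a S.b t τ ∧ Anc S.a S.b τ s ∧ τ ≠ s ∧ S.IsLink ⟨τ, S.P s c, c, S.Q s c⟩

structure LF (S : Sys) : Prop where
  l1 : ∀ x, S.IsLink x → S.Key x.t ∧ S.a x.t < x.lo ∧ x.lo < x.m ∧ x.m < x.hi ∧ x.hi < S.b x.t ∧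
    (x.t < x.lo ∨ x.hi < x.t) ∧ S.Aff x.t x.lo ∧ S.Aff x.t x.m ∧ S.Aff x.t x.hi
  l2 : ∀ x y, S.IsLink x → S.IsLink y → x.t = y.t → x = y ∨ x.hi ≤ y.lo ∨ y.hi ≤ x.lo
  l3 : ∀ x, S.IsLink x → x.lo ≤ S.w x ∧ S.w x ≤ x.hi ∧ S.a (S.w x) < x.lo ∧ x.hi < S.b (S.w x)
  l4 : ∀ x, S.IsLink x → S.w x < x.m → x.m ≤ S.e x ∧ S.e x ≤ x.hi ∧ x.m ≤ S.g x ∧ S.g x < x.hi ∧
    S.a (S.e x) < x.m ∧ x.hi < S.b (S.e x) ∧ S.g x = S.item x.m x.hi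
  l5 : ∀ x, S.IsLink x → x.m < S.w x → x.lo ≤ S.e x ∧ S.e x ≤ x.m ∧ x.lo ≤ S.g x ∧ S.g x < x.m ∧
    S.a (S.e x) < x.lo ∧ x.m < S.b (S.e x) ∧ S.g x = S.item x.lo x.m
  l6 : ∀ x, S.IsLink x → S.w x ≠ x.m → (S.e x = S.g x ∨ S.e x = S.g x + 1) ∧
    S.e x = S.top (S.g x) (S.g x + 1)
  l7 : ∀ x s, S.IsLink x → Anc S.a S.b x.t s → s ≠ x.t → Anc S.a S.b s (S.w x) →
    S.P s x.m = x.lo ∧ S.Q s x.m = x.hi ∧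
      (s ≠ S.w x → ∀ c, x.lo < c → c < x.hi → ¬ S.Aff s c)

def St_LF : Prop := ∀ S : Sys, LF S

/-- the two-sided lemma -/
def St_TS : Prop := ∀ (S : Sys) (A : ℤ → Finset ℤ), S.Items A → ∀ s g1 g2 tu tv nu nv : ℤ,
  S.Key s → S.Aff s g1 → S.Aff s g2 → g1 < g2 → (s < g1 ∨ g2 < s) → S.Key tu → S.Key tv →
  Anc S.a S.b tu s → tu ≠ s → Anc S.a S.b tv s → tv ≠ s → S.Aff tu nu → S.Aff tv nv →
  S.a s < nu → nv < S.b s → (s < nu ∨ nv < s) → nu ≤ S.item g1 g2 → S.item g1 g2 < nv →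
  ∃ τ, S.Key τ ∧ S.item g1 g2 ∈ A τ ∧
    ((Anc S.a S.b tu τ ∧ Anc S.a S.b τ tv) ∨ (Anc S.a S.b tv τ ∧ Anc S.a S.b τ tu))

def St_COST : Prop := ∀ (S : Sys) (sk : ℤ → ℕ) (nL : ℕ), Skip S sk →
  (∀ Z : Finset Lnk, (∀ x ∈ Z, S.IsLink x) → Z.card ≤ nL) →
  affN S ≤ 3 * nL + 8 * nn S + 2 * ∑ t ∈ Finset.Ioo S.L S.R, sk t

def St_ITEMS : Prop := ∀ S : Sys, ∃ A : ℤ → Finset ℤ, S.Items A ∧ AA S A ≤ 2 * affN S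

def St_DEG : Prop := ∀ (S : Sys) (Z : Finset Lnk), (∀ x ∈ Z, S.IsLink x ∧ S.w x = x.m) →
  Z.card ≤ nn S

def St_FL : Prop := ∀ (S : Sys) (d : ℤ → ℤ → ℕ) (A : ℤ → Finset ℤ) (D nF nP : ℕ), S.Ultra d →
  S.Items A →
  (∀ Y : Finset Lnk, (∀ x ∈ Y, S.FLink d x) → (∀ x ∈ Y, ∀ y ∈ Y, S.Same d x y → x = y) →
    Y.card ≤ nF) →
  (∀ Z : Finset Lnk, (∀ x ∈ Z, S.PLink d x) → Z.card ≤ nP) →
  ∀ X : Finset Lnk, (∀ x ∈ X, S.FLink d x) →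
    D * X.card ≤ 2 * (D ^ 2 * nF + AA S A + 4 * D ^ 2 * (nn S + nP))

def St_FIRST : Prop := ∀ R : ℕ, ∃ C : ℕ, ∀ (S : Sys) (d : ℤ → ℤ → ℕ) (z : ℤ → ℤ)
  (A : ℤ → Finset ℤ), S.L = 0 → Hier S.L S.R S.a S.b d z → S.Items A → ∀ Y : Finset Lnk,
  (∀ x ∈ Y, S.FLink d x) → (∀ x ∈ Y, ∀ y ∈ Y, S.Same d x y → x = y) →
    R * Y.card ≤ C * nn S + AA S A

/-- left type P-links -/
def St_PL : Prop := ∀ R : ℕ, ∃ C : ℕ, ∀ (S : Sys) (d : ℤ → ℤ → ℕ) (z : ℤ → ℤ)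
  (A : ℤ → Finset ℤ), Hier S.L S.R S.a S.b d z → S.Items A → ∀ Z : Finset Lnk,
  (∀ x ∈ Z, S.PLink d x ∧ S.w x < x.m) → R * Z.card ≤ C * nn S + AA S A

/-- all P-links -/
def St_PT : Prop := ∀ R : ℕ, ∃ C : ℕ, ∀ (S : Sys) (d : ℤ → ℤ → ℕ) (z : ℤ → ℤ)
  (A : ℤ → Finset ℤ), Hier S.L S.R S.a S.b d z → S.Items A → ∀ Z : Finset Lnk,
  (∀ x ∈ Z, S.PLink d x) → R * Z.card ≤ C * nn S + AA S A

def St_AFF : Prop := ∃ C : ℕ, ∀ (S : Sys) (sk : ℤ → ℕ) (d : ℤ → ℤ → ℕ) (z : ℤ → ℤ), S.L = 0 →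
  Skip S sk → Hier S.L S.R S.a S.b d z → affN S ≤ C * (nn S + ∑ t ∈ Finset.Ioo S.L S.R, sk t)

def St_BT : Prop := ∃ C : ℕ, ∀ (T T' : BT ℕ) (S : ℕ → BT ℕ), (inord T).Pairwise (· < ·) →
  inord T' = inord T → S 0 = T' →
  (∀ i : Fin (preord T).length, Splay (preord T)[i] (S i) (S (i + 1))) →
  ∑ i : Fin (preord T).length, (depth (S i) (preord T)[i] + 1) ≤ C * (preord T).length

/-! ## The abstract system of rising events -/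

structure PS (ι : Type) where
  L : ℤ
  R : ℤ
  a : ℤ → ℤ
  b : ℤ → ℤ
  d : ℤ → ℤ → ℕ
  A : ℤ → Finset ℤ
  X : Finset ι
  t : ι → ℤ
  k : ι → ℕ
  c : ι → ℕ
  g : ι → ℤ

namespace PS

variable {ι : Type} (M : PS ι)

def Key (v : ℤ) : Prop := M.L < v ∧ v < M.R
def Ge (u v : ℤ) : Prop := Anc M.a M.b u v
def Gt (u v : ℤ) : Prop := Anc M.a M.b u v ∧ u ≠ v
noncomputable def n : ℕ := (Finset.Ioo M.L M.R).card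
noncomputable def AA : ℕ := ∑ τ ∈ Finset.Ioo M.L M.R, (M.A τ).card
noncomputable def B (u : ℤ) (j : ℕ) : Finset ℤ := ball M.L M.R M.d u j

/-- `y` is a later event in the window of `x` -/
def Lt (x y : ι) : Prop :=
  x ∈ M.X ∧ y ∈ M.X ∧ M.k x = M.k y ∧ M.d (M.t x) (M.t y) ≤ M.k x ∧ M.Gt (M.t x) (M.t y)

/-- tree order and ultrametric -/
structure OK1 : Prop where
  refl : ∀ u, M.Key u → M.Ge u u
  key : ∀ u v, M.Key u → M.Ge u v → M.Key v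
  trans : ∀ u v w, M.Key u → M.Ge u v → M.Ge v w → M.Ge u w
  anti : ∀ u v, M.Key u → M.Ge u v → M.Ge v u → u = v
  cmp : ∀ u v w, M.Key u → M.Key v → M.Ge u w → M.Ge v w → M.Ge u v ∨ M.Ge v u
  sz : ∀ u v, M.Key u → M.Gt u v → M.b v - M.a v < M.b u - M.a u
  self : ∀ u, M.Key u → M.d u u = 0
  sym : ∀ u v, M.Key u → M.Key v → M.d u v = M.d v u
  ult : ∀ u v w, M.Key u → M.Key v → M.Key w → M.d u w ≤ max (M.d u v) (M.d v w)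
  conv : ∀ u v w, M.Key u → M.Ge u v → M.Ge v w → M.d u v ≤ M.d u w ∧ M.d v w ≤ M.d u w
  up : ∀ u j, M.Key u → (M.B u j).card ≤ 2 ^ j
  kt : ∀ x ∈ M.X, M.Key (M.t x)
  low : ∀ x ∈ M.X, 2 ^ (M.k x / 5) ≤ 4 * (M.B (M.t x) (M.k x)).card

/-- geometry without items -/
structure OK2 : Prop where
  g0 : ∀ x ∈ M.X, M.k x < M.c x
  g1 : ∀ x ∈ M.X, ∀ y ∈ M.X, M.t x = M.t y → x = y ∨ M.c x ≤ M.k y ∨ M.c y ≤ M.k x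
  g2 : ∀ x ∈ M.X, ∀ y ∈ M.X, M.k x = M.k y → M.d (M.t x) (M.t y) ≤ M.k x →
    x = y ∨ M.Gt (M.t x) (M.t y) ∨ M.Gt (M.t y) (M.t x)
  g3 : ∀ x y, M.Lt x y → M.c x ≤ M.c y ∧ M.g x ≠ M.g y
  g4b : ∀ x y x' y', M.Lt x y → M.Lt x' y' → M.t x = M.t x' → M.g y = M.g y' → M.c y = M.c y'
  g6 : ∀ x y, ∀ h ∈ M.X, M.Lt x y → M.Gt (M.t x) (M.t h) → M.Ge (M.t h) (M.t y) →
    M.k x < M.k h → M.c x ≤ M.k h
  g7 : ∀ h ∈ M.X, ∀ y ∈ M.X, M.d (M.t h) (M.t y) ≤ M.k y → M.k y < M.k h →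
    M.Ge (M.t h) (M.t y) ∨ M.Ge (M.t y) (M.t h)

/-- geometry with items -/
structure OK3 : Prop where
  g4 : ∀ x y, ∀ x' ∈ M.X, M.Lt x y → M.t x' = M.t x → M.c y < M.c x' → M.g y ∈ M.A (M.t x)
  g5 : ∀ x y0 y, ∀ h ∈ M.X, M.Lt x y0 → M.Lt y0 y → M.Gt (M.t x) (M.t h) →
    M.Ge (M.t h) (M.t y0) → M.c y < M.k h →
    ∃ τ, M.Ge (M.t h) τ ∧ M.Ge τ (M.t y0) ∧ M.g y ∈ M.A τ

structure OK : Prop extends M.OK1, M.OK2, M.OK3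

def Rise (x : ι) : Prop := x ∈ M.X ∧ ∀ y, M.Lt y x → M.c y ≠ M.c x
def First (x : ι) : Prop := x ∈ M.X ∧ ∀ y, ¬ M.Lt y x
def Last (x : ι) : Prop := ∀ y ∈ M.X, M.t y = M.t x → M.k y ≤ M.k x

open Classical in
noncomputable def Rn (x : ι) : Finset ι := M.X.filter (fun y => M.Lt x y ∧ M.c y = M.c x)
open Classical in
noncomputable def LR (x : ι) : Finset ι := M.X.filter (fun y => M.Lt x y ∧ M.Rise y)
open Classical in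
noncomputable def II (x : ι) : Finset ℤ :=
  (Finset.Ioo M.L M.R).filter (fun τ => M.Gt (M.t x) τ ∧ ∀ y ∈ M.LR x, M.Ge τ (M.t y))

variable {M}

open Classical in
theorem mem_Rn {x y : ι} : y ∈ M.Rn x ↔ M.Lt x y ∧ M.c y = M.c x := by
  unfold Rn
  rw [Finset.mem_filter]
  exact ⟨fun h => h.2, fun h => ⟨h.1.2.1, h⟩⟩

open Classical in
theorem mem_LR {x y : ι} : y ∈ M.LR x ↔ M.Lt x y ∧ M.Rise y := by
  unfold LR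
  rw [Finset.mem_filter]
  exact ⟨fun h => h.2, fun h => ⟨h.1.2.1, h⟩⟩

open Classical in
theorem mem_II {x : ι} {τ : ℤ} :
    τ ∈ M.II x ↔ M.Key τ ∧ M.Gt (M.t x) τ ∧ ∀ y ∈ M.LR x, M.Ge τ (M.t y) := by
  unfold II Key
  rw [Finset.mem_filter, Finset.mem_Ioo]

theorem mem_B {u v : ℤ} {j : ℕ} : v ∈ M.B u j ↔ M.Key v ∧ M.d u v ≤ j := by
  unfold B Key
  rw [mem_ball, and_assoc]

theorem OK1.gt_ge (h : M.OK1) {u v w : ℤ} (hu : M.Key u) (h1 : M.Gt u v) (h2 : M.Ge v w) :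
    M.Gt u w :=
  ⟨h.trans u v w hu h1.1 h2, fun e => h1.2 (h.anti u v hu h1.1 (e ▸ h2))⟩

theorem OK1.ge_gt (h : M.OK1) {u v w : ℤ} (hu : M.Key u) (h1 : M.Ge u v) (h2 : M.Gt v w) :
    M.Gt u w :=
  ⟨h.trans u v w hu h1 h2.1, fun e => h2.2 (by
    subst e
    exact (h.anti u v hu h1 h2.1).symm)⟩

theorem OK1.lt_trans (h : M.OK1) {x y w : ι} (h1 : M.Lt x y) (h2 : M.Lt y w) : M.Lt x w := by
  obtain ⟨a1, a2, a3, a4, a5⟩ := h1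
  obtain ⟨b1, b2, b3, b4, b5⟩ := h2
  have := h.ult _ _ _ (h.kt x a1) (h.kt y a2) (h.kt w b2)
  exact ⟨a1, b2, by omega, by omega, h.gt_ge (h.kt x a1) a5 b5.1⟩

variable (M)

def T12 (r : ℕ) (x : ι) : Prop := ∀ h ∈ M.X, M.t h ∈ M.II x → ∀ W : Finset ι,
  (∀ y ∈ W, y ∈ M.LR x ∧ M.c y < M.k h) → W.card ≤ r * 4 ^ (M.k x / 40)

def Nice (r : ℕ) (x : ι) : Prop :=
  M.Rise x ∧ (M.LR x).Nonempty ∧ (M.II x).card ≤ 4 ^ (M.k x / 40) ∧ M.T12 r x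

open Classical in
/-- weight of the rises that are not nice -/
noncomputable def NN (r : ℕ) : ℕ :=
  ∑ x ∈ M.X.filter (fun x => M.Rise x ∧ ¬ M.Nice r x), 2 ^ (M.k x / 40 + 1)

def Body (D : ℕ) (x : ι) : Prop := x ∈ M.X ∧ ¬ M.Last x ∧ D ≤ (M.Rn x).card

def KF (r : ℕ) (f : ι) (j : ℕ) : Prop :=
  40 * (j + 1) ≤ M.k f ∧ ∃ x, M.Nice r x ∧ M.k x = j ∧ M.t f ∈ M.II x

open Classical in
noncomputable def kf (r : ℕ) (f : ι) : ℕ := Nat.findGreatest (M.KF r f) (M.k f)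

def Good (r : ℕ) (f : ι) : Prop := M.Rise f ∧ ∃ p ∈ M.X, M.t p = M.t f ∧ M.k p < M.k f ∧
  (∀ y ∈ M.X, M.t y = M.t f → M.k y < M.k f → M.k y ≤ M.k p) ∧ M.KF r f (M.k p)

def TA (r : ℕ) (f : ι) : Prop := M.Good r f ∧ ∀ f1, M.Good r f1 → M.kf r f1 = M.kf r f →
  M.d (M.t f1) (M.t f) ≤ M.kf r f → M.Gt (M.t f1) (M.t f) → M.k f ≤ M.k f1

def TB (r : ℕ) (f : ι) : Prop := M.Good r f ∧ ∃ x, M.Rise x ∧ ¬ M.Nice r x ∧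
  40 * (M.kf r f + 1) ≤ M.k x ∧ M.d (M.t x) (M.t f) ≤ M.kf r f

def TC (r : ℕ) (f : ι) : Prop := f ∈ M.X ∧ ∃ x, M.Nice r x ∧ M.t f ∈ M.II x ∧ M.k x < M.k f ∧
  M.k f < 40 * (M.k x + 1)

def G3 (D : ℕ) (p : ι) : Prop := p ∈ M.X ∧ (M.Rn p).card < D ∧ M.c p < 40 * (M.k p + 1)

def G4 (r D : ℕ) (p : ι) : Prop := p ∈ M.X ∧ (M.Rn p).card < D ∧ ∃ x, M.Rise x ∧ ¬ M.Nice r x ∧
  M.Lt x p ∧ ∀ y ∈ M.LR x, ¬ M.Lt y p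

/-- facts on the intervals -/
structure IF (r : ℕ) : Prop where
  i1 : ∀ x τ, x ∈ M.X → (M.LR x).Nonempty → τ ∈ M.II x → M.d (M.t x) τ ≤ M.k x
  i2 : ∀ x y τ, M.Rise x → M.Rise y → M.k x = M.k y → (M.LR x).Nonempty → (M.LR y).Nonempty →
    τ ∈ M.II x → τ ∈ M.II y → x = y
  i3 : ∀ x, ∀ h ∈ M.X, M.Nice r x → M.t h ∈ M.II x → ∀ W : Finset ι,
    (∀ y ∈ W, y ∈ M.LR x ∧ M.c y ≤ M.k h) → W.card ≤ r * 4 ^ (M.k x / 40) + 1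
  i4 : ∀ y, ∀ h ∈ M.X, y ∈ M.X → (M.LR y).Nonempty → M.t h ∈ M.II y → M.k y < M.k h →
    M.c y ≤ M.k h
  i5 : ∀ f, M.Good r f → M.KF r f (M.kf r f) ∧ ∀ j, M.KF r f j → j ≤ M.kf r f
  i6 : ∀ f f', M.Good r f → M.Good r f' → M.t f = M.t f' → M.kf r f = M.kf r f' → f = f'

end PS

def St_SUM : Prop := ∀ (ι : Type) (Z : Finset ι) (κ wt : ι → ℕ) (K : ℕ),
  (∀ (j : ℕ) (W : Finset ι), W ⊆ Z → (∀ x ∈ W, κ x = j) → (∑ x ∈ W, wt x) * 2 ^ (j / 40) ≤ K) →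
  ∑ x ∈ Z, wt x ≤ 80 * K

/-- counting window by window -/
def St_WC : Prop := ∀ (ι : Type) (M : PS ι), M.OK1 → ∀ (Z : Finset ι) (f : ι → ℤ) (κ : ι → ℕ)
  (wt : ℕ → ℕ) (K : ℕ),
  (∀ x ∈ Z, M.Key (f x) ∧ 2 ^ (κ x / 5) ≤ 4 * (M.B (f x) (κ x)).card) →
  (∀ x ∈ Z, ∀ W : Finset ι, W ⊆ Z → (∀ y ∈ W, κ y = κ x ∧ M.d (f x) (f y) ≤ κ x) →
    W.card * wt (κ x) * 2 ^ (κ x / 40) ≤ K * 2 ^ (κ x / 5)) →
  ∑ x ∈ Z, wt (κ x) ≤ 320 * K * M.n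

def St_IF : Prop := ∀ (ι : Type) (M : PS ι) (r : ℕ), M.OK → M.IF r

def St_PC1 : Prop := ∀ (ι : Type) (M : PS ι), M.OK → ∀ (D : ℕ) (Z : Finset ι),
  (∀ x ∈ Z, M.Body D x) → D * Z.card ≤ M.AA

def St_PC2 : Prop := ∀ (ι : Type) (M : PS ι), M.OK → ∀ (r : ℕ) (Z : Finset ι),
  (∀ x ∈ Z, M.Rise x ∧ (M.LR x).Nonempty ∧ ¬ M.T12 r x) →
  r * ∑ x ∈ Z, 2 ^ (M.k x / 40 + 1) ≤ 160 * M.AA

def St_PC3 : Prop := ∀ (ι : Type) (M : PS ι), M.OK → ∀ Z : Finset ι,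
  (∀ x ∈ Z, M.Rise x ∧ (M.LR x).Nonempty ∧ 4 ^ (M.k x / 40) < (M.II x).card) →
  ∑ x ∈ Z, 2 ^ (M.k x / 40 + 1) ≤ 160 * M.n

def St_PC4 : Prop := ∀ (ι : Type) (M : PS ι), M.OK →
  (∀ Z : Finset ι, (∀ x ∈ Z, M.Rise x ∧ ¬ (M.LR x).Nonempty) →
    ∑ x ∈ Z, 2 ^ (M.k x / 40 + 1) ≤ 640 * M.n) ∧
  (∀ Z : Finset ι, (∀ x ∈ Z, M.First x) → Z.card ≤ 320 * M.n) ∧
  (∀ Z : Finset ι, (∀ x ∈ Z, x ∈ M.X ∧ M.Last x) → Z.card ≤ M.n)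

def St_PCA : Prop := ∀ (ι : Type) (M : PS ι), M.OK → ∀ (r : ℕ) (Z : Finset ι),
  (∀ f ∈ Z, M.TA r f) → Z.card ≤ 320 * (r + 2) * M.n

def St_PCB : Prop := ∀ (ι : Type) (M : PS ι), M.OK → ∀ (r : ℕ) (Z : Finset ι),
  (∀ f ∈ Z, M.TB r f) → Z.card ≤ M.NN r

def St_PCC : Prop := ∀ (ι : Type) (M : PS ι), M.OK → ∀ (r : ℕ) (Z : Finset ι),
  (∀ f ∈ Z, M.TC r f) → Z.card ≤ 512000 * (r + 2) * M.n

def St_PCD : Prop := ∀ (ι : Type) (M : PS ι), M.OK → ∀ (r : ℕ) (f : ι),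
  M.Good r f → M.TA r f ∨ M.TB r f ∨ M.TC r f

def St_PG3 : Prop := ∀ (ι : Type) (M : PS ι), M.OK → ∀ (D : ℕ) (Z : Finset ι),
  (∀ p ∈ Z, M.G3 D p) → Z.card ≤ 512000 * D * M.n

def St_PG4 : Prop := ∀ (ι : Type) (M : PS ι), M.OK → ∀ (r D : ℕ) (Z : Finset ι),
  (∀ p ∈ Z, M.G4 r D p) → Z.card ≤ (D + 1) * M.NN r

def St_PRI : Prop := ∀ (ι : Type) (M : PS ι), M.OK → ∀ (r D : ℕ) (Z : Finset ι),
  (∀ f ∈ Z, M.Rise f ∧ ¬ M.Good r f) → ∃ Z' : Finset ι, Z.card ≤ M.n + Z'.card ∧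
    ∀ p ∈ Z', M.First p ∨ M.Body D p ∨ M.G3 D p ∨ M.G4 r D p

def St_PC7 : Prop := ∀ (ι : Type) (M : PS ι), M.OK → ∀ (D : ℕ) (Z : Finset ι),
  (∀ x ∈ Z, x ∈ M.X ∧ (M.Rn x).card < D) → ∃ Z' : Finset ι, Z.card ≤ D * Z'.card ∧
    ∀ y ∈ Z', M.Rise y

/-- the abstract bound -/
def St_PA : Prop := ∀ R : ℕ, ∃ C : ℕ, ∀ (ι : Type) (M : PS ι), M.OK →
  R * M.X.card ≤ C * M.n + M.AA

/-! ## Rising left P-links form such a system -/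

def PR (S : Sys) (d : ℤ → ℤ → ℕ) (z : ℤ → ℤ) (x : Lnk) : Prop :=
  S.PLink d x ∧ S.w x < x.m ∧ S.e x ≤ z x.t

def mkPS (S : Sys) (d : ℤ → ℤ → ℕ) (A : ℤ → Finset ℤ) (Z : Finset Lnk) : PS Lnk :=
  ⟨S.L, S.R, S.a, S.b, d, A, Z, fun x => x.t, fun x => d x.t (S.w x), fun x => d x.t (S.e x), S.g⟩

/-- geometry of two events of one window -/
def St_WG : Prop := ∀ (S : Sys) (d : ℤ → ℤ → ℕ) (z : ℤ → ℤ), Hier S.L S.R S.a S.b d z →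
  ∀ x y, PR S d z x → PR S d z y → d x.t (S.w x) = d y.t (S.w y) → d x.t y.t ≤ d x.t (S.w x) →
    Anc S.a S.b x.t y.t → x.t ≠ y.t →
    d x.t y.t < d x.t (S.w x) ∧ z x.t = z y.t ∧ Anc S.a S.b y.t (S.w x) ∧ y.t ≠ S.w x ∧
      (y.t < S.w x ↔ y.t < S.w y) ∧ x.hi ≤ y.m ∧ d x.t (S.e y) = d y.t (S.e y)

def St_PO1 : Prop := ∀ (S : Sys) (d : ℤ → ℤ → ℕ) (z : ℤ → ℤ) (A : ℤ → Finset ℤ) (Z : Finset Lnk),
  Hier S.L S.R S.a S.b d z → (∀ x ∈ Z, PR S d z x) → (mkPS S d A Z).OK1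

def St_PO2 : Prop := ∀ (S : Sys) (d : ℤ → ℤ → ℕ) (z : ℤ → ℤ) (A : ℤ → Finset ℤ) (Z : Finset Lnk),
  Hier S.L S.R S.a S.b d z → (∀ x ∈ Z, PR S d z x) → (mkPS S d A Z).OK2

def St_PO3 : Prop := ∀ (S : Sys) (d : ℤ → ℤ → ℕ) (z : ℤ → ℤ) (A : ℤ → Finset ℤ) (Z : Finset Lnk),
  Hier S.L S.R S.a S.b d z → S.Items A → (∀ x ∈ Z, PR S d z x) → (mkPS S d A Z).OK3

/-- left type P-links that do not rise -/
def St_PF : Prop := ∀ (S : Sys) (d : ℤ → ℤ → ℕ) (z : ℤ → ℤ), Hier S.L S.R S.a S.b d z →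
  ∀ Z : Finset Lnk, (∀ x ∈ Z, S.PLink d x ∧ S.w x < x.m ∧ z x.t < S.e x) → Z.card ≤ nn S

end Pool.Agent.Lib.TV
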