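import Pool.Agent.Lib.TV.Blue

set_option autoImplicit false
set_option linter.unusedVariables false

namespace Pool.Agent.Lib.TV

namespace PS

variable {ι : Type} {M : PS ι}

theorem if_i1 (h : M.OK) (x : ι) (τ : ℤ) (hx : x ∈ M.X) (hn : (M.LR x).Nonempty)
    (hτ : τ ∈ M.II x) : M.d (M.t x) τ ≤ M.k x := by
  obtain ⟨y0, hy0⟩ := hn
  obtain ⟨_, h1, h2⟩ := mem_II.1 hτ
  have h3 := (h.conv _ _ _ (h.kt x hx) h1.1 (h2 y0 hy0)).1
  have h4 := (mem_LR.1 hy0).1.2.2.2.1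
  omega

theorem if_i2a (h : M.OK) (x y : ι) (τ : ℤ) (hx : M.Rise x) (hy : M.Rise y) (hk : M.k x = M.k y)
    (hd : M.d (M.t x) (M.t y) ≤ M.k x) (hg : M.Gt (M.t x) (M.t y))
    (h1 : τ ∈ M.II x) (h2 : τ ∈ M.II y) : False := by
  have hl : M.Lt x y := ⟨hx.1, hy.1, hk, hd, hg⟩
  have h3 := (mem_II.1 h1).2.2 y (mem_LR.2 ⟨hl, hy⟩)
  have h4 := (mem_II.1 h2).2.1
  exact h4.2 (h.anti _ _ (h.kt y hy.1) h4.1 h3)

theorem if_i2 (h : M.OK) (x y : ι) (τ : ℤ) (hx : M.Rise x) (hy : M.Rise y) (hk : M.k x = M.k y)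
    (hnx : (M.LR x).Nonempty) (hny : (M.LR y).Nonempty) (h1 : τ ∈ M.II x) (h2 : τ ∈ M.II y) :
    x = y := by
  have a1 := if_i1 h x τ hx.1 hnx h1
  have a2 := if_i1 h y τ hy.1 hny h2
  have kτ := (mem_II.1 h1).1
  have kx := h.kt x hx.1
  have ky := h.kt y hy.1
  have a3 := h.ult _ _ _ kx kτ ky
  have a4 := h.sym _ _ kτ ky
  have a5 := h.sym _ _ kx ky
  have hd : M.d (M.t x) (M.t y) ≤ M.k x := by omega
  rcases h.g2 x hx.1 y hy.1 hk hd with e | e | e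
  · exact e
  · exact (if_i2a h x y τ hx hy hk hd e h1 h2).elim
  · exact (if_i2a h y x τ hy hx hk.symm (by omega) e h2 h1).elim

theorem if_uniq (h : M.OK) (x y y' : ι) (hy : y ∈ M.LR x) (hy' : y' ∈ M.LR x)
    (hc : M.c y = M.c y') : y = y' := by
  obtain ⟨⟨a1, a2, a3, a4, a5⟩, ry⟩ := mem_LR.1 hy
  obtain ⟨⟨b1, b2, b3, b4, b5⟩, ry'⟩ := mem_LR.1 hy'
  have kx := h.kt x a1
  have ky := h.kt y a2
  have ky' := h.kt y' b2
  have c1 := h.ult _ _ _ ky kx ky'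
  have c2 := h.sym _ _ ky kx
  have c3 := h.sym _ _ ky ky'
  have hd : M.d (M.t y) (M.t y') ≤ M.k y := by omega
  rcases h.g2 y a2 y' b2 (by omega) hd with e | e | e
  · exact e
  · exact (ry'.2 y ⟨a2, b2, by omega, hd, e⟩ hc).elim
  · exact (ry.2 y' ⟨b2, a2, by omega, by omega, e⟩ hc.symm).elim

theorem if_i3 (h : M.OK) (r : ℕ) (x : ι) (g : ι) (hg : g ∈ M.X) (hx : M.Nice r x)
    (ht : M.t g ∈ M.II x) (W : Finset ι) (hW : ∀ y ∈ W, y ∈ M.LR x ∧ M.c y ≤ M.k g) :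
    W.card ≤ r * 4 ^ (M.k x / 40) + 1 := by
  classical
  have e := Finset.card_filter_add_card_filter_not (s := W) (fun y => M.c y < M.k g)
  have h1 : (W.filter (fun y => M.c y < M.k g)).card ≤ r * 4 ^ (M.k x / 40) := by
    apply hx.2.2.2 g hg ht
    intro y hy
    rw [Finset.mem_filter] at hy
    exact ⟨(hW y hy.1).1, hy.2⟩
  have h2 : (W.filter (fun y => ¬ M.c y < M.k g)).card ≤ 1 := by
    rw [Finset.card_le_one]
    intro y hy y' hy'
    rw [Finset.mem_filter] at hy hy'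
    have a1 := (hW y hy.1).2
    have a2 := (hW y' hy'.1).2
    have a3 := hy.2
    have a4 := hy'.2
    exact if_uniq h x y y' (hW y hy.1).1 (hW y' hy'.1).1 (by omega)
  omega

theorem if_i4 (h : M.OK) (y g : ι) (hg : g ∈ M.X) (hy : y ∈ M.X) (hn : (M.LR y).Nonempty)
    (ht : M.t g ∈ M.II y) (hk : M.k y < M.k g) : M.c y ≤ M.k g := by
  obtain ⟨y0, hy0⟩ := hn
  obtain ⟨_, h1, h2⟩ := mem_II.1 ht
  exact h.g6 y y0 g hg (mem_LR.1 hy0).1 h1 (h2 y0 hy0) hk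

theorem if_i5 (r : ℕ) (f : ι) (hf : M.Good r f) :
    M.KF r f (M.kf r f) ∧ ∀ j, M.KF r f j → j ≤ M.kf r f := by
  classical
  obtain ⟨_, p, _, _, h1, _, h2⟩ := hf
  refine ⟨?_, fun j hj => ?_⟩
  · unfold kf
    exact Nat.findGreatest_spec (P := M.KF r f) h1.le h2
  · unfold kf
    have := hj.1
    exact Nat.le_findGreatest (P := M.KF r f) (by omega) hj

theorem if_i6a (r : ℕ) (f f' : ι) (hf : M.Good r f) (hf' : M.Good r f') (ht : M.t f = M.t f')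
    (hk : M.kf r f = M.kf r f') (hlt : M.k f < M.k f') : False := by
  have a1 := (if_i5 r f hf).1.1
  have a2 := (if_i5 r f' hf').2
  obtain ⟨_, p, _, _, h1, h2, h3⟩ := hf'
  have a3 := h2 f hf.1.1 ht hlt
  have a4 := a2 _ h3
  omega

theorem if_i6 (h : M.OK) (r : ℕ) (f f' : ι) (hf : M.Good r f) (hf' : M.Good r f')
    (ht : M.t f = M.t f') (hk : M.kf r f = M.kf r f') : f = f' := by
  have a1 := h.g0 f hf.1.1
  have a2 := h.g0 f' hf'.1.1
  rcases h.g1 f hf.1.1 f' hf'.1.1 ht with e | e | e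
  · exact e
  · exact (if_i6a r f f' hf hf' ht hk (by omega)).elim
  · exact (if_i6a r f' f hf' hf ht.symm hk.symm (by omega)).elim

end PS

theorem IF_holds : St_IF := fun ι M r h =>
  { i1 := fun x τ hx hn hτ => PS.if_i1 h x τ hx hn hτ
    i2 := fun x y τ hx hy hk hnx hny h1 h2 => PS.if_i2 h x y τ hx hy hk hnx hny h1 h2
    i3 := fun x g hg hx ht W hW => PS.if_i3 h r x g hg hx ht W hW
    i4 := fun y g hg hy hn ht hk => PS.if_i4 h y g hg hy hn ht hk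
    i5 := fun f hf => PS.if_i5 r f hf
    i6 := fun f f' hf hf' ht hk => PS.if_i6 h r f f' hf hf' ht hk }

end Pool.Agent.Lib.TV
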