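import Pool.Agent.Lib.TV.Blue

set_option autoImplicit false

namespace Pool.Agent.Lib.TV

theorem PC1_holds : St_PC1 := by
  classical
  intro ι M h D Z hZ
  have h1 : D * Z.card ≤ (Z.sigma (fun x => M.Rn x)).card := by
    rw [Finset.card_sigma, mul_comm, ← smul_eq_mul]
    exact Finset.card_nsmul_le_sum Z _ D (fun x hx => (hZ x hx).2.2)
  have h2 : M.AA = ((Finset.Ioo M.L M.R).sigma (fun τ => M.A τ)).card := by
    rw [Finset.card_sigma]; rfl
  rw [h2]
  refine h1.trans ?_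
  refine Finset.card_le_card_of_injOn
    (fun p => (⟨M.t p.1, M.g p.2⟩ : Σ _ : ℤ, ℤ)) ?_ ?_
  · rintro ⟨x, y⟩ hp
    rw [Finset.mem_coe, Finset.mem_sigma] at hp
    obtain ⟨hx, hy⟩ := hp
    obtain ⟨hxX, hl, -⟩ := hZ x hx
    obtain ⟨hxy, hc⟩ := PS.mem_Rn.1 hy
    rw [Finset.mem_coe, Finset.mem_sigma]
    refine ⟨Finset.mem_Ioo.2 (h.kt x hxX), ?_⟩
    unfold PS.Last at hl
    push Not at hl
    obtain ⟨x', hx', ht, hk⟩ := hl
    have a0 := h.g0 x hxX
    have a1 := h.g0 x' hx'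
    refine h.g4 x y x' hx' hxy ht ?_
    rcases h.g1 x hxX x' hx' ht.symm with e | e | e
    · subst e; omega
    · dsimp only at hc; omega
    · omega
  · rintro ⟨x, y⟩ hp ⟨x', y'⟩ hp' e
    rw [Finset.mem_coe, Finset.mem_sigma] at hp hp'
    obtain ⟨hx, hy⟩ := hp
    obtain ⟨hx', hy'⟩ := hp'
    obtain ⟨hxy, hc⟩ := PS.mem_Rn.1 hy
    obtain ⟨hxy', hc'⟩ := PS.mem_Rn.1 hy'
    dsimp only at hxy hc hxy' hc'
    have e1 : M.t x = M.t x' := congrArg Sigma.fst e
    have e2 : M.g y = M.g y' := congrArg (fun p : (Σ _ : ℤ, ℤ) => p.2) e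
    have e3 := h.g4b x y x' y' hxy hxy' e1 e2
    have a0 := h.g0 x hxy.1
    have a1 := h.g0 x' hxy'.1
    have ex : x = x' := by
      rcases h.g1 x hxy.1 x' hxy'.1 e1 with e | e | e
      · exact e
      · omega
      · omega
    subst ex
    obtain ⟨b1, b2, b3, b4, -⟩ := hxy
    obtain ⟨-, c2, c3, c4, -⟩ := hxy'
    have kx := h.kt x b1
    have ky := h.kt y b2
    have ky' := h.kt y' c2
    have u1 := h.ult _ _ _ ky kx ky'
    have u2 := h.sym _ _ ky kx
    have u3 := h.sym _ _ ky ky'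
    have ey : y = y' := by
      rcases h.g2 y b2 y' c2 (by omega) (by omega) with e | e | e
      · exact e
      · exact absurd e2 (h.g3 y y' ⟨b2, c2, by omega, by omega, e⟩).2
      · exact absurd e2.symm (h.g3 y' y ⟨c2, b2, by omega, by omega, e⟩).2
    subst ey
    rfl

end Pool.Agent.Lib.TV
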