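import Pool.Agent.Lib.TV.Blue

set_option autoImplicit false

namespace Pool.Agent.Lib.TV

open Pool.Agent.Lib.MP_3ecc11_lc Pool.Agent.Lib.TV19

variable {ι : Type} {M : PS ι}

theorem pc2_cmp (h : M.OK) {x y y' : ι} (h1 : M.Lt x y) (h2 : M.Lt x y') :
    y = y' ∨ M.Lt y y' ∨ M.Lt y' y := by
  obtain ⟨a1, a2, a3, a4, -⟩ := h1
  obtain ⟨-, b2, b3, b4, -⟩ := h2
  have hx := h.kt x a1
  have hy := h.kt y a2
  have hy' := h.kt y' b2
  have e1 := h.ult _ _ _ hy hx hy'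
  have e2 := h.sym _ _ hy hx
  have e3 := h.sym _ _ hy hy'
  rcases h.g2 y a2 y' b2 (by omega) (by omega) with e | e | e
  · exact Or.inl e
  · exact Or.inr (Or.inl ⟨a2, b2, by omega, by omega, e⟩)
  · exact Or.inr (Or.inr ⟨b2, a2, by omega, by omega, e⟩)

theorem pc2_one (h : M.OK) {r : ℕ} {x : ι} (hx : x ∈ M.X) (hne : (M.LR x).Nonempty)
    (hT : ¬ M.T12 r x) : r * 4 ^ (M.k x / 40) ≤ ∑ τ ∈ M.II x, (M.A τ).card := by
  classical
  unfold PS.T12 at hT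
  push Not at hT
  obtain ⟨p, hp, hpI, W, hW, hc⟩ := hT
  obtain ⟨y0, hy0, hmax⟩ := Finset.exists_max_image (M.LR x)
    (fun y => M.b (M.t y) - M.a (M.t y)) hne
  have hx0 := (PS.mem_LR.1 hy0).1
  have hfirst : ∀ y ∈ M.LR x, y0 = y ∨ M.Lt y0 y := by
    intro y hy
    rcases pc2_cmp h hx0 (PS.mem_LR.1 hy).1 with e | e | e
    · exact Or.inl e
    · exact Or.inr e
    · have e1 := h.sz _ _ (h.kt y e.1) e.2.2.2.2
      have e2 := hmax y hy
      omega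
  obtain ⟨hk, hg, hge⟩ := PS.mem_II.1 hpI
  have hsub : (W.erase y0).image M.g ⊆ (M.II x).biUnion M.A := by
    intro v hv
    obtain ⟨y, hy, rfl⟩ := Finset.mem_image.1 hv
    obtain ⟨hne0, hyW⟩ := Finset.mem_erase.1 hy
    obtain ⟨hyL, hyc⟩ := hW y hyW
    have hlt : M.Lt y0 y := (hfirst y hyL).resolve_left (Ne.symm hne0)
    obtain ⟨τ, t1, t2, t3⟩ := h.g5 x y0 y p hp hx0 hlt hg (hge y0 hy0) hyc
    have hτ := h.key _ _ hk t1
    refine Finset.mem_biUnion.2 ⟨τ, PS.mem_II.2 ⟨hτ, h.toOK1.gt_ge (h.kt x hx) hg t1, ?_⟩, t3⟩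
    intro y' hy'
    rcases hfirst y' hy' with e | e
    · rw [← e]
      exact t2
    · exact h.trans _ _ _ hτ t2 e.2.2.2.2.1
  have hinj : Set.InjOn M.g (W.erase y0 : Finset ι) := by
    intro y hy y' hy' e
    have h1 := (PS.mem_LR.1 (hW y (Finset.mem_of_mem_erase hy)).1).1
    have h2 := (PS.mem_LR.1 (hW y' (Finset.mem_of_mem_erase hy')).1).1
    rcases pc2_cmp h h1 h2 with e1 | e1 | e1
    · exact e1
    · exact absurd e (h.g3 _ _ e1).2
    · exact absurd e.symm (h.g3 _ _ e1).2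
  have h1 := Finset.card_le_card hsub
  rw [Finset.card_image_of_injOn hinj] at h1
  have h2 := Finset.pred_card_le_card_erase (s := W) (a := y0)
  have h3 := Finset.card_biUnion_le (s := M.II x) (t := M.A)
  omega

theorem PC2_holds (hIF : St_IF) (hS : St_SUM) : St_PC2 := by
  classical
  intro ι M h r Z hZ
  have hI := hIF ι M r h
  rw [Finset.mul_sum]
  refine le_trans (hS ι Z M.k (fun x => r * 2 ^ (M.k x / 40 + 1)) (2 * M.AA) ?_) (by omega)
  intro j W hW hk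
  have h1 : ∑ x ∈ W, ∑ τ ∈ M.II x, (M.A τ).card ≤ M.AA := by
    rw [← Finset.sum_biUnion]
    · refine Finset.sum_le_sum_of_subset ?_
      intro τ hτ
      obtain ⟨x, -, hx⟩ := Finset.mem_biUnion.1 hτ
      exact Finset.mem_Ioo.2 (PS.mem_II.1 hx).1
    · intro x hx y hy hne
      refine Finset.disjoint_left.2 fun τ t1 t2 => hne ?_
      exact hI.i2 x y τ (hZ x (hW hx)).1 (hZ y (hW hy)).1 ((hk x hx).trans (hk y hy).symm)
        (hZ x (hW hx)).2.1 (hZ y (hW hy)).2.1 t1 t2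
  rw [Finset.sum_mul]
  refine le_trans ?_ (Nat.mul_le_mul_left 2 h1)
  rw [Finset.mul_sum]
  refine Finset.sum_le_sum fun x hx => ?_
  obtain ⟨a1, a2, a3⟩ := hZ x (hW hx)
  have h2 := pc2_one h a1.1 a2 a3
  rw [hk x hx] at h2 ⊢
  have h3 : r * 2 ^ (j / 40 + 1) * 2 ^ (j / 40) = 2 * (r * 4 ^ (j / 40)) := by
    rw [show (4 : ℕ) = 2 * 2 from rfl, mul_pow]
    ring
  omega

end Pool.Agent.Lib.TV
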