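import Pool.Agent.Lib.TV.Blue

set_option autoImplicit false
set_option linter.unusedVariables false

namespace Pool.Agent.Lib.TV

open Finset

theorem PC3_holds (hIF : St_IF) (hSUM : St_SUM) : St_PC3 := by
  classical
  intro ι M hM Z hZ
  have hI := hIF ι M 0 hM
  have key := hSUM ι Z M.k (fun x => 2 ^ (M.k x / 40 + 1)) (2 * M.n) (by
    intro j W hW hj
    have hdisj : ∀ x ∈ W, ∀ y ∈ W, x ≠ y → Disjoint (M.II x) (M.II y) := by
      intro x hx y hy hne
      rw [Finset.disjoint_left]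
      intro τ h1 h2
      exact hne (hI.i2 x y τ (hZ x (hW hx)).1 (hZ y (hW hy)).1 ((hj x hx).trans (hj y hy).symm)
        (hZ x (hW hx)).2.1 (hZ y (hW hy)).2.1 h1 h2)
    have hsub : W.biUnion M.II ⊆ Finset.Ioo M.L M.R := by
      intro τ hτ
      obtain ⟨x, hx, h⟩ := Finset.mem_biUnion.mp hτ
      have := (PS.mem_II.mp h).1
      exact Finset.mem_Ioo.mpr this
    have h1 : ∑ x ∈ W, (M.II x).card ≤ M.n := by
      rw [← Finset.card_biUnion hdisj]
      exact Finset.card_le_card hsub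
    have h2 : ∑ x ∈ W, 4 ^ (j / 40) ≤ ∑ x ∈ W, (M.II x).card := by
      apply Finset.sum_le_sum
      intro x hx
      have := (hZ x (hW hx)).2.2
      rw [hj x hx] at this
      exact this.le
    have h3 : (∑ x ∈ W, 2 ^ (M.k x / 40 + 1)) * 2 ^ (j / 40) = 2 * ∑ x ∈ W, 4 ^ (j / 40) := by
      rw [Finset.sum_mul, Finset.mul_sum]
      apply Finset.sum_congr rfl
      intro x hx
      rw [hj x hx, show (4 : ℕ) = 2 * 2 from rfl, mul_pow, pow_succ]
      ring
    rw [h3]
    omega)
  omega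

end Pool.Agent.Lib.TV
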