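import Pool.Agent.Lib.TV.Blue

set_option autoImplicit false
set_option linter.unusedVariables false

namespace Pool.Agent.Lib.TV

open Pool.Agent.Lib.MP_3ecc11_lc Pool.Agent.Lib.TV19

theorem PC4_window {ι : Type} {M : PS ι} (h : M.OK) {Z W : Finset ι} {x : ι}
    (hX : ∀ y ∈ Z, y ∈ M.X) (hno : ∀ y ∈ Z, ∀ y' ∈ Z, ¬ M.Lt y y') (hx : x ∈ Z) (hW : W ⊆ Z)
    (hw : ∀ y ∈ W, M.k y = M.k x ∧ M.d (M.t x) (M.t y) ≤ M.k x) : W.card ≤ 1 := by
  rw [Finset.card_le_one]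
  intro y hy y' hy'
  have yX := hX y (hW hy)
  have yX' := hX y' (hW hy')
  have xX := hX x hx
  obtain ⟨e1, d1⟩ := hw y hy
  obtain ⟨e2, d2⟩ := hw y' hy'
  have s1 := h.sym _ _ (h.kt x xX) (h.kt y yX)
  have s2 := h.sym _ _ (h.kt y yX) (h.kt y' yX')
  have u1 := h.ult _ _ _ (h.kt y yX) (h.kt x xX) (h.kt y' yX')
  have hd : M.d (M.t y) (M.t y') ≤ M.k y := by omega
  rcases h.g2 y yX y' yX' (by omega) hd with e | e | e
  · exact e
  · exact absurd ⟨yX, yX', by omega, hd, e⟩ (hno y (hW hy) y' (hW hy'))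
  · exact absurd ⟨yX', yX, by omega, by omega, e⟩ (hno y' (hW hy') y (hW hy))

theorem PC4_holds (hWC : St_WC) : St_PC4 := by
  intro ι M h
  refine ⟨fun Z hZ => ?_, fun Z hZ => ?_, fun Z hZ => ?_⟩
  · have hX : ∀ y ∈ Z, y ∈ M.X := fun y hy => (hZ y hy).1.1
    have hno : ∀ y ∈ Z, ∀ y' ∈ Z, ¬ M.Lt y y' := fun y hy y' hy' hl =>
      (hZ y hy).2 ⟨y', PS.mem_LR.2 ⟨hl, (hZ y' hy').1⟩⟩
    have key := hWC ι M h.toOK1 Z M.t M.k (fun j => 2 ^ (j / 40 + 1)) 2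
      (fun x hx => ⟨h.kt x (hX x hx), h.low x (hX x hx)⟩) (fun x hx W hW hw => by
        have h1 := PC4_window h hX hno hx hW hw
        have h2 : 2 ^ (M.k x / 40 + 1) * 2 ^ (M.k x / 40) ≤ 2 * 2 ^ (M.k x / 5) := by
          rw [← pow_add, ← pow_succ']
          exact Nat.pow_le_pow_right (by norm_num) (by omega)
        calc W.card * 2 ^ (M.k x / 40 + 1) * 2 ^ (M.k x / 40)
            ≤ 1 * 2 ^ (M.k x / 40 + 1) * 2 ^ (M.k x / 40) := by gcongr
          _ ≤ 2 * 2 ^ (M.k x / 5) := by rw [one_mul]; exact h2)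
    omega
  · have hX : ∀ y ∈ Z, y ∈ M.X := fun y hy => (hZ y hy).1
    have hno : ∀ y ∈ Z, ∀ y' ∈ Z, ¬ M.Lt y y' := fun y hy y' hy' hl => (hZ y' hy').2 y hl
    have key := hWC ι M h.toOK1 Z M.t M.k (fun _ => 1) 1
      (fun x hx => ⟨h.kt x (hX x hx), h.low x (hX x hx)⟩) (fun x hx W hW hw => by
        have h1 := PC4_window h hX hno hx hW hw
        have h2 : 2 ^ (M.k x / 40) ≤ 2 ^ (M.k x / 5) :=
          Nat.pow_le_pow_right (by norm_num) (by omega)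
        calc W.card * 1 * 2 ^ (M.k x / 40) ≤ 1 * 1 * 2 ^ (M.k x / 40) := by gcongr
          _ ≤ 1 * 2 ^ (M.k x / 5) := by omega)
    simpa using key
  · unfold PS.n
    refine Finset.card_le_card_of_injOn M.t (fun x hx => ?_) (fun x hx y hy e => ?_)
    · have := h.kt x (hZ x hx).1
      exact Finset.mem_coe.2 (Finset.mem_Ioo.2 this)
    · obtain ⟨xX, xl⟩ := hZ x hx
      obtain ⟨yX, yl⟩ := hZ y hy
      have a1 := xl y yX e.symm
      have a2 := yl x xX e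
      have a3 := h.g0 x xX
      have a4 := h.g0 y yX
      rcases h.g1 x xX y yX e with g | g | g
      · exact g
      · omega
      · omega

end Pool.Agent.Lib.TV
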