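import Pool.Agent.Lib.TV.Blue

set_option autoImplicit false
set_option linter.unusedVariables false

namespace Pool.Agent.Lib.TV

open Pool.Agent.Lib.MP_3ecc11_lc Pool.Agent.Lib.TV19

namespace PS

variable {ι : Type} {M : PS ι}

/-- every event has a first event of its run -/
theorem pc7_first (h : M.OK1) {x : ι} (hx : x ∈ M.X) :
    ∃ y, M.Rise y ∧ (y = x ∨ (M.Lt y x ∧ M.c y = M.c x)) := by
  classical
  obtain ⟨y, hy, hmax⟩ := Finset.exists_max_image
    (M.X.filter (fun y => y = x ∨ (M.Lt y x ∧ M.c y = M.c x)))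
    (fun y => M.b (M.t y) - M.a (M.t y)) ⟨x, Finset.mem_filter.2 ⟨hx, Or.inl rfl⟩⟩
  obtain ⟨hyX, hy2⟩ := Finset.mem_filter.1 hy
  refine ⟨y, ⟨hyX, fun w hw hc => ?_⟩, hy2⟩
  have hwm : w ∈ M.X.filter (fun y => y = x ∨ (M.Lt y x ∧ M.c y = M.c x)) := by
    refine Finset.mem_filter.2 ⟨hw.1, Or.inr ?_⟩
    rcases hy2 with rfl | ⟨h1, h2⟩
    · exact ⟨hw, hc⟩
    · exact ⟨h.lt_trans hw h1, hc.trans h2⟩
  have h1 := hmax w hwm
  have h2 := h.sz _ _ (h.kt w hw.1) hw.2.2.2.2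
  omega

/-- along a run the number of later events strictly decreases -/
theorem pc7_card_lt (h : M.OK1) {x x' : ι} (hl : M.Lt x x') (hc : M.c x' = M.c x) :
    (M.Rn x').card < (M.Rn x).card := by
  apply Finset.card_lt_card
  rw [Finset.ssubset_iff_of_subset]
  · refine ⟨x', mem_Rn.2 ⟨hl, hc⟩, fun hm => ?_⟩
    exact (mem_Rn.1 hm).1.2.2.2.2.2 rfl
  · intro y hy
    obtain ⟨h1, h2⟩ := mem_Rn.1 hy
    exact mem_Rn.2 ⟨h.lt_trans hl h1, h2.trans hc⟩

/-- two events of one run with the same number of later events coincide -/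
theorem pc7_inj (h : M.OK) {y x x' : ι} (hx : x ∈ M.X) (hx' : x' ∈ M.X) (hy : y ∈ M.X)
    (h1 : y = x ∨ (M.Lt y x ∧ M.c y = M.c x)) (h2 : y = x' ∨ (M.Lt y x' ∧ M.c y = M.c x'))
    (hc : (M.Rn x).card = (M.Rn x').card) : x = x' := by
  have ky := h.kt y hy
  have kx := h.kt x hx
  have kx' := h.kt x' hx'
  have e1 : M.k y = M.k x ∧ M.c y = M.c x ∧ M.d (M.t y) (M.t x) ≤ M.k y := by
    rcases h1 with rfl | ⟨a, b⟩
    · exact ⟨rfl, rfl, by rw [h.self _ ky]; exact Nat.zero_le _⟩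
    · exact ⟨a.2.2.1, b, a.2.2.2.1⟩
  have e2 : M.k y = M.k x' ∧ M.c y = M.c x' ∧ M.d (M.t y) (M.t x') ≤ M.k y := by
    rcases h2 with rfl | ⟨a, b⟩
    · exact ⟨rfl, rfl, by rw [h.self _ ky]; exact Nat.zero_le _⟩
    · exact ⟨a.2.2.1, b, a.2.2.2.1⟩
  have s1 := h.sym _ _ ky kx
  have s2 := h.sym _ _ kx kx'
  have u1 := h.ult _ _ _ kx ky kx'
  have hd : M.d (M.t x) (M.t x') ≤ M.k x := by omega
  rcases h.g2 x hx x' hx' (by omega) hd with e | e | e
  · exact e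
  · have := pc7_card_lt h.toOK1 (x := x) (x' := x') ⟨hx, hx', by omega, hd, e⟩ (by omega)
    omega
  · have := pc7_card_lt h.toOK1 (x := x') (x' := x) ⟨hx', hx, by omega, by omega, e⟩ (by omega)
    omega

end PS

theorem PC7_holds : St_PC7 := by
  classical
  intro ι M h D Z hZ
  have hex : ∀ x : ι, ∃ y, x ∈ M.X → (M.Rise y ∧ (y = x ∨ (M.Lt y x ∧ M.c y = M.c x))) := by
    intro x
    by_cases hx : x ∈ M.X
    · obtain ⟨y, hy⟩ := PS.pc7_first h.toOK1 hx
      exact ⟨y, fun _ => hy⟩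
    · exact ⟨x, fun h' => absurd h' hx⟩
  choose ρ hρ using hex
  refine ⟨Z.image ρ, ?_, ?_⟩
  · apply Finset.card_le_mul_card_image
    intro y hy
    have : (Z.filter (fun x => ρ x = y)).card ≤ (Finset.range D).card := by
      apply Finset.card_le_card_of_injOn (fun x => (M.Rn x).card)
      · intro x hx
        have hx1 := (Finset.mem_filter.1 (Finset.mem_coe.1 hx)).1
        exact Finset.mem_coe.2 (Finset.mem_range.2 (hZ x hx1).2)
      · intro x hx x' hx' hc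
        obtain ⟨a1, a2⟩ := Finset.mem_filter.1 (Finset.mem_coe.1 hx)
        obtain ⟨b1, b2⟩ := Finset.mem_filter.1 (Finset.mem_coe.1 hx')
        have p1 := hρ x (hZ x a1).1
        have p2 := hρ x' (hZ x' b1).1
        rw [a2] at p1
        rw [b2] at p2
        exact PS.pc7_inj h (hZ x a1).1 (hZ x' b1).1 p1.1.1 p1.2 p2.2 hc
    simpa using this
  · intro y hy
    obtain ⟨x, hx, rfl⟩ := Finset.mem_image.1 hy
    exact (hρ x (hZ x hx).1).1

end Pool.Agent.Lib.TV
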