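import Pool.Agent.Lib.TV.Blue

set_option autoImplicit false
set_option linter.unusedVariables false

namespace Pool.Agent.Lib.TV

open Pool.Agent.Lib.MP_3ecc11_lc Pool.Agent.Lib.TV19

namespace PCA

variable {ι : Type} {M : PS ι}

theorem ball_eq (h : M.OK1) {u v : ℤ} {j : ℕ} (hu : M.Key u) (hv : M.Key v) (hd : M.d u v ≤ j) :
    M.B u j = M.B v j := by
  ext w
  rw [PS.mem_B, PS.mem_B]
  constructor
  · rintro ⟨hw, h1⟩
    have e1 := h.ult v u w hv hu hw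
    have e2 := h.sym u v hu hv
    exact ⟨hw, by omega⟩
  · rintro ⟨hw, h1⟩
    have e1 := h.ult u v w hu hv hw
    exact ⟨hw, by omega⟩

theorem arith (r q n : ℕ) (hn : n ≤ (r * 4 ^ (q / 40) + 2) * 4 ^ (q / 40)) :
    n * 1 * 2 ^ (q / 40) ≤ (r + 2) * 2 ^ (q / 5) := by
  set j := q / 40 with hj
  have h1 : 1 ≤ 4 ^ j := Nat.one_le_pow _ _ (by norm_num)
  have h2 : r * 4 ^ j + 2 ≤ (r + 2) * 4 ^ j := by nlinarith
  have h3 : 4 ^ j * 4 ^ j * 2 ^ j = 2 ^ (5 * j) := by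
    rw [show (4 : ℕ) = 2 ^ 2 by norm_num, ← pow_mul, ← pow_add, ← pow_add]
    congr 1
    ring
  have h4 : 2 ^ (5 * j) ≤ 2 ^ (q / 5) := Nat.pow_le_pow_right (by norm_num) (by omega)
  calc n * 1 * 2 ^ j ≤ ((r + 2) * 4 ^ j * 4 ^ j) * 2 ^ j := by
        apply Nat.mul_le_mul_right
        rw [mul_one]
        exact hn.trans (Nat.mul_le_mul_right _ h2)
    _ = (r + 2) * (4 ^ j * 4 ^ j * 2 ^ j) := by ring
    _ ≤ (r + 2) * 2 ^ (q / 5) := by
        rw [h3]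
        exact Nat.mul_le_mul_left _ h4

theorem window (h : M.OK) (r : ℕ) (hI : M.IF r) (W : Finset ι) (q : ℕ) (u : ℤ) (hu : M.Key u)
    (hW : ∀ y ∈ W, M.TA r y ∧ M.kf r y = q ∧ M.d u (M.t y) ≤ q) :
    W.card ≤ (r * 4 ^ (q / 40) + 2) * 4 ^ (q / 40) := by
  classical
  rcases W.eq_empty_or_nonempty with rfl | hne
  · simp
  have h1 := h.toOK1
  have hX : ∀ y ∈ W, y ∈ M.X := fun y hy => (hW y hy).1.1.1.1
  have hK : ∀ y ∈ W, M.Key (M.t y) := fun y hy => h1.kt y (hX y hy)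
  have hex : ∀ y : ι, ∃ x : ι, y ∈ W →
      40 * (q + 1) ≤ M.k y ∧ M.Nice r x ∧ M.k x = q ∧ M.t y ∈ M.II x := by
    intro y
    by_cases hy : y ∈ W
    · obtain ⟨e1, x, e2, e3, e4⟩ := (hI.i5 y (hW y hy).1.1).1
      rw [(hW y hy).2.1] at e1 e3
      exact ⟨x, fun _ => ⟨e1, e2, e3, e4⟩⟩
    · exact ⟨y, fun hh => absurd hh hy⟩
  choose X hXs using hex
  have hxX : ∀ y ∈ W, X y ∈ M.X := fun y hy => (hXs y hy).2.1.1.1
  have hxK : ∀ y ∈ W, M.Key (M.t (X y)) := fun y hy => h1.kt _ (hxX y hy)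
  have hxd : ∀ y ∈ W, M.d (M.t (X y)) (M.t y) ≤ q := by
    intro y hy
    have := hI.i1 (X y) (M.t y) (hxX y hy) (hXs y hy).2.1.2.1 (hXs y hy).2.2.2
    rwa [(hXs y hy).2.2.1] at this
  have hyy : ∀ y ∈ W, ∀ y' ∈ W, M.d (M.t y) (M.t y') ≤ q := by
    intro y hy y' hy'
    have e1 := h1.ult (M.t y) u (M.t y') (hK y hy) hu (hK y' hy')
    have e2 := h1.sym u (M.t y) hu (hK y hy)
    have e3 := (hW y hy).2.2
    have e4 := (hW y' hy').2.2
    omega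
  have hxx : ∀ y ∈ W, ∀ y' ∈ W, M.d (M.t (X y)) (M.t (X y')) ≤ q := by
    intro y hy y' hy'
    have e1 := h1.ult (M.t (X y)) (M.t y) (M.t (X y')) (hxK y hy) (hK y hy) (hxK y' hy')
    have e2 := h1.ult (M.t y) (M.t y') (M.t (X y')) (hK y hy) (hK y' hy') (hxK y' hy')
    have e3 := h1.sym (M.t y') (M.t (X y')) (hK y' hy') (hxK y' hy')
    have e4 := hxd y hy
    have e5 := hxd y' hy'
    have e6 := hyy y hy y' hy'
    omega
  have hlt : ∀ y ∈ W, ∀ y' ∈ W, M.Gt (M.t (X y)) (M.t (X y')) →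
      X y' ∈ M.LR (X y) ∧ M.Gt (M.t y) (M.t y') := by
    intro y hy y' hy' hg
    have e1 : X y' ∈ M.LR (X y) := by
      rw [PS.mem_LR]
      refine ⟨⟨hxX y hy, hxX y' hy', ?_, ?_, hg⟩, (hXs y' hy').2.1.1⟩
      · rw [(hXs y hy).2.2.1, (hXs y' hy').2.2.1]
      · rw [(hXs y hy).2.2.1]
        exact hxx y hy y' hy'
    have e2 := (PS.mem_II.1 (hXs y hy).2.2.2).2.2 _ e1
    have e3 := (PS.mem_II.1 (hXs y' hy').2.2.2).2.1
    exact ⟨e1, h1.ge_gt (hK y hy) e2 e3⟩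
  have htri : ∀ y ∈ W, ∀ y' ∈ W, X y = X y' ∨ M.Gt (M.t (X y)) (M.t (X y')) ∨
      M.Gt (M.t (X y')) (M.t (X y)) := by
    intro y hy y' hy'
    apply h.toOK2.g2 _ (hxX y hy) _ (hxX y' hy')
    · rw [(hXs y hy).2.2.1, (hXs y' hy').2.2.1]
    · rw [(hXs y hy).2.2.1]
      exact hxx y hy y' hy'
  have hinj : ∀ y ∈ W, ∀ y' ∈ W, M.t y = M.t y' → y = y' := by
    intro y hy y' hy' e
    exact hI.i6 y y' (hW y hy).1.1 (hW y' hy').1.1 e (by rw [(hW y hy).2.1, (hW y' hy').2.1])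
  obtain ⟨f1, hf1, hmax⟩ := W.exists_max_image (fun y => M.b (M.t y) - M.a (M.t y)) hne
  have hnot : ∀ y ∈ W, ¬ M.Gt (M.t y) (M.t f1) := by
    intro y hy hg
    have e1 := h1.sz _ _ (hK y hy) hg
    have e2 := hmax y hy
    omega
  have hV : ∀ y ∈ W, X y ≠ X f1 → X y ∈ M.LR (X f1) ∧ M.c (X y) ≤ M.k f1 := by
    intro y hy hne'
    rcases htri f1 hf1 y hy with e | e | e
    · exact absurd e.symm hne'
    · obtain ⟨e1, e2⟩ := hlt f1 hf1 y hy e
      have e3 : M.k y ≤ M.k f1 := by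
        apply (hW y hy).1.2 f1 (hW f1 hf1).1.1 (by rw [(hW y hy).2.1, (hW f1 hf1).2.1]) _ e2
        rw [(hW y hy).2.1]
        exact hyy f1 hf1 y hy
      have e4 : M.c (X y) ≤ M.k y := by
        apply hI.i4 (X y) y (hX y hy) (hxX y hy) (hXs y hy).2.1.2.1 (hXs y hy).2.2.2
        have e5 := (hXs y hy).1
        have e6 := (hXs y hy).2.2.1
        omega
      exact ⟨e1, e4.trans e3⟩
    · exact absurd (hlt y hy f1 hf1 e).2 (hnot y hy)
  have hcard : (W.image X).card ≤ r * 4 ^ (q / 40) + 2 := by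
    have e1 := hI.i3 (X f1) f1 (hX f1 hf1) (hXs f1 hf1).2.1 (hXs f1 hf1).2.2.2
      ((W.image X).erase (X f1)) (by
        intro x hx
        obtain ⟨e2, e3⟩ := Finset.mem_erase.1 hx
        obtain ⟨y, hy, rfl⟩ := Finset.mem_image.1 e3
        exact hV y hy e2)
    rw [(hXs f1 hf1).2.2.1] at e1
    have e2 := Finset.pred_card_le_card_erase (s := W.image X) (a := X f1)
    omega
  have hfib : ∀ x ∈ W.image X, (W.filter (fun y => X y = x)).card ≤ 4 ^ (q / 40) := by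
    intro x hx
    obtain ⟨y0, hy0, rfl⟩ := Finset.mem_image.1 hx
    have e1 := (hXs y0 hy0).2.1.2.2.1
    rw [(hXs y0 hy0).2.2.1] at e1
    refine le_trans (Finset.card_le_card_of_injOn M.t ?_ ?_) e1
    · intro y hy
      obtain ⟨e2, e3⟩ := Finset.mem_filter.1 (Finset.mem_coe.1 hy)
      have := (hXs y e2).2.2.2
      rw [e3] at this
      exact Finset.mem_coe.2 this
    · intro y hy y' hy' e
      exact hinj y (Finset.mem_filter.1 (Finset.mem_coe.1 hy)).1 y'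
        (Finset.mem_filter.1 (Finset.mem_coe.1 hy')).1 e
  calc W.card ≤ 4 ^ (q / 40) * (W.image X).card := Finset.card_le_mul_card_image W _ hfib
    _ ≤ 4 ^ (q / 40) * (r * 4 ^ (q / 40) + 2) := Nat.mul_le_mul_left _ hcard
    _ = (r * 4 ^ (q / 40) + 2) * 4 ^ (q / 40) := Nat.mul_comm _ _

end PCA

theorem PCA_holds (hIF : St_IF) (hWC : St_WC) : St_PCA := by
  intro ι M h r Z hZ
  have hI := hIF ι M r h
  have h1 := h.toOK1
  have key := hWC ι M h1 Z M.t (M.kf r) (fun _ => 1) (r + 2) (by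
    intro f hf
    have hg := (hZ f hf).1
    have hK := h1.kt f hg.1.1
    obtain ⟨e1, x, e2, e3, e4⟩ := (hI.i5 f hg).1
    have e5 := hI.i1 x (M.t f) e2.1.1 e2.2.1 e4
    have e6 := h1.low x e2.1.1
    rw [PCA.ball_eq h1 (h1.kt x e2.1.1) hK e5, e3] at e6
    exact ⟨hK, e6⟩) (by
    intro f hf W hW hy
    apply PCA.arith
    exact PCA.window h r hI W (M.kf r f) (M.t f) (h1.kt f (hZ f hf).1.1.1)
      (fun y hyW => ⟨hZ y (hW hyW), (hy y hyW).1, (hy y hyW).2⟩))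
  simpa using key

end Pool.Agent.Lib.TV
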