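import Pool.Agent.Lib.TV.Blue

set_option autoImplicit false
set_option linter.unusedVariables false

namespace Pool.Agent.Lib.TV

theorem PCB_geo (m : ℕ) : ∑ j ∈ Finset.range m, 2 ^ j ≤ 2 ^ (m + 1) := by
  have h : ∀ m : ℕ, ∑ j ∈ Finset.range m, 2 ^ j + 1 = 2 ^ m := by
    intro m
    induction m with
    | zero => simp
    | succ m ih => rw [Finset.sum_range_succ, pow_succ]; omega
  have := h m
  rw [pow_succ]
  omega

open Classical in
theorem PCB_holds (hIF : St_IF) : St_PCB := by
  intro ι M hM r Z hZ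
  have hI := hIF ι M r hM
  let F : Finset ι := M.X.filter (fun x => M.Rise x ∧ ¬ M.Nice r x)
  let U : Finset (ℕ × ℤ) := F.biUnion (fun x => (Finset.range (M.k x / 40)).biUnion
    (fun j => (M.B (M.t x) j).image (fun τ => (j, τ))))
  have h1 : Z.card ≤ U.card := by
    apply Finset.card_le_card_of_injOn (fun f => (M.kf r f, M.t f))
    · intro f hf
      obtain ⟨hg, x, hx1, hx2, hx3, hx4⟩ := hZ f hf
      refine Finset.mem_coe.2 (Finset.mem_biUnion.2 ⟨x, Finset.mem_filter.2 ⟨hx1.1, hx1, hx2⟩, ?_⟩)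
      refine Finset.mem_biUnion.2 ⟨M.kf r f, Finset.mem_range.2 (by omega), ?_⟩
      exact Finset.mem_image.2 ⟨M.t f, PS.mem_B.2 ⟨hM.kt f hg.1.1, hx4⟩, rfl⟩
    · intro f hf f' hf' he
      have e1 : M.kf r f = M.kf r f' := congrArg Prod.fst he
      have e2 : M.t f = M.t f' := congrArg Prod.snd he
      exact hI.i6 f f' (hZ f hf).1 (hZ f' hf').1 e2 e1
  have h2 : U.card ≤ M.NN r := by
    refine le_trans Finset.card_biUnion_le ?_
    unfold PS.NN
    refine Finset.sum_le_sum ?_
    intro x hx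
    have hk : M.Key (M.t x) := hM.kt x (Finset.mem_filter.1 hx).1
    refine le_trans Finset.card_biUnion_le (le_trans ?_ (PCB_geo _))
    refine Finset.sum_le_sum ?_
    intro j _
    exact le_trans Finset.card_image_le (hM.up _ j hk)
  exact le_trans h1 h2

end Pool.Agent.Lib.TV
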