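import Pool.Agent.Lib.TV.Blue

set_option autoImplicit false
set_option linter.unusedVariables false

namespace Pool.Agent.Lib.TV

open Pool.Agent.Lib.MP_3ecc11_lc Pool.Agent.Lib.TV19

theorem pcc_arith (q r : ℕ) :
    (r * 4 ^ (q / 40) + 2) * 4 ^ (q / 40) * (40 * (q + 1)) * 1 * 2 ^ (q / 40) ≤
      1600 * (r + 2) * 2 ^ (q / 5) := by
  have h1 : q / 40 + 1 ≤ 2 ^ (q / 40) := Nat.lt_two_pow_self
  have h2 : q + 1 ≤ 40 * 2 ^ (q / 40) := by omega
  have h4 : 4 ^ (q / 40) = 2 ^ (q / 40) * 2 ^ (q / 40) := by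
    rw [← mul_pow]
    norm_num
  have h3 : (2 ^ (q / 40)) ^ 6 ≤ 2 ^ (q / 5) := by
    rw [← pow_mul]
    exact Nat.pow_le_pow_right (by norm_num) (by omega)
  have h5 : 1 ≤ 4 ^ (q / 40) := Nat.one_le_pow _ _ (by norm_num)
  have h6 : r * 4 ^ (q / 40) + 2 ≤ (r + 2) * 4 ^ (q / 40) := by nlinarith
  generalize 2 ^ (q / 5) = E at *
  rw [h4] at h6 ⊢
  generalize 2 ^ (q / 40) = P at *
  calc (r * (P * P) + 2) * (P * P) * (40 * (q + 1)) * 1 * P
      ≤ ((r + 2) * (P * P)) * (P * P) * (40 * (40 * P)) * 1 * P := by gcongr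
    _ = 1600 * (r + 2) * P ^ 6 := by ring
    _ ≤ 1600 * (r + 2) * E := Nat.mul_le_mul_left _ h3

theorem pcc_value {ι : Type} {M : PS ι} (hM : M.OK) {r : ℕ} (hI : M.IF r) (x : ι → ι) (q v : ℕ)
    (W : Finset ι)
    (hW : ∀ f ∈ W, f ∈ M.X ∧ M.Nice r (x f) ∧ M.t f ∈ M.II (x f) ∧ M.k (x f) < M.k f ∧
      M.k (x f) = q ∧ M.k f = v)
    (hd : ∀ f ∈ W, ∀ f' ∈ W, M.d (M.t (x f)) (M.t (x f')) ≤ q) :
    W.card ≤ (r * 4 ^ (q / 40) + 2) * 4 ^ (q / 40) := by
  classical
  have h1 := hM.toOK1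
  have h2 := hM.toOK2
  have hA : (W.image x).card ≤ r * 4 ^ (q / 40) + 2 := by
    rcases W.eq_empty_or_nonempty with he | hne
    · subst he
      simp
    obtain ⟨f0, hf0, hmax⟩ := Finset.exists_max_image W
      (fun f => M.b (M.t (x f)) - M.a (M.t (x f))) hne
    obtain ⟨a1, a2, a3, a4, a5, a6⟩ := hW f0 hf0
    have hb := hI.i3 (x f0) f0 a1 a2 a3 ((W.image x).erase (x f0)) (by
      intro y hy
      rw [Finset.mem_erase, Finset.mem_image] at hy
      obtain ⟨hne', f, hf, rfl⟩ := hy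
      obtain ⟨b1, b2, b3, b4, b5, b6⟩ := hW f hf
      have m0 : x f0 ∈ M.X := a2.1.1
      have m1 : x f ∈ M.X := b2.1.1
      have dd : M.d (M.t (x f0)) (M.t (x f)) ≤ M.k (x f0) := by
        rw [a5]
        exact hd f0 hf0 f hf
      refine ⟨?_, ?_⟩
      · rcases h2.g2 (x f0) m0 (x f) m1 (by omega) dd with e | e | e
        · exact absurd e.symm hne'
        · exact PS.mem_LR.2 ⟨⟨m0, m1, by omega, dd, e⟩, b2.1⟩
        · have s1 := h1.sz _ _ (h1.kt _ m1) e
          have s2 := hmax f hf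
          omega
      · have := hI.i4 (x f) f b1 m1 b2.2.1 b3 b4
        omega)
    rw [a5] at hb
    have := Finset.pred_card_le_card_erase (s := W.image x) (a := x f0)
    omega
  have hB : ∀ y ∈ W.image x, (W.filter (fun f => x f = y)).card ≤ 4 ^ (q / 40) := by
    intro y hy
    rw [Finset.mem_image] at hy
    obtain ⟨f0, hf0, rfl⟩ := hy
    obtain ⟨a1, a2, a3, a4, a5, a6⟩ := hW f0 hf0
    have hc := a2.2.2.1
    rw [a5] at hc
    refine le_trans ?_ hc
    apply Finset.card_le_card_of_injOn M.t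
    · intro f hf
      have hf' : f ∈ W.filter (fun f => x f = x f0) := hf
      rw [Finset.mem_filter] at hf'
      have := (hW f hf'.1).2.2.1
      rw [hf'.2] at this
      exact this
    · intro f hf f' hf' he
      have g1 : f ∈ W.filter (fun f => x f = x f0) := hf
      have g2 : f' ∈ W.filter (fun f => x f = x f0) := hf'
      rw [Finset.mem_filter] at g1 g2
      obtain ⟨b1, b2, b3, b4, b5, b6⟩ := hW f g1.1
      obtain ⟨c1, c2, c3, c4, c5, c6⟩ := hW f' g2.1
      have u1 := h2.g0 f b1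
      have u2 := h2.g0 f' c1
      rcases h2.g1 f b1 f' c1 he with e | e | e
      · exact e
      · omega
      · omega
  calc W.card ≤ 4 ^ (q / 40) * (W.image x).card := Finset.card_le_mul_card_image W _ hB
    _ ≤ 4 ^ (q / 40) * (r * 4 ^ (q / 40) + 2) := Nat.mul_le_mul_left _ hA
    _ = (r * 4 ^ (q / 40) + 2) * 4 ^ (q / 40) := mul_comm _ _

theorem PCC_holds (hIF : St_IF) (hWC : St_WC) : St_PCC := by
  classical
  intro ι M hM r Z hZ
  have h1 := hM.toOK1
  have hI := hIF ι M r hM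
  have hex : ∀ f : ι, ∃ x : ι, f ∈ Z → M.Nice r x ∧ M.t f ∈ M.II x ∧ M.k x < M.k f ∧
      M.k f < 40 * (M.k x + 1) := by
    intro f
    by_cases hf : f ∈ Z
    · obtain ⟨x, hx⟩ := (hZ f hf).2
      exact ⟨x, fun _ => hx⟩
    · exact ⟨f, fun h => absurd h hf⟩
  choose x hx using hex
  have key := hWC ι M h1 Z (fun f => M.t (x f)) (fun f => M.k (x f)) (fun _ => 1) (1600 * (r + 2))
    (fun f hf => ⟨h1.kt _ (hx f hf).1.1.1, h1.low _ (hx f hf).1.1.1⟩) ?_
  · rw [Finset.sum_const, smul_eq_mul, mul_one] at key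
    calc Z.card ≤ 320 * (1600 * (r + 2)) * M.n := key
      _ = 512000 * (r + 2) * M.n := by ring
  · intro f0 hf0 W hW hWx
    have hB : ∀ v ∈ W.image M.k, (W.filter (fun f => M.k f = v)).card ≤
        (r * 4 ^ (M.k (x f0) / 40) + 2) * 4 ^ (M.k (x f0) / 40) := by
      intro v hv
      apply pcc_value hM hI x (M.k (x f0)) v
      · intro f hf
        rw [Finset.mem_filter] at hf
        obtain ⟨b1, b2, b3, b4⟩ := hx f (hW hf.1)
        exact ⟨(hZ f (hW hf.1)).1, b1, b2, b3, (hWx f hf.1).1, hf.2⟩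
      · intro f hf f' hf'
        rw [Finset.mem_filter] at hf hf'
        have m0 := h1.kt _ (hx f0 hf0).1.1.1
        have m1 := h1.kt _ (hx f (hW hf.1)).1.1.1
        have m2 := h1.kt _ (hx f' (hW hf'.1)).1.1.1
        have s1 := h1.sym _ _ m0 m1
        have u1 := h1.ult _ _ _ m1 m0 m2
        have d1 := (hWx f hf.1).2
        have d2 := (hWx f' hf'.1).2
        omega
    have hA : (W.image M.k).card ≤ 40 * (M.k (x f0) + 1) := by
      have : W.image M.k ⊆ Finset.range (40 * (M.k (x f0) + 1)) := by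
        intro v hv
        rw [Finset.mem_image] at hv
        obtain ⟨f, hf, rfl⟩ := hv
        have b4 := (hx f (hW hf)).2.2.2
        have b5 := (hWx f hf).1
        rw [Finset.mem_range, ← b5]
        exact b4
      have := Finset.card_le_card this
      rwa [Finset.card_range] at this
    have hc : W.card ≤ (r * 4 ^ (M.k (x f0) / 40) + 2) * 4 ^ (M.k (x f0) / 40) *
        (40 * (M.k (x f0) + 1)) :=
      le_trans (Finset.card_le_mul_card_image W _ hB) (Nat.mul_le_mul_left _ hA)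
    exact le_trans (Nat.mul_le_mul_right _ (Nat.mul_le_mul_right _ hc)) (pcc_arith _ _)

end Pool.Agent.Lib.TV
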