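import Pool.Agent.Lib.TV.Blue

set_option autoImplicit false
set_option linter.unusedVariables false

namespace Pool.Agent.Lib.TV

open Classical in
theorem PCD_holds (hIF : St_IF) : St_PCD := by
  intro ι M hM r f hf
  have I := hIF ι M r hM
  by_cases hA : M.TA r f
  · exact Or.inl hA
  right
  have hex : ∃ f1, M.Good r f1 ∧ M.kf r f1 = M.kf r f ∧ M.d (M.t f1) (M.t f) ≤ M.kf r f ∧
      M.Gt (M.t f1) (M.t f) ∧ M.k f1 < M.k f := by
    by_contra hc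
    apply hA
    refine ⟨hf, fun f1 h1 h2 h3 h4 => ?_⟩
    by_contra h5
    exact hc ⟨f1, h1, h2, h3, h4, by omega⟩
  obtain ⟨f1, g1, e1, d1, t1, k1⟩ := hex
  have hfX : f ∈ M.X := hf.1.1
  have hf1X : f1 ∈ M.X := g1.1.1
  have kf := hM.kt f hfX
  have kf1 := hM.kt f1 hf1X
  have hj : 40 * (M.kf r f + 1) ≤ M.k f1 := by
    have := (I.i5 f1 g1).1.1
    rwa [e1] at this
  set Cn : Finset ι := M.X.filter (fun x => M.Rise x ∧ M.k x = M.k f1 ∧
    M.d (M.t f1) (M.t x) ≤ M.k f1 ∧ M.Gt (M.t x) (M.t f)) with hCn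
  have hmem : ∀ x, x ∈ Cn ↔ x ∈ M.X ∧ M.Rise x ∧ M.k x = M.k f1 ∧
      M.d (M.t f1) (M.t x) ≤ M.k f1 ∧ M.Gt (M.t x) (M.t f) := by
    intro x
    rw [hCn, Finset.mem_filter]
  have hf1C : f1 ∈ Cn := (hmem f1).2 ⟨hf1X, g1.1, rfl, by rw [hM.self _ kf1]; omega, t1⟩
  obtain ⟨x, hx, hmin⟩ := Cn.exists_min_image (fun x => M.b (M.t x) - M.a (M.t x)) ⟨f1, hf1C⟩
  obtain ⟨hxX, hxR, hxk, hxd, hxt⟩ := (hmem x).1 hx
  have kx := hM.kt x hxX
  have hge : M.Ge (M.t f1) (M.t x) := by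
    rcases hM.g2 f1 hf1X x hxX hxk.symm hxd with h | h | h
    · rw [h]; exact hM.refl _ kx
    · exact h.1
    · have h1 := hM.sz _ _ kx h
      have h2 := hmin f1 hf1C
      omega
  have hdx : M.d (M.t x) (M.t f) ≤ M.kf r f :=
    le_trans (hM.conv _ _ _ kf1 hge hxt.1).2 d1
  by_cases hN : M.Nice r x
  swap
  · exact Or.inl ⟨hf, x, hxR, hN, by omega, hdx⟩
  right
  have hII : M.t f ∈ M.II x := by
    refine PS.mem_II.2 ⟨kf, hxt, fun y hy => ?_⟩
    obtain ⟨⟨-, hyX, hyk, hyd, hyt⟩, hyR⟩ := PS.mem_LR.1 hy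
    have ky := hM.kt y hyX
    have u1 := hM.ult _ _ _ kf kx ky
    have s1 := hM.sym _ _ kf kx
    rcases hM.g7 f hfX y hyX (by omega) (by omega) with h | h
    · exact h
    · by_cases he : M.t y = M.t f
      · rw [he]; exact hM.refl _ kf
      · exfalso
        have u2 := hM.ult _ _ _ kf1 kx ky
        have hyC : y ∈ Cn := (hmem y).2 ⟨hyX, hyR, by omega, by omega, h, he⟩
        have h1 := hM.sz _ _ kx hyt
        have h2 := hmin y hyC
        omega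
  refine ⟨hfX, x, hN, hII, by omega, ?_⟩
  by_contra hc
  have := (I.i5 f hf).2 (M.k x) ⟨by omega, x, hN, rfl, hII⟩
  omega

end Pool.Agent.Lib.TV
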