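import Pool.Agent.Lib.TV.Blue

set_option autoImplicit false
set_option linter.unusedVariables false

namespace Pool.Agent.Lib.TV

open Pool.Agent.Lib.MP_3ecc11_lc Pool.Agent.Lib.TV19

theorem pg3_arith (q : ℕ) : (q + 1) * 2 ^ (q / 40) ≤ 40 * 2 ^ (q / 5) := by
  have h1 : q / 40 + 1 ≤ 2 ^ (q / 40) := Nat.lt_two_pow_self
  have h2 : q + 1 ≤ 40 * 2 ^ (q / 40) := by omega
  have h3 : 2 ^ (q / 40) * 2 ^ (q / 40) ≤ 2 ^ (q / 5) := by
    rw [← pow_add]
    exact Nat.pow_le_pow_right (by norm_num) (by omega)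
  calc (q + 1) * 2 ^ (q / 40) ≤ 40 * 2 ^ (q / 40) * 2 ^ (q / 40) := Nat.mul_le_mul_right _ h2
    _ = 40 * (2 ^ (q / 40) * 2 ^ (q / 40)) := by ring
    _ ≤ 40 * 2 ^ (q / 5) := Nat.mul_le_mul_left _ h3

theorem pg3_lt {ι : Type} {M : PS ι} (h : M.OK1) {p p' : ι} (hl : M.Lt p p')
    (hc : M.c p = M.c p') : (M.Rn p').card < (M.Rn p).card := by
  apply Finset.card_lt_card
  refine ⟨fun y hy => ?_, fun hs => ?_⟩
  · rw [PS.mem_Rn] at hy ⊢
    exact ⟨h.lt_trans hl hy.1, by rw [hy.2, hc]⟩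
  · have h1 : p' ∈ M.Rn p := PS.mem_Rn.2 ⟨hl, hc.symm⟩
    have h2 := (PS.mem_Rn.1 (hs h1)).1
    exact h2.2.2.2.2.2 rfl

theorem PG3_holds (hWC : St_WC) : St_PG3 := by
  classical
  intro ι M hM D Z hZ
  have h1 := hM.toOK1
  have h2 := hM.toOK2
  have key := hWC ι M h1 Z M.t M.k (fun _ => 1) (1600 * D)
    (fun x hx => ⟨h1.kt x (hZ x hx).1, h1.low x (hZ x hx).1⟩) ?_
  · rw [Finset.sum_const, smul_eq_mul, mul_one] at key
    calc Z.card ≤ 320 * (1600 * D) * M.n := key
      _ = 512000 * D * M.n := by ring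
  · intro x hx W hW hWx
    have hcard : W.card ≤ (Finset.range (40 * (M.k x + 1)) ×ˢ Finset.range D).card := by
      apply Finset.card_le_card_of_injOn (fun p => (M.c p, (M.Rn p).card))
      · intro p hp
        have hp' : p ∈ W := hp
        obtain ⟨a1, a2, a3⟩ := hZ p (hW hp')
        have a4 := (hWx p hp').1
        simp only [Finset.coe_product, Finset.coe_range, Set.mem_prod, Set.mem_Iio]
        exact ⟨by rw [← a4]; exact a3, a2⟩
      · intro p hp p' hp' he
        have hp1 : p ∈ W := hp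
        have hp2 : p' ∈ W := hp'
        have e1 : M.c p = M.c p' := congrArg Prod.fst he
        have e2 : (M.Rn p).card = (M.Rn p').card := congrArg Prod.snd he
        have m0 := (hZ x hx).1
        have m1 := (hZ p (hW hp1)).1
        have m2 := (hZ p' (hW hp2)).1
        obtain ⟨k1, d1⟩ := hWx p hp1
        obtain ⟨k2, d2⟩ := hWx p' hp2
        have s1 := h1.sym _ _ (h1.kt x m0) (h1.kt p m1)
        have s2 := h1.sym _ _ (h1.kt p m1) (h1.kt p' m2)
        have u1 := h1.ult _ _ _ (h1.kt p m1) (h1.kt x m0) (h1.kt p' m2)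
        have dd : M.d (M.t p) (M.t p') ≤ M.k p := by omega
        rcases h2.g2 p m1 p' m2 (by omega) dd with e | e | e
        · exact e
        · have := pg3_lt h1 (⟨m1, m2, by omega, dd, e⟩ : M.Lt p p') e1
          omega
        · have := pg3_lt h1 (⟨m2, m1, by omega, by omega, e⟩ : M.Lt p' p) e1.symm
          omega
    rw [Finset.card_product, Finset.card_range, Finset.card_range] at hcard
    have ha := pg3_arith (M.k x)
    calc W.card * 1 * 2 ^ (M.k x / 40) ≤ 40 * (M.k x + 1) * D * 1 * 2 ^ (M.k x / 40) :=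
          Nat.mul_le_mul_right _ (Nat.mul_le_mul_right _ hcard)
      _ = 40 * D * ((M.k x + 1) * 2 ^ (M.k x / 40)) := by ring
      _ ≤ 40 * D * (40 * 2 ^ (M.k x / 5)) := Nat.mul_le_mul_left _ ha
      _ = 1600 * D * 2 ^ (M.k x / 5) := by ring

end Pool.Agent.Lib.TV
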