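import Pool.Agent.Lib.TV.Blue

set_option autoImplicit false
set_option linter.unusedVariables false

namespace Pool.Agent.Lib.TV

open Pool.Agent.Lib.MP_3ecc11_lc Pool.Agent.Lib.TV19

namespace PRIaux

variable {ι : Type} {M : PS ι}

open Classical in
/-- an event with an earlier event in its window has a lowest earlier rise -/
theorem low_rise (h : M.OK) {p y : ι} (hy : M.Lt y p) :
    ∃ x, M.Rise x ∧ M.Lt x p ∧ ∀ y ∈ M.LR x, ¬ M.Lt y p := by
  have h1 : M.OK1 := h.toOK1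
  obtain ⟨y0, hy0, hmax⟩ := Finset.exists_max_image (M.X.filter (fun y => M.Lt y p))
    (fun y => M.b (M.t y) - M.a (M.t y)) ⟨y, Finset.mem_filter.2 ⟨hy.1, hy⟩⟩
  have hy0' : M.Lt y0 p := (Finset.mem_filter.1 hy0).2
  have hr : M.Rise y0 := by
    refine ⟨hy0'.1, fun y' hy' _ => ?_⟩
    have a1 := hmax y' (Finset.mem_filter.2 ⟨hy'.1, h1.lt_trans hy' hy0'⟩)
    have a2 := h1.sz _ _ (h1.kt y' hy'.1) hy'.2.2.2.2
    omega
  obtain ⟨x, hx, hmin⟩ := Finset.exists_min_image (M.X.filter (fun y => M.Lt y p ∧ M.Rise y))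
    (fun y => M.b (M.t y) - M.a (M.t y)) ⟨y0, Finset.mem_filter.2 ⟨hy0'.1, hy0', hr⟩⟩
  have hx' := (Finset.mem_filter.1 hx).2
  refine ⟨x, hx'.2, hx'.1, fun y' hy' hl => ?_⟩
  rw [PS.mem_LR] at hy'
  have a1 := hmin y' (Finset.mem_filter.2 ⟨hl.1, hl, hy'.2⟩)
  have a2 := h1.sz _ _ (h1.kt x hx'.1.1) hy'.1.2.2.2.2
  omega

/-- the previous event at the same time -/
def Prev (M : PS ι) (f p : ι) : Prop := p ∈ M.X ∧ M.t p = M.t f ∧ M.k p < M.k f ∧
  ∀ y ∈ M.X, M.t y = M.t f → M.k y < M.k f → M.k y ≤ M.k p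

theorem prev_cases (h : M.OK) (r D : ℕ) {f p : ι} (hf : M.Rise f) (hg : ¬ M.Good r f)
    (hp : Prev M f p) : M.First p ∨ M.Body D p ∨ M.G3 D p ∨ M.G4 r D p := by
  have h1 : M.OK1 := h.toOK1
  obtain ⟨p1, p2, p3, p4⟩ := hp
  have hkf : ¬ M.KF r f (M.k p) := fun hk => hg ⟨hf, p, p1, p2, p3, p4, hk⟩
  have hc : M.c p ≤ M.k f := by
    have a0 := h.g0 f hf.1
    rcases h.g1 p p1 f hf.1 p2 with e | e | e
    · subst e; omega
    · exact e
    · omega
  by_cases hF : ∃ y, M.Lt y p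
  swap
  · exact Or.inl ⟨p1, fun y hy => hF ⟨y, hy⟩⟩
  obtain ⟨y, hy⟩ := hF
  by_cases hD : D ≤ (M.Rn p).card
  · refine Or.inr (Or.inl ⟨p1, fun hl => ?_, hD⟩)
    have := hl f hf.1 p2.symm
    omega
  by_cases h3 : M.c p < 40 * (M.k p + 1)
  · exact Or.inr (Or.inr (Or.inl ⟨p1, by omega, h3⟩))
  obtain ⟨x, hx1, hx2, hx3⟩ := low_rise h hy
  refine Or.inr (Or.inr (Or.inr ⟨p1, by omega, x, hx1, fun hn => hkf ⟨by omega, x, hn, hx2.2.2.1, ?_⟩,
    hx2, hx3⟩))
  rw [PS.mem_II, ← p2]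
  refine ⟨h1.kt p p1, hx2.2.2.2.2, fun y' hy' => ?_⟩
  have hl := hx3 y' hy'
  rw [PS.mem_LR] at hy'
  obtain ⟨⟨b1, b2, b3, b4, b5⟩, _⟩ := hy'
  obtain ⟨c1, c2, c3, c4, c5⟩ := hx2
  have s1 := h1.sym _ _ (h1.kt x c1) (h1.kt p p1)
  have s2 := h1.sym _ _ (h1.kt p p1) (h1.kt y' b2)
  have u := h1.ult _ _ _ (h1.kt p p1) (h1.kt x c1) (h1.kt y' b2)
  rcases h.g2 p p1 y' b2 (by omega) (by omega) with e | e | e
  · subst e; exact h1.refl _ (h1.kt _ p1)
  · exact e.1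
  · exact absurd ⟨b2, p1, by omega, by omega, e⟩ hl

open Classical in
theorem exists_prev {f : ι} (hf : ∃ y ∈ M.X, M.t y = M.t f ∧ M.k y < M.k f) :
    ∃ p, Prev M f p := by
  obtain ⟨y, y1, y2, y3⟩ := hf
  obtain ⟨p, hp, hmax⟩ := Finset.exists_max_image
    (M.X.filter (fun y => M.t y = M.t f ∧ M.k y < M.k f)) M.k
    ⟨y, Finset.mem_filter.2 ⟨y1, y2, y3⟩⟩
  rw [Finset.mem_filter] at hp
  exact ⟨p, hp.1, hp.2.1, hp.2.2, fun y' a1 a2 a3 => hmax y' (Finset.mem_filter.2 ⟨a1, a2, a3⟩)⟩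

end PRIaux

open PRIaux in
theorem PRI_holds : St_PRI := by
  classical
  intro ι M h r D Z hZ
  have h1 : M.OK1 := h.toOK1
  let Q : ι → Prop := fun f => ∃ y ∈ M.X, M.t y = M.t f ∧ M.k y < M.k f
  have hch : ∀ f, ∃ p, Q f → Prev M f p := by
    intro f
    by_cases hq : Q f
    · obtain ⟨p, hp⟩ := exists_prev hq
      exact ⟨p, fun _ => hp⟩
    · exact ⟨f, fun hq' => absurd hq' hq⟩
  choose pv hpv using hch
  refine ⟨(Z.filter Q).image pv, ?_, ?_⟩
  · have e1 := Finset.card_filter_add_card_filter_not (s := Z) Q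
    have e2 : ((Z.filter Q).image pv).card = (Z.filter Q).card := by
      apply Finset.card_image_of_injOn
      intro f hf f' hf' e
      have hf := Finset.mem_filter.1 (Finset.mem_coe.1 hf)
      have hf' := Finset.mem_filter.1 (Finset.mem_coe.1 hf')
      obtain ⟨a1, a2, a3, a4⟩ := hpv f hf.2
      obtain ⟨b1, b2, b3, b4⟩ := hpv f' hf'.2
      have x1 := (hZ f hf.1).1.1
      have x2 := (hZ f' hf'.1).1.1
      have ht : M.t f = M.t f' := by rw [← a2, ← b2, e]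
      have g1 := h.g0 f x1
      have g2 := h.g0 f' x2
      rw [← e] at b3 b4
      rcases h.g1 f x1 f' x2 ht with e' | e' | e'
      · exact e'
      · have := b4 f x1 ht (by omega); omega
      · have := a4 f' x2 ht.symm (by omega); omega
    have e3 : (Z.filter (fun f => ¬ Q f)).card ≤ M.n := by
      unfold PS.n
      apply Finset.card_le_card_of_injOn M.t
      · intro f hf
        have hf := Finset.mem_filter.1 (Finset.mem_coe.1 hf)
        exact Finset.mem_coe.2 (Finset.mem_Ioo.2 (h1.kt f (hZ f hf.1).1.1))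
      · intro f hf f' hf' ht
        have hf := Finset.mem_filter.1 (Finset.mem_coe.1 hf)
        have hf' := Finset.mem_filter.1 (Finset.mem_coe.1 hf')
        have x1 := (hZ f hf.1).1.1
        have x2 := (hZ f' hf'.1).1.1
        have g1 := h.g0 f x1
        have g2 := h.g0 f' x2
        rcases h.g1 f x1 f' x2 ht with e' | e' | e'
        · exact e'
        · exact absurd ⟨f, x1, ht, by omega⟩ hf'.2
        · exact absurd ⟨f', x2, ht.symm, by omega⟩ hf.2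
    omega
  · intro p hp
    obtain ⟨f, hf, rfl⟩ := Finset.mem_image.1 hp
    have hf := Finset.mem_filter.1 hf
    exact prev_cases h r D (hZ f hf.1).1 (hZ f hf.1).2 (hpv f hf.2)

end Pool.Agent.Lib.TV
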