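import Pool.Agent.Lib.TV.Blue

set_option autoImplicit false

namespace Pool.Agent.Lib.TV

theorem geo40 (m : ℕ) :
    ∑ j ∈ Finset.range (40 * m), ((1 : ℚ) / 2) ^ (j / 40) = 80 - 80 * ((1 : ℚ) / 2) ^ m := by
  induction m with
  | zero => simp
  | succ m ih =>
    have e : 40 * (m + 1) = 40 * m + 40 := by ring
    rw [e, Finset.sum_range_add, ih]
    have : ∑ x ∈ Finset.range 40, ((1 : ℚ) / 2) ^ ((40 * m + x) / 40)
        = ∑ _x ∈ Finset.range 40, ((1 : ℚ) / 2) ^ m := by
      refine Finset.sum_congr rfl fun x hx => ?_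
      have := Finset.mem_range.1 hx
      have e2 : (40 * m + x) / 40 = m := by omega
      rw [e2]
    rw [this, Finset.sum_const, Finset.card_range, nsmul_eq_mul, pow_succ]
    push_cast
    ring

theorem SUM_holds : St_SUM := by
  intro ι Z κ wt K h
  classical
  set m := Z.sup κ + 1 with hm
  have hmap : ∀ x ∈ Z, κ x ∈ Finset.range (40 * m) := by
    intro x hx
    have := Finset.le_sup (f := κ) hx
    exact Finset.mem_range.2 (by omega)
  have e := Finset.sum_fiberwise_of_maps_to hmap wt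
  have key : ((∑ x ∈ Z, wt x : ℕ) : ℚ) ≤ 80 * K := by
    rw [← e, Nat.cast_sum]
    have h1 : ∀ j ∈ Finset.range (40 * m),
        ((∑ x ∈ Z with κ x = j, wt x : ℕ) : ℚ) ≤ K * ((1 : ℚ) / 2) ^ (j / 40) := by
      intro j _
      have h2 := h j (Z.filter fun x => κ x = j) (Finset.filter_subset _ _)
        (fun x hx => (Finset.mem_filter.1 hx).2)
      have h3 : ((∑ x ∈ Z with κ x = j, wt x : ℕ) : ℚ) * 2 ^ (j / 40) ≤ K := by
        exact_mod_cast h2
      have p : (0 : ℚ) < 2 ^ (j / 40) := by positivity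
      rw [one_div, inv_pow, ← div_eq_mul_inv, le_div_iff₀ p]
      exact h3
    refine (Finset.sum_le_sum h1).trans ?_
    rw [← Finset.mul_sum, geo40]
    have p : (0 : ℚ) ≤ ((1 : ℚ) / 2) ^ m := by positivity
    have q : (0 : ℚ) ≤ K := by positivity
    nlinarith [mul_nonneg q p]
  exact_mod_cast key

end Pool.Agent.Lib.TV
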