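import Pool.Agent.Lib.TV.Blue

set_option autoImplicit false
set_option linter.unusedVariables false

namespace Pool.Agent.Lib.TV

theorem WC_holds (hS : St_SUM) : St_WC := by
  classical
  intro ι M h Z f κ wt K h1 h2
  have key := hS ι Z κ (fun x => wt (κ x)) (4 * K * M.n) (by
    intro j W hW hj
    have e1 : ∑ x ∈ W, wt (κ x) = W.card * wt j := by
      rw [Finset.sum_congr rfl (fun x hx => by rw [hj x hx]), Finset.sum_const, smul_eq_mul]
    show (∑ x ∈ W, wt (κ x)) * 2 ^ (j / 40) ≤ 4 * K * M.n
    rw [e1]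
    have hv : ∀ v ∈ Finset.Ioo M.L M.R,
        (W.filter (fun x => M.d (f x) v ≤ j)).card * (wt j * 2 ^ (j / 40)) ≤ K * 2 ^ (j / 5) := by
      intro v hv
      have kv : M.Key v := Finset.mem_Ioo.mp hv
      rcases (W.filter (fun x => M.d (f x) v ≤ j)).eq_empty_or_nonempty with e | ⟨x, hx⟩
      · rw [e]; simp
      · rw [Finset.mem_filter] at hx
        have hxZ := hW hx.1
        have := h2 x hxZ (W.filter (fun x => M.d (f x) v ≤ j))
          ((Finset.filter_subset _ _).trans hW) (by
            intro y hy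
            rw [Finset.mem_filter] at hy
            have kx := (h1 x hxZ).1
            have ky := (h1 y (hW hy.1)).1
            have u := h.ult (f x) v (f y) kx kv ky
            have s := h.sym v (f y) kv ky
            have a1 := hj x hx.1
            have a2 := hj y hy.1
            have a3 := hx.2
            have a4 := hy.2
            refine ⟨by omega, ?_⟩
            rw [a1]
            exact u.trans (max_le a3 (by omega)))
        rw [hj x hx.1, mul_assoc] at this
        exact this
    have dc : ∑ x ∈ W, (M.B (f x) j).card =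
        ∑ v ∈ Finset.Ioo M.L M.R, (W.filter (fun x => M.d (f x) v ≤ j)).card := by
      unfold PS.B ball
      simp only [Finset.card_filter]
      exact Finset.sum_comm
    have lo : W.card * 2 ^ (j / 5) ≤ 4 * ∑ x ∈ W, (M.B (f x) j).card := by
      rw [Finset.mul_sum, ← smul_eq_mul, ← Finset.sum_const]
      refine Finset.sum_le_sum (fun x hx => ?_)
      have := (h1 x (hW hx)).2
      rw [hj x hx] at this
      exact this
    have up : (∑ v ∈ Finset.Ioo M.L M.R, (W.filter (fun x => M.d (f x) v ≤ j)).card) *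
        (wt j * 2 ^ (j / 40)) ≤ M.n * (K * 2 ^ (j / 5)) := by
      rw [Finset.sum_mul]
      unfold PS.n
      have := Finset.sum_le_card_nsmul _ _ _ hv
      rw [smul_eq_mul] at this
      exact this
    rw [← dc] at up
    have p : 0 < 2 ^ (j / 5) := by positivity
    refine Nat.le_of_mul_le_mul_right ?_ p
    calc W.card * wt j * 2 ^ (j / 40) * 2 ^ (j / 5)
        = (W.card * 2 ^ (j / 5)) * (wt j * 2 ^ (j / 40)) := by ring
      _ ≤ (4 * ∑ x ∈ W, (M.B (f x) j).card) * (wt j * 2 ^ (j / 40)) :=
          Nat.mul_le_mul_right _ lo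
      _ = 4 * ((∑ x ∈ W, (M.B (f x) j).card) * (wt j * 2 ^ (j / 40))) := by ring
      _ ≤ 4 * (M.n * (K * 2 ^ (j / 5))) := Nat.mul_le_mul_left _ up
      _ = 4 * K * M.n * 2 ^ (j / 5) := by ring)
  calc ∑ x ∈ Z, wt (κ x) ≤ 80 * (4 * K * M.n) := key
    _ = 320 * K * M.n := by ring

end Pool.Agent.Lib.TV
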