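import Pool.Agent.Lib.TV.Blue
import Pool.Agent.Lib.TVH.Hier2

set_option autoImplicit false
set_option linter.unusedVariables false

namespace Pool.Agent.Lib.TV

open Pool.Agent.Lib.MP_3ecc11_lc Pool.Agent.Lib.TV19

theorem HIER_holds : St_HIER := by
  intro N a b h
  obtain ⟨d, z, H, sh⟩ := TVH.hier2 h
  have eb : ∀ u k, ball 0 N d u k = TVH.ball N d u k := fun u k => rfl
  refine ⟨d, z, H.d0, H.sym, H.d1, H.d2, ?_, H.d4, ?_, H.d6, H.d7, H.z1, ?_, ?_, ?_⟩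
  · intro u v w u1 u2 h1 h2
    exact H.d3 u v w u1 u2 h1.1 h1.2 h2.1 h2.2
  · intro u v u1 u2 v1 v2
    exact H.d5' u1 u2 v1 v2
  · intro t w e t1 t2 h1 n1 h2 n2 h3
    exact H.z2 t w e t1 t2 h1.1 h1.2 n1 h2.1 h2.2 n2 h3
  · intro t u v t1 t2 h1 h2 uv n1 n2
    exact H.z3 t u v t1 t2 h1.1 uv h2.2 n1 n2
  · intro u v t y u1 u2 v1 v2 ne ht hy hd
    have hv : v ∈ TVH.ball N d u (d u v) := TVH.mem_ball.2 ⟨⟨v1, v2⟩, le_rfl⟩
    rw [eb] at ht
    rcases sh u (d u v) u1 u2 with e | ⟨m, m1, m2, e⟩ | ⟨m, y0, m1, m2, p1, p2, e, ez⟩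
    · rw [e, Finset.mem_singleton] at hv
      exact absurd hv.symm ne
    · have a1 := (e t).1 ht
      have st := TVH.sub h m1 m2 a1.1 a1.2
      have a2 : y ∈ TVH.ball N d u (d u v) := (e y).2 ⟨by have := hy.1; omega, by have := hy.2; omega⟩
      have := (TVH.mem_ball.1 a2).2
      omega
    · have sy := TVH.sub h m1 m2 p1 p2
      refine ⟨y0, sy.1, sy.2.1, fun y' hy' => ?_, fun t' y' ht' hy' hd' => ?_⟩
      · have s1 := TVH.sub h sy.1 sy.2.1 hy'.1 hy'.2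
        by_contra hc
        have a2 : y' ∈ TVH.ball N d u (d u v) := TVH.mem_ball.2 ⟨⟨s1.1, s1.2.1⟩, by omega⟩
        exact ((e y').1 a2).2 ⟨hy'.1, hy'.2⟩
      · rw [eb] at ht'
        have a1 := (e t').1 ht'
        have st := TVH.sub h m1 m2 a1.1.1 a1.1.2
        have a3 : a y0 < y' ∧ y' < b y0 := by
          by_contra hc
          have a2 : y' ∈ TVH.ball N d u (d u v) :=
            (e y').2 ⟨⟨by have := hy'.1; omega, by have := hy'.2; omega⟩, hc⟩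
          have := (TVH.mem_ball.1 a2).2
          omega
        rcases TVH.lam3 h st.1 st.2.1 sy.1 sy.2.1 hy'.1 hy'.2 a3.1 a3.2 with c | c
        · exact absurd c a1.2
        · exact ⟨c, a3, ez t' a1.1.1 a1.1.2 c.1 c.2⟩

end Pool.Agent.Lib.TV
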