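import Pool.Agent.Lib.TV.PA
import Pool.Agent.Lib.TV19.TS

set_option autoImplicit false
set_option linter.unusedVariables false

namespace Pool.Agent.Lib.TV

open Pool.Agent.Lib.MP_3ecc11_lc Pool.Agent.Lib.TV19

theorem exists_links11 (S : Sys) : ∃ Lk : Finset Lnk, ∀ x, x ∈ Lk ↔ S.IsLink x := by
  classical
  refine ⟨(((Finset.Ioo S.L S.R ×ˢ Finset.Ioo S.L S.R) ×ˢ
    (Finset.Ioo S.L S.R ×ˢ Finset.Ioo S.L S.R)).image
      (fun p => (⟨p.1.1, p.1.2, p.2.1, p.2.2⟩ : Lnk))).filter S.IsLink, fun x => ?_⟩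
  rw [Finset.mem_filter]
  refine ⟨fun h => h.2, fun h => ⟨?_, h⟩⟩
  obtain ⟨kt, a1, a2, a3, a4, -⟩ := h.basic
  have p := kt.pl
  refine Finset.mem_image.2 ⟨((x.t, x.lo), (x.m, x.hi)), ?_, rfl⟩
  simp only [Finset.mem_product, Finset.mem_Ioo]
  have k1 := kt.1
  have k2 := kt.2
  omega

theorem Hier.ultra {S : Sys} {d : ℤ → ℤ → ℕ} {z : ℤ → ℤ} (H : Hier S.L S.R S.a S.b d z) :
    S.Ultra d := by
  refine ⟨fun u v hu hv e => (H.d0 u v hu.1 hu.2 hv.1 hv.2).1 e,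
    fun u v hu hv => H.sym u v hu.1 hu.2 hv.1 hv.2,
    fun u v w hu hv hw => H.d1 u v w hu.1 hu.2 hv.1 hv.2 hw.1 hw.2,
    fun u v w hu hv hw => H.d2 u v w hu.1 hu.2 hv.1 hv.2 hw.1 hw.2,
    fun u v w hu => H.d3 u v w hu.1 hu.2, fun u k hu => ?_⟩
  obtain ⟨m, hm, h⟩ := H.d6 u k hu.1 hu.2
  rw [mem_ball] at hm
  exact ⟨m, ⟨hm.1, hm.2.1⟩, hm.2.2, fun v hv e => h v (mem_ball.2 ⟨hv.1, hv.2, e⟩)⟩

theorem dicho {S : Sys} {d : ℤ → ℤ → ℕ} (U : S.Ultra d) {x : Lnk} (h : S.IsLink x) :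
    (S.IsLink x ∧ S.w x = x.m) ∨ S.PLink d x ∨ S.FLink d x := by
  by_cases e : S.w x = x.m
  · exact Or.inl ⟨h, e⟩
  right
  obtain ⟨kw, -, -, -, -, a1, a2⟩ := h.geoW
  obtain ⟨ke, b1, b2, -⟩ := h.geo e
  have kt := h.1
  rcases lt_trichotomy (d x.t (S.w x)) (d (S.w x) (S.e x)) with c | c | c
  · exact Or.inl ⟨h, e, c⟩
  · exfalso
    have s := U.sym _ _ kt kw
    have p : d (S.w x) x.t ≠ 0 := fun g => a2 (U.d0 _ _ kw kt g).symm
    have t2 := U.d2 (S.w x) x.t (S.e x) kw kt ke (by omega) (by omega)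
    have t3 := U.d3 _ _ _ kt a1 b1
    omega
  · exact Or.inr ⟨h, e, c⟩

theorem AFF_holds (hC : St_COST) (hI : St_ITEMS) (hD : St_DEG) (hF : St_FL) (h1 : St_FIRST)
    (hP : St_PT) : St_AFF := by
  obtain ⟨C1, h1⟩ := h1 24000
  obtain ⟨C2, h2⟩ := hP 24000
  refine ⟨C1 + C2 + 3000, fun S sk d z h0 hS H => ?_⟩
  obtain ⟨A, I, hA⟩ := hI S
  obtain ⟨Lk, hL⟩ := exists_links11 S
  have U := H.ultra
  have c := hC S sk Lk.card hS (fun Z hZ => Finset.card_le_card (fun x hx => (hL x).2 (hZ x hx)))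
  obtain ⟨Z1, Z2, c1, p1, p2⟩ := card_le_or Lk _ _ (fun x hx => dicho U ((hL x).1 hx))
  obtain ⟨Z3, Z4, c2, p3, p4⟩ := card_le_or Z2 _ _ (fun x hx => (p2 x hx).2)
  have a1 := hD S Z1 (fun x hx => (p1 x hx).2)
  have a3 := h2 S d z A H I Z3 (fun x hx => (p3 x hx).2)
  have a4 := hF S d A 48 ((C1 * nn S + AA S A) / 24000) ((C2 * nn S + AA S A) / 24000) U I
    (fun Y g1 g2 => by
      have := h1 S d z A h0 H I Y g1 g2
      omega)
    (fun Y g1 => by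
      have := h2 S d z A H I Y g1
      omega) Z4 (fun x hx => (p4 x hx).2)
  have e : (C1 + C2 + 3000) * (nn S + ∑ t ∈ Finset.Ioo S.L S.R, sk t)
      = C1 * nn S + C2 * nn S + 3000 * nn S + 3000 * ∑ t ∈ Finset.Ioo S.L S.R, sk t
        + (C1 + C2) * ∑ t ∈ Finset.Ioo S.L S.R, sk t := by ring
  rw [e]
  generalize (C1 + C2) * ∑ t ∈ Finset.Ioo S.L S.R, sk t = y
  generalize C1 * nn S = y1 at *
  generalize C2 * nn S = y2 at *
  norm_num at a4
  omega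

theorem BT_holds (hE : St_EX) (hH : St_HIER) (hA : St_AFF) : St_BT := by
  obtain ⟨C, hC⟩ := hA
  refine ⟨21 * C + 20, fun T T' S hT hT' h0 hS => ?_⟩
  obtain ⟨f, hf, hm⟩ := exists_rank (inord T) hT
  have hr := run_of (inord T) f hf (preord T) S (fun x hx => (mem_preord x T).1 hx)
    (by rw [h0, hT']) hS
  have hp : ((inord T).map f).Pairwise (· < ·) := by
    rw [List.pairwise_map]
    exact hT.imp_of_mem (fun ha hb h => (hf _ ha _ hb).2 h)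
  rw [← length_preord] at hm
  have f1 : Full 0 ((preord T).length + 1) (relab f T) :=
    full_of _ _ _ (by omega) (by rw [inord_relab]; exact hp) (by rw [inord_relab]; exact hm)
  have f2 : Full 0 ((preord T).length + 1) (relab f (S 0)) :=
    full_of _ _ _ (by omega) (by rw [inord_relab, h0, hT']; exact hp)
      (by rw [inord_relab, h0, hT']; exact hm)
  rw [← preord_relab] at hr
  obtain ⟨Y, sk, e1, e2, hk, c1, c2⟩ := hE _ _ _ _ _ f1 f2 hr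
  have hl := Y.T
  obtain ⟨d, z, H⟩ := hH Y.R Y.a Y.b (e1 ▸ hl)
  have c3 := hC Y sk d z e1 hk (e1 ▸ H)
  have e3 : nn Y = (preord T).length := by
    unfold nn
    rw [e1, e2, Int.card_Ioo]
    omega
  rw [e3] at c3
  have c4 : C * ((preord T).length + ∑ t ∈ Finset.Ioo Y.L Y.R, sk t)
      ≤ C * (21 * (preord T).length) := Nat.mul_le_mul_left _ (by omega)
  nlinarith

end Pool.Agent.Lib.TV
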