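import Pool.Agent.Lib.TV.Blue
import Pool.Agent.Lib.TV63.Bridge

set_option autoImplicit false

/-! From the bound for trees with natural keys to the encoded statement. -/

namespace Pool.Agent.Lib.TV

open Pool.Agent.Lib.MP_3ecc11_lc Pool.Agent.Lib.TV63

theorem BRIDGE_holds (H : St_BT) :
  ∃ c : ℝ, 0 < c ∧
  ∀ (nil : FreeMagma (Option ℕ))
    (node : ℕ → FreeMagma (Option ℕ) → FreeMagma (Option ℕ) → FreeMagma (Option ℕ))
    (inord preord : FreeMagma (Option ℕ) → List ℕ)
    (depth : FreeMagma (Option ℕ) → ℕ → ℕ)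
    (T T' : FreeMagma (Option ℕ)) (S : ℕ → FreeMagma (Option ℕ)),
    nil = FreeMagma.of none →
    (∀ (a : ℕ) (l r : FreeMagma (Option ℕ)),
      node a l r = FreeMagma.mul (FreeMagma.mul l (FreeMagma.of (some a))) r) →
    inord nil = [] →
    (∀ (a : ℕ) (l r : FreeMagma (Option ℕ)), inord (node a l r) = inord l ++ a :: inord r) →
    preord nil = [] →
    (∀ (a : ℕ) (l r : FreeMagma (Option ℕ)), preord (node a l r) = a :: (preord l ++ preord r)) →
    (∀ (a : ℕ) (l r : FreeMagma (Option ℕ)) (x : ℕ),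
      depth (node a l r) x = if x = a then 0 else if x < a then depth l x + 1 else depth r x + 1) →
    (∀ P : FreeMagma (Option ℕ) → Prop, P nil →
      (∀ (a : ℕ) (l r : FreeMagma (Option ℕ)), P l → P r → P (node a l r)) → P T) →
    (∀ P : FreeMagma (Option ℕ) → Prop, P nil →
      (∀ (a : ℕ) (l r : FreeMagma (Option ℕ)), P l → P r → P (node a l r)) → P T') →
    List.Pairwise (fun p q : ℕ => p < q) (inord T) →
    inord T' = inord T →
    S 0 = T' →
    (∀ i : ℕ, i < (preord T).length →
      ∀ x : ℕ, x = (preord T).getD i 0 →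
      ∃ W : FreeMagma (Option ℕ),
        Relation.ReflTransGen
          (fun U V : FreeMagma (Option ℕ) =>
            ∀ R : FreeMagma (Option ℕ) → FreeMagma (Option ℕ) → Prop,
            (∀ (a b : ℕ) (A B C D : FreeMagma (Option ℕ)),
              R (node a (node b (node x A B) C) D) (node x A (node b B (node a C D)))) →
            (∀ (a b : ℕ) (A B C D : FreeMagma (Option ℕ)),
              R (node a A (node b B (node x C D))) (node x (node b (node a A B) C) D)) →
            (∀ (a b : ℕ) (A B C D : FreeMagma (Option ℕ)),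
              R (node a (node b A (node x B C)) D) (node x (node b A B) (node a C D))) →
            (∀ (a b : ℕ) (A B C D : FreeMagma (Option ℕ)),
              R (node a A (node b (node x B C) D)) (node x (node a A B) (node b C D))) →
            (∀ (a : ℕ) (l l' r : FreeMagma (Option ℕ)), R l l' → R (node a l r) (node a l' r)) →
            (∀ (a : ℕ) (l r r' : FreeMagma (Option ℕ)), R r r' → R (node a l r) (node a l r')) →
            R U V)
          (S i) W ∧
        ((∃ A B : FreeMagma (Option ℕ), W = node x A B ∧ S (i + 1) = W) ∨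
         (∃ (a : ℕ) (A B C : FreeMagma (Option ℕ)),
            (W = node a (node x A B) C ∧ S (i + 1) = node x A (node a B C)) ∨
            (W = node a A (node x B C) ∧ S (i + 1) = node x (node a A B) C)))) →
    (∑ i ∈ Finset.range (preord T).length,
        (((depth (S i) ((preord T).getD i 0) : ℕ) : ℝ) + 1))
      ≤ c * ((preord T).length : ℝ) := by
  obtain ⟨C, H⟩ := H
  refine ⟨C + 1, by positivity, ?_⟩
  intro nil node ino pre dp T T' S h1 h2 h3 h4 h5 h6 h7 h8 h9 h10 h11 h12 h13
  obtain rfl : node = nd := by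
    funext a l r
    exact h2 a l r
  subst h1
  have a1 := h8 (fun U => WF U ∧ ino U = inord (dec U) ∧ pre U = preord (dec U))
    ⟨wf_nil, h3, h5⟩ fun a l r p q => ⟨(wf_nd _ _ _).2 ⟨p.1, q.1⟩,
      by rw [h4, dec_nd, inord, p.2.1, q.2.1], by rw [h6, dec_nd, preord, p.2.2, q.2.2]⟩
  have a2 := h9 (fun U => WF U ∧ ino U = inord (dec U)) ⟨wf_nil, h3⟩ fun a l r p q =>
    ⟨(wf_nd _ _ _).2 ⟨p.1, q.1⟩, by rw [h4, dec_nd, inord, p.2, q.2]⟩
  rw [a1.2.1] at h10
  rw [a1.2.1, a2.2] at h11
  rw [a1.2.2] at h13 ⊢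
  have st : ∀ i, i < (preord (dec T)).length →
      Splay ((preord (dec T)).getD i 0) (dec (S i)) (dec (S (i + 1))) ∧
        (WF (S i) → WF (S (i + 1))) := by
    intro i hi
    obtain ⟨W, w1, w2⟩ := h13 i hi _ rfl
    refine splay_of (fun U V q => ?_) w1 ?_
    · refine q (fun U V => Dbl _ (dec U) (dec V) ∧ (WF U → WF V)) ?_ ?_ ?_ ?_ ?_ ?_
      · intro a b A B C D
        simp only [dec_nd, wf_nd]
        exact ⟨Dbl.zigzigL .., by tauto⟩
      · intro a b A B C D
        simp only [dec_nd, wf_nd]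
        exact ⟨Dbl.zigzigR .., by tauto⟩
      · intro a b A B C D
        simp only [dec_nd, wf_nd]
        exact ⟨Dbl.zigzagL .., by tauto⟩
      · intro a b A B C D
        simp only [dec_nd, wf_nd]
        exact ⟨Dbl.zigzagR .., by tauto⟩
      · intro a l l' r p
        simp only [dec_nd, wf_nd]
        exact ⟨Dbl.left _ _ _ _ p.1, fun w => ⟨p.2 w.1, w.2⟩⟩
      · intro a l r r' p
        simp only [dec_nd, wf_nd]
        exact ⟨Dbl.right _ _ _ _ p.1, fun w => ⟨w.1, p.2 w.2⟩⟩
    · rcases w2 with ⟨A, B, rfl, e⟩ | ⟨a, A, B, C, ⟨rfl, e⟩ | ⟨rfl, e⟩⟩ <;> rw [e] <;>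
        simp only [dec_nd, wf_nd]
      · exact ⟨Splay.done .., id⟩
      · exact ⟨Splay.zigL .., by tauto⟩
      · exact ⟨Splay.zigR .., by tauto⟩
  have inv : ∀ i, i ≤ (preord (dec T)).length →
      WF (S i) ∧ inord (dec (S i)) = inord (dec T) := by
    intro i
    induction i with
    | zero => exact fun _ => h12 ▸ ⟨a2.1, h11⟩
    | succ i ih =>
      intro hi
      have p := ih (by omega)
      exact ⟨(st i hi).2 p.1, (st i hi).1.inord_eq.trans p.2⟩
  have gd : ∀ i : Fin (preord (dec T)).length,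
      (preord (dec T)).getD i 0 = (preord (dec T))[i] := fun i => List.getD_eq_getElem _ _ i.2
  have key := H (dec T) (dec T') (fun i => dec (S i)) h10 h11 (by rw [h12])
    fun i => gd i ▸ (st i i.2).1
  rw [Finset.sum_range]
  have e : ∀ i : Fin (preord (dec T)).length, dp (S i) ((preord (dec T)).getD i 0) =
      depth (dec (S i)) (preord (dec T))[i] := by
    intro i
    obtain ⟨b1, b2⟩ := inv i i.2.le
    rw [gd i, ← depth_enc dp h7 _ _ (b2 ▸ h10)
      (b2 ▸ (mem_preord _ _).1 (List.getElem_mem i.2)), b1]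
  simp only [e]
  have key' : ((∑ i : Fin (preord (dec T)).length,
      (depth (dec (S i)) (preord (dec T))[i] + 1) : ℕ) : ℝ)
        ≤ ((C * (preord (dec T)).length : ℕ) : ℝ) := Nat.cast_le.2 key
  push_cast at key'
  have : (0 : ℝ) ≤ (preord (dec T)).length := Nat.cast_nonneg _
  linarith

end Pool.Agent.Lib.TV
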