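import Pool.Agent.Lib.TV.Blue
import Pool.Agent.Lib.TV97.I0

set_option autoImplicit false
set_option linter.unusedVariables false

namespace Pool.Agent.Lib.TV

open Pool.Agent.Lib.MP_3ecc11_lc Pool.Agent.Lib.TV19 Pool.Agent.Lib.TV19.Sys

open Classical in
theorem exists_links (S : Sys) : ∃ X : Finset Lnk, ∀ x, x ∈ X ↔ S.IsLink x := by
  refine ⟨(((Finset.Ioo S.L S.R ×ˢ Finset.Ioo S.L S.R) ×ˢ
    (Finset.Ioo S.L S.R ×ˢ Finset.Ioo S.L S.R)).image
    (fun p => (⟨p.1.1, p.1.2, p.2.1, p.2.2⟩ : Lnk))).filter S.IsLink, fun x => ?_⟩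
  rw [Finset.mem_filter]
  refine ⟨fun h => h.2, fun h => ⟨Finset.mem_image.2 ⟨((x.t, x.lo), (x.m, x.hi)), ?_, rfl⟩, h⟩⟩
  obtain ⟨kt, a1, a2, a3, a4, -⟩ := h.basic
  have p := kt.pl
  simp only [Finset.mem_product, Finset.mem_Ioo]
  omega

theorem COST_holds : St_COST := by
  intro S sk nL hs hL
  obtain ⟨X, hX⟩ := exists_links S
  have h1 := hL X (fun x hx => (hX x).1 hx)
  have h2 := TV97.i0 (S := S) (sk := sk) (fun t u kt ku K =>
    ⟨fun e1 e2 hK => (hs t u kt ku).1 e1 e2 K hK,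
     fun e1 e2 hK => (hs t u kt ku).2 e1 e2 K (fun v hv => by
      obtain ⟨a1, a2, a3⟩ := hK v hv
      exact ⟨a2, a1, a3⟩)⟩) X (fun x hx => (hX x).2 hx)
  have e : affN S = ∑ t ∈ Finset.Ioo S.L S.R,
      (@Finset.filter ℤ (S.Aff t) (fun _ => Classical.propDecidable _) (Finset.Ioo S.L S.R)).card := by
    unfold affN affS
    refine Finset.sum_congr rfl (fun t _ => ?_)
    congr
  unfold nn
  omega

theorem ITEMS_holds : St_ITEMS := by
  intro S
  obtain ⟨A, h1, h2⟩ := TV97.items_sum (S := S)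
  refine ⟨A, h1, ?_⟩
  have e : affN S = ∑ t ∈ Finset.Ioo S.L S.R,
      (@Finset.filter ℤ (S.Aff t) (fun _ => Classical.propDecidable _) (Finset.Ioo S.L S.R)).card := by
    unfold affN affS
    refine Finset.sum_congr rfl (fun t _ => ?_)
    congr
  unfold AA
  omega

theorem DEG_holds : St_DEG := fun S Z h => TV97.deg Z h

end Pool.Agent.Lib.TV
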