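import Pool.Agent.Lib.TV.Blue
import Pool.Agent.Lib.TVH.Ex

set_option autoImplicit false

namespace Pool.Agent.Lib.TV

theorem EX_holds : St_EX := by
  intro n T S S' c hT hS hR
  obtain ⟨G, sk, g1, g2, g3, g4, g5⟩ := TVH.ex n T S S' c hT hS hR
  refine ⟨G, sk, g1, g2, fun t u ht hu => ⟨fun e1 e2 K hK => (g5 t u ht hu K).1 e1 e2 hK,
    fun e1 e2 K hK => (g5 t u ht hu K).2 e1 e2 (fun v hv => ?_)⟩, ?_, by omega⟩
  · have := hK v hv
    exact ⟨this.2.1, this.1, this.2.2⟩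
  · refine le_trans g3 (Nat.add_le_add (le_of_eq ?_) (by omega))
    rfl

end Pool.Agent.Lib.TV
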