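import Pool.Agent.Lib.TV.Blue
import Pool.Agent.Lib.TV61.First

set_option autoImplicit false
set_option linter.unusedVariables false

namespace Pool.Agent.Lib.TV

open Pool.Agent.Lib.MP_3ecc11_lc Pool.Agent.Lib.TV19

theorem Hier.ultra61 {S : Sys} {d : ℤ → ℤ → ℕ} {z : ℤ → ℤ} (H : Hier S.L S.R S.a S.b d z) :
    S.Ultra d := by
  refine ⟨fun u v hu hv e => (H.d0 u v hu.1 hu.2 hv.1 hv.2).1 e,
    fun u v hu hv => H.sym u v hu.1 hu.2 hv.1 hv.2,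
    fun u v w hu hv hw => H.d1 u v w hu.1 hu.2 hv.1 hv.2 hw.1 hw.2,
    fun u v w hu hv hw => H.d2 u v w hu.1 hu.2 hv.1 hv.2 hw.1 hw.2,
    fun u v w hu h1 h2 => H.d3 u v w hu.1 hu.2 h1 h2, fun u n hu => ?_⟩
  obtain ⟨m, m1, m2⟩ := H.d6 u n hu.1 hu.2
  rw [mem_ball] at m1
  exact ⟨m, ⟨m1.1, m1.2.1⟩, m1.2.2, fun v hv hd => m2 v (mem_ball.2 ⟨hv.1, hv.2, hd⟩)⟩

theorem Hier.um61 {N : ℤ} {a b : ℤ → ℤ} {d : ℤ → ℤ → ℕ} {z : ℤ → ℤ} (H : Hier 0 N a b d z) :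
    TVA.UM N d := by
  refine ⟨fun u u1 u2 => (H.d0 u u u1 u2 u1 u2).2 rfl, H.sym, H.d1, H.d2,
    fun u v u1 u2 v1 v2 _ => H.d5 u v u1 u2 v1 v2, fun u k u1 u2 => ?_⟩
  obtain ⟨l1, l2, l3, l4, -, -, -, h⟩ := H.d7 u k u1 u2
  refine ⟨l1, l2, l3, l4, fun v v1 v2 => ?_⟩
  rw [← h v, mem_ball]
  exact ⟨fun e => ⟨v1, v2, e⟩, fun e => e.2.2⟩

theorem FIRST_holds : St_FIRST := by
  intro R
  refine ⟨409600 * (R ^ 2 + R), fun S d z A hL H hA Y hY hS => ?_⟩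
  rcases Y.eq_empty_or_nonempty with e | ⟨x, hx⟩
  · subst e
    simp
  have kt : S.Key x.t := (hY x hx).1.1
  have U := H.ultra61
  have H' : Hier 0 S.R S.a S.b d z := hL ▸ H
  have h := TV61.first_um (80 * R) hL rfl U H'.um61 hA Y hY hS
  have e1 : AA S A = ∑ t ∈ Finset.Ioo 0 S.R, (A t).card := by unfold AA; rw [hL]
  have e2 : S.R.toNat ≤ 2 * nn S := by
    unfold nn
    unfold Sys.Key at kt
    rw [Int.card_Ioo]
    omega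
  rw [← e1] at h
  have h2 : (2560 * (80 * R) ^ 2 + 204800 * (80 * R)) * S.R.toNat ≤
      80 * (409600 * (R ^ 2 + R) * nn S) := by
    calc _ ≤ (2560 * (80 * R) ^ 2 + 204800 * (80 * R)) * (2 * nn S) := Nat.mul_le_mul_left _ e2
      _ = _ := by ring
  have h3 : 80 * R * Y.card = 80 * (R * Y.card) := by ring
  omega

end Pool.Agent.Lib.TV
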