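import Pool.Agent.Lib.TV.Blue
import Pool.Agent.Lib.TV19.FL4
import Pool.Agent.Lib.TV19.Mir

set_option autoImplicit false
set_option linter.unusedVariables false

namespace Pool.Agent.Lib.TV

open Pool.Agent.Lib.MP_3ecc11_lc Pool.Agent.Lib.TV19

theorem FL_holds : St_FL := by
  classical
  intro S d A D nF nP U hA hF hP X hX
  have h1 := Sys.fl_right U hA D nF nP hF hP (X.filter (fun x => x.t < x.m))
    (fun x hx => ⟨hX x (Finset.mem_filter.1 hx).1, (Finset.mem_filter.1 hx).2⟩)
  have h2 := Sys.fl_right U.refl hA.refl D nF nP (fun Y y1 y2 => by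
      rw [← Finset.card_image_of_injective Y Lnk.neg_inj]
      apply hF
      · intro x hx
        obtain ⟨y, hy, rfl⟩ := Finset.mem_image.1 hx
        exact Sys.flink_refl.1 (y1 y hy)
      · intro x hx x' hx' sm
        obtain ⟨y, hy, rfl⟩ := Finset.mem_image.1 hx
        obtain ⟨y', hy', rfl⟩ := Finset.mem_image.1 hx'
        rw [y2 y hy y' hy' ((Sys.same_refl (y1 y hy).2.1 (y1 y' hy').2.1).2 sm)])
    (fun Z z1 => by
      rw [← Finset.card_image_of_injective Z Lnk.neg_inj]
      apply hP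
      intro x hx
      obtain ⟨y, hy, rfl⟩ := Finset.mem_image.1 hx
      exact Sys.plink_refl.1 (z1 y hy))
    ((X.filter (fun x => ¬ x.t < x.m)).image Lnk.neg) (fun x hx => by
      obtain ⟨y, hy, rfl⟩ := Finset.mem_image.1 hx
      obtain ⟨y1, y2⟩ := Finset.mem_filter.1 hy
      refine ⟨Sys.flink_refl.2 (by rw [Lnk.neg_neg]; exact hX y y1), ?_⟩
      have := (hX y y1).1.side
      show -y.t < -y.m
      omega)
  rw [Finset.card_image_of_injective _ Lnk.neg_inj, Sys.card_refl, Sys.sum_refl] at h2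
  have h3 := Finset.card_filter_add_card_filter_not (s := X) (fun x => x.t < x.m)
  unfold AA nn
  rw [← h3]
  nlinarith [Nat.zero_le (D * D * nP), Nat.zero_le (D * D * (Finset.Ioo S.L S.R).card)]

end Pool.Agent.Lib.TV
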