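import Pool.Agent.Lib.TV.Blue
import Pool.Agent.Lib.TV19.Tr

set_option autoImplicit false
set_option linter.unusedVariables false

namespace Pool.Agent.Lib.TV

open Pool.Agent.Lib.MP_3ecc11_lc Pool.Agent.Lib.TV19

theorem anc_rf11 {a b : ℤ → ℤ} {u v : ℤ} : Anc (rf b) (rf a) u v ↔ Anc a b (-u) (-v) := by
  unfold Anc rf
  omega

theorem mem_ball_rf11 {L R : ℤ} {d : ℤ → ℤ → ℕ} {u v : ℤ} {k : ℕ} :
    v ∈ ball (-R) (-L) (fun u v => d (-u) (-v)) u k ↔ -v ∈ ball L R d (-u) k := by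
  rw [mem_ball, mem_ball]
  constructor
  · rintro ⟨h1, h2, h3⟩
    exact ⟨by omega, by omega, h3⟩
  · rintro ⟨h1, h2, h3⟩
    exact ⟨by omega, by omega, h3⟩

theorem card_ball_rf11 {L R : ℤ} {d : ℤ → ℤ → ℕ} {u : ℤ} {k : ℕ} :
    (ball (-R) (-L) (fun u v => d (-u) (-v)) u k).card = (ball L R d (-u) k).card := by
  apply Finset.card_bij (fun v _ => -v)
  · intro v hv
    exact mem_ball_rf11.1 hv
  · intro v _ w _ e
    omega
  · intro v hv
    exact ⟨-v, mem_ball_rf11.2 (by rw [neg_neg]; exact hv), neg_neg v⟩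

theorem HM_holds11 : St_HM := by
  intro L R a b d z T H
  refine ⟨fun u v h1 h2 h3 h4 => ?_, fun u v h1 h2 h3 h4 => ?_, fun u v w h1 h2 h3 h4 h5 h6 => ?_,
    fun u v w h1 h2 h3 h4 h5 h6 => ?_, fun u v w h1 h2 h3 h4 => ?_, fun u k h1 h2 => ?_,
    fun u v h1 h2 h3 h4 => ?_, fun u k h1 h2 => ?_, fun u k h1 h2 => ?_, fun v h1 h2 => ?_,
    fun t w e h1 h2 h3 h4 h5 h6 h7 => ?_, fun t u v h1 h2 h3 h4 h5 h6 h7 => ?_,
    fun u v t y h1 h2 h3 h4 h5 h6 h7 h8 => ?_⟩
  · rw [H.d0 (-u) (-v) (by omega) (by omega) (by omega) (by omega)]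
    omega
  · exact H.sym _ _ (by omega) (by omega) (by omega) (by omega)
  · exact H.d1 _ _ _ (by omega) (by omega) (by omega) (by omega) (by omega) (by omega)
  · exact H.d2 _ _ _ (by omega) (by omega) (by omega) (by omega) (by omega) (by omega)
  · exact H.d3 _ _ _ (by omega) (by omega) (anc_rf11.1 h3) (anc_rf11.1 h4)
  · rw [card_ball_rf11]
    exact H.d4 _ _ (by omega) (by omega)
  · rw [card_ball_rf11]
    exact H.d5 _ _ (by omega) (by omega) (by omega) (by omega)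
  · obtain ⟨m, hm, h⟩ := H.d6 (-u) k (by omega) (by omega)
    refine ⟨-m, mem_ball_rf11.2 (by rw [neg_neg]; exact hm), fun v hv => anc_rf11.2 ?_⟩
    rw [neg_neg]
    exact h _ (mem_ball_rf11.1 hv)
  · obtain ⟨l1, l2, l3, l4, g1, g2, g3, h⟩ := H.d7 (-u) k (by omega) (by omega)
    refine ⟨-l4, -l3, -l2, -l1, by omega, by omega, by omega, fun v => ?_⟩
    rw [mem_ball_rf11, h]
    omega
  · refine anc_rf11.2 ?_
    have := H.z1 (-v) (by omega) (by omega)
    unfold rf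
    rw [neg_neg]
    exact this
  · have a1 := anc_rf11.1 h3
    have a2 := anc_rf11.1 h5
    have kw := anc_key T (by omega) (by omega) a1
    have g := H.z2 (-t) (-w) (-e) (by omega) (by omega) a1 (by omega) a2 (by omega) h7
    have c := H.d3 (-t) (-w) (-e) (by omega) (by omega) a1 a2
    have hb : -w ∈ ball L R d (-t) (d (-t) (-w)) := mem_ball.2 ⟨kw.1, kw.2, le_rfl⟩
    have h7' : d (-t) (-w) < d (-w) (-e) := h7
    obtain ⟨h, k1, k2, k3, k4⟩ := H.hole (-t) (-w) (-w) (-e) (by omega) (by omega) kw.1 kw.2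
      (by omega) hb a2 (by omega)
    have k5 := k4 (-w) (-e) hb a2 (by omega)
    have k6 := k3 (z h) (H.z1 h k1 k2)
    have ne : z (-w) ≠ -w := by
      intro e
      rw [← k5.2.2, e] at k6
      omega
    unfold rf
    omega
  · have g := H.z3 (-t) (-v) (-u) (by omega) (by omega) (anc_rf11.1 h4) (anc_rf11.1 h3) (by omega)
      (by omega) (by omega)
    unfold rf
    exact ⟨fun h => g.2 (by omega), fun h => g.1 (by omega)⟩
  · obtain ⟨h, k1, k2, k3, k4⟩ := H.hole (-u) (-v) (-t) (-y) (by omega) (by omega) (by omega)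
      (by omega) (by omega) (mem_ball_rf11.1 h6) (anc_rf11.1 h7) h8
    refine ⟨-h, by omega, by omega, fun y' hy => k3 _ ?_, fun t' y' g1 g2 g3 => ?_⟩
    · have := anc_rf11.1 hy
      rwa [neg_neg] at this
    · have k5 := k4 (-t') (-y') (mem_ball_rf11.1 g1) (anc_rf11.1 g2) g3
      refine ⟨anc_rf11.2 (by rw [neg_neg]; exact k5.1), anc_rf11.2 (by rw [neg_neg]; exact k5.2.1), ?_⟩
      unfold rf
      rw [neg_neg, k5.2.2]

end Pool.Agent.Lib.TV
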