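import Pool.Agent.Lib.TV.Blue

set_option autoImplicit false
set_option linter.unusedVariables false

namespace Pool.Agent.Lib.TV

open Pool.Agent.Lib.MP_3ecc11_lc Pool.Agent.Lib.TV19

namespace PTm

theorem side_refl {R x : ℤ} {p q p' q' : ℤ → ℤ} {W : Finset ℤ} (S : Side R x p q p' q' W) :
    SideL (-R) (-x) (rf q) (rf p) (rf q') (rf p') (W.image (fun t => -t)) := by
  refine ⟨fun y hy => ?_, fun v v1 v2 h1 h2 => ?_⟩
  · rw [mem_negs] at hy
    obtain ⟨a1, a2, a3, a4, a5, a6, a7, a8, a9⟩ := S.win _ hy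
    rw [mem_negs]
    unfold rf
    simp only [neg_neg]
    refine ⟨by omega, by omega, by omega, by omega, a5, by omega, by omega, by omega, by omega⟩
  · rw [mem_negs] at h1
    have := S.oth (-v) (by omega) (by omega) h1 (fun y hy e => h2 (-y)
      (by rw [mem_negs]; simpa using hy) (by unfold rf; rw [neg_neg]; omega))
    unfold rf
    omega

/-- the mirror image of a system -/
def mir (S : Sys) : Sys where
  L := -S.R
  R := -S.L
  a := rf S.b
  b := rf S.a
  P := fun t => rf (S.Q (-t))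
  Q := fun t => rf (S.P (-t))
  top := fun u v => -S.top (-v) (-u)
  item := fun u v => -S.item (-v) (-u) - 1
  T := S.T.refl
  lam := fun t h1 h2 => (S.lam (-t) (by omega) (by omega)).refl
  trR := fun t u h1 h2 h3 h4 h5 h6 => by
    unfold rf at h5 h6
    obtain ⟨W, hW⟩ := S.trL (-t) (-u) (by omega) (by omega) (by omega) (by omega) (by omega)
      (by omega)
    have := hW.refl
    rw [neg_neg] at this
    exact ⟨_, this⟩
  trL := fun t u h1 h2 h3 h4 h5 h6 => by
    unfold rf at h5 h6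
    obtain ⟨W, hW⟩ := S.trR (-t) (-u) (by omega) (by omega) (by omega) (by omega) (by omega)
      (by omega)
    have := side_refl hW
    rw [neg_neg] at this
    exact ⟨_, this⟩
  tp := fun u v h1 h2 h3 => by
    have := S.tp (-v) (-u) (by omega) (by omega) (by omega)
    unfold rf
    simp only [neg_neg]
    omega
  i1 := fun u v h1 h2 h3 => by
    have := S.i1 (-v) (-u) (by omega) (by omega) (by omega)
    omega
  i2 := fun u v u' v' h1 h2 h3 h4 h5 h6 => by
    have := S.i2 (-v) (-u) (-v') (-u') (by omega) (by omega) (by omega) (by omega) (by omega)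
      (by omega)
    omega

/-- the mirror image of a link -/
def ml (x : Lnk) : Lnk := ⟨-x.t, -x.hi, -x.m, -x.lo⟩

theorem ml_inj : Function.Injective ml := by
  intro x y h
  cases x; cases y
  simp only [ml, Lnk.mk.injEq, neg_inj] at h
  obtain ⟨h1, h2, h3, h4⟩ := h
  subst h1 h2 h3 h4
  rfl

variable {S : Sys}

theorem key_mir {v : ℤ} : (mir S).Key v ↔ S.Key (-v) := by
  unfold Sys.Key
  show -S.R < v ∧ v < -S.L ↔ _
  omega

theorem aff_mir {t c : ℤ} : (mir S).Aff t c ↔ S.Aff (-t) (-c) := by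
  unfold Sys.Aff
  show (t < c ∧ c < -S.a (-t) ∧ -S.Q (-t) (-c) ≤ t) ∨
    (c < t ∧ -S.b (-t) < c ∧ t ≤ -S.P (-t) (-c)) ↔ _
  omega

theorem link_mir {x : Lnk} (h : S.IsLink x) : (mir S).IsLink (ml x) := by
  obtain ⟨h1, h2, u, k1, k2, k3, k4, k5, k6, k7⟩ := h
  refine ⟨?_, ?_, -u, ?_, ?_, ?_, ?_, ?_, ?_, ?_⟩
  · rw [key_mir]; show S.Key (- -x.t); rwa [neg_neg]
  · rw [aff_mir]; show S.Aff (- -x.t) (- -x.m); rwa [neg_neg, neg_neg]
  · rw [key_mir]; rwa [neg_neg]
  · unfold Child at *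
    show (-S.b (- -u) = -x.t ∧ -S.a (- -u) = -S.a (- -x.t)) ∨
      (-S.a (- -u) = -x.t ∧ -S.b (- -u) = -S.b (- -x.t))
    simp only [neg_neg]
    omega
  · unfold Anc at *
    show -S.b (- -u) < -x.m ∧ -x.m < -S.a (- -u)
    simp only [neg_neg]
    omega
  · show -S.Q (- -u) (- -x.m) = -x.hi
    simp only [neg_neg]
    omega
  · show -S.P (- -u) (- -x.m) = -x.lo
    simp only [neg_neg]
    omega
  · show -S.b (- -u) < -x.hi
    simp only [neg_neg]
    omega
  · show -x.lo < -S.a (- -u)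
    simp only [neg_neg]
    omega

theorem w_mir (x : Lnk) : (mir S).w (ml x) = -S.w x := by
  show -S.top (- -x.lo) (- -x.hi) = -S.top x.lo x.hi
  simp only [neg_neg]

theorem e_mir (x : Lnk) (h : x.m < S.w x) : (mir S).e (ml x) = -S.e x := by
  unfold Sys.e
  rw [w_mir, if_pos (by show -S.w x < -x.m; omega), if_neg (by omega)]
  show -S.top (- -x.lo) (- -x.m) = -S.top x.lo x.m
  simp only [neg_neg]

/-- mirrored items -/
def ma (A : ℤ → Finset ℤ) : ℤ → Finset ℤ := fun t => (A (-t)).image (fun g => -g - 1)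

theorem items_mir {A : ℤ → Finset ℤ} (h : S.Items A) : (mir S).Items (ma A) := by
  intro t c ht hc
  rw [key_mir] at ht
  rw [aff_mir] at hc
  obtain ⟨h1, h2⟩ := h (-t) (-c) ht hc
  constructor
  · intro k
    have k' : -S.P (-t) (-c) < -S.a (-t) := k
    refine Finset.mem_image.2 ⟨_, h2 (by omega), ?_⟩
    show _ = -S.item (- -S.P (-t) (-c)) (-c) - 1
    rw [neg_neg]
  · intro k
    have k' : -S.b (-t) < -S.Q (-t) (-c) := k
    refine Finset.mem_image.2 ⟨_, h1 (by omega), ?_⟩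
    show _ = -S.item (-c) (- -S.Q (-t) (-c)) - 1
    rw [neg_neg]

theorem nn_mir : nn (mir S) = nn S := by
  unfold nn
  show (Finset.Ioo (-S.R) (-S.L)).card = _
  rw [Int.card_Ioo, Int.card_Ioo]
  congr 1
  omega

theorem AA_mir (A : ℤ → Finset ℤ) : AA (mir S) (ma A) ≤ AA S A := by
  unfold AA
  show ∑ t ∈ Finset.Ioo (-S.R) (-S.L), (ma A t).card ≤ _
  rw [sum_neg_Ioo]
  refine Finset.sum_le_sum (fun t _ => ?_)
  unfold ma
  rw [neg_neg]
  exact Finset.card_image_le

theorem plink_mir {d : ℤ → ℤ → ℕ} {x : Lnk} (h : S.PLink d x) (k : x.m < S.w x) :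
    (mir S).PLink (fun u v => d (-u) (-v)) (ml x) ∧ (mir S).w (ml x) < (ml x).m := by
  obtain ⟨h1, h2, h3⟩ := h
  refine ⟨⟨link_mir h1, ?_, ?_⟩, ?_⟩
  · rw [w_mir]; show -S.w x ≠ -x.m; omega
  · rw [w_mir, e_mir x k]
    show d (- -x.t) (- -S.w x) < d (- -S.w x) (- -S.e x)
    simpa only [neg_neg] using h3
  · rw [w_mir]; show -S.w x < -x.m; omega

end PTm

open PTm in
theorem PT_holds (hHM : St_HM) (hPL : St_PL) : St_PT := by
  classical
  intro R
  obtain ⟨C, hC⟩ := hPL (2 * R)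
  refine ⟨C, fun S d z A H hA Z hZ => ?_⟩
  have h1 := hC S d z A H hA (Z.filter (fun x => S.w x < x.m)) (fun x hx =>
    ⟨hZ x (Finset.mem_filter.1 hx).1, (Finset.mem_filter.1 hx).2⟩)
  have h2 := hC (mir S) (fun u v => d (-u) (-v)) (rf z) (ma A) (hHM _ _ _ _ d z S.T H)
    (items_mir hA) ((Z.filter (fun x => ¬ S.w x < x.m)).image ml) (fun y hy => by
      obtain ⟨x, hx, rfl⟩ := Finset.mem_image.1 hy
      obtain ⟨x1, x2⟩ := Finset.mem_filter.1 hx
      have p := hZ x x1
      exact plink_mir p (by have := p.2.1; omega))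
  rw [Finset.card_image_of_injective _ ml_inj, nn_mir] at h2
  have h3 := AA_mir (S := S) A
  have h4 := Finset.card_filter_add_card_filter_not (s := Z) (fun x => S.w x < x.m)
  rw [← h4]
  nlinarith

end Pool.Agent.Lib.TV
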