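import Pool.Agent.Lib.TV.AFF
import Pool.Agent.Lib.TV.BRIDGE
import Pool.Agent.Lib.TV.COST
import Pool.Agent.Lib.TV.EX
import Pool.Agent.Lib.TV.FIRST
import Pool.Agent.Lib.TV.FL
import Pool.Agent.Lib.TV.HIER
import Pool.Agent.Lib.TV.HM11
import Pool.Agent.Lib.TV.PT
import Pool.Agent.Lib.TVP.Link

set_option autoImplicit false

namespace Pool.Agent.Lib.TV

/-- the traversal bound for trees with natural keys -/
theorem BT_final : St_BT :=
  BT_holds EX_holds HIER_holds (AFF_holds COST_holds ITEMS_holds DEG_holds FL_holds FIRST_holds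
    (PT_holds HM_holds11 Pool.Agent.Lib.TVP.pl_holds))

end Pool.Agent.Lib.TV
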