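import Pool.Agent.Lib.TV.Blue

set_option autoImplicit false
set_option linter.unusedVariables false

namespace Pool.Agent.Lib.TV

open Pool.Agent.Lib.MP_3ecc11_lc Pool.Agent.Lib.TV19

theorem hm_anc {a b : ℤ → ℤ} {t v : ℤ} : Anc (rf b) (rf a) t v ↔ Anc a b (-t) (-v) := by
  unfold Anc rf
  omega

theorem hm_ball {L R : ℤ} {d : ℤ → ℤ → ℕ} {u v : ℤ} {k : ℕ} :
    v ∈ ball (-R) (-L) (fun u v => d (-u) (-v)) u k ↔ -v ∈ ball L R d (-u) k := by
  rw [mem_ball, mem_ball]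
  omega

theorem hm_card {L R : ℤ} {d : ℤ → ℤ → ℕ} {u : ℤ} {k : ℕ} :
    (ball (-R) (-L) (fun u v => d (-u) (-v)) u k).card = (ball L R d (-u) k).card := by
  have e : ball (-R) (-L) (fun u v => d (-u) (-v)) u k =
      (ball L R d (-u) k).image (fun t => -t) := by
    ext v
    rw [hm_ball, mem_negs]
  rw [e, Finset.card_image_of_injective _ neg_injective]

theorem hm_key {L R : ℤ} {a b : ℤ → ℤ} (hL : Lam L R a b) {t v : ℤ} (t1 : L < t) (t2 : t < R)
    (h : Anc a b t v) : L < v ∧ v < R := by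
  have := hL.pl t t1 t2
  unfold Anc at h
  omega

theorem hm_zne {L R : ℤ} {a b : ℤ → ℤ} {d : ℤ → ℤ → ℕ} {z : ℤ → ℤ} (hL : Lam L R a b)
    (H : Hier L R a b d z) {t w e : ℤ} (t1 : L < t) (t2 : t < R) (h1 : Anc a b t w) (h2 : w ≠ t)
    (h3 : Anc a b w e) (h5 : d t w < d w e) : z w ≠ w := by
  obtain ⟨w1, w2⟩ := hm_key hL t1 t2 h1
  obtain ⟨e1, e2⟩ := hm_key hL w1 w2 h3
  have s := H.sym t w t1 t2 w1 w2
  have u := H.d1 w t e w1 w2 t1 t2 e1 e2
  have hlt : d t w < d t e := by omega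
  have hw : w ∈ ball L R d t (d t w) := mem_ball.2 ⟨w1, w2, le_rfl⟩
  obtain ⟨h, g1, g2, g3, g4⟩ := H.hole t w w e t1 t2 w1 w2 (Ne.symm h2) hw h3 hlt
  have g5 := (g4 w e hw h3 hlt).2.2
  have g6 := g3 (z h) (H.z1 h g1 g2)
  intro c
  rw [← g5, c] at g6
  omega

theorem HM_holds : St_HM := by
  intro L R a b d z hL H
  refine ⟨fun u v u1 u2 v1 v2 => ?_, fun u v u1 u2 v1 v2 => ?_,
    fun u v w u1 u2 v1 v2 w1 w2 => ?_, fun u v w u1 u2 v1 v2 w1 w2 => ?_,
    fun u v w u1 u2 h1 h2 => ?_, fun u k u1 u2 => ?_, fun u v u1 u2 v1 v2 => ?_,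
    fun u k u1 u2 => ?_, fun u k u1 u2 => ?_, fun v v1 v2 => ?_,
    fun t w e t1 t2 h1 h2 h3 h4 h5 => ?_, fun t u v t1 t2 h1 h2 h3 h4 h5 => ?_,
    fun u v t y u1 u2 v1 v2 h1 h2 h3 h4 => ?_⟩
  · have := H.d0 (-u) (-v) (by omega) (by omega) (by omega) (by omega)
    exact this.trans neg_inj
  · exact H.sym (-u) (-v) (by omega) (by omega) (by omega) (by omega)
  · exact H.d1 (-u) (-v) (-w) (by omega) (by omega) (by omega) (by omega) (by omega) (by omega)
  · exact H.d2 (-u) (-v) (-w) (by omega) (by omega) (by omega) (by omega) (by omega) (by omega)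
  · exact H.d3 (-u) (-v) (-w) (by omega) (by omega) (hm_anc.1 h1) (hm_anc.1 h2)
  · rw [hm_card]
    exact H.d4 (-u) k (by omega) (by omega)
  · rw [hm_card]
    exact H.d5 (-u) (-v) (by omega) (by omega) (by omega) (by omega)
  · obtain ⟨m, m1, m2⟩ := H.d6 (-u) k (by omega) (by omega)
    refine ⟨-m, ?_, fun v hv => ?_⟩
    · rw [hm_ball, neg_neg]; exact m1
    · rw [hm_anc, neg_neg]; exact m2 _ (hm_ball.1 hv)
  · obtain ⟨l1, l2, l3, l4, a1, a2, a3, a4⟩ := H.d7 (-u) k (by omega) (by omega)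
    refine ⟨-l4, -l3, -l2, -l1, by omega, by omega, by omega, fun v => ?_⟩
    rw [hm_ball, a4]
    omega
  · rw [hm_anc]
    have e : -rf z v = z (-v) := by unfold rf; omega
    rw [e]
    exact H.z1 (-v) (by omega) (by omega)
  · rw [hm_anc] at h1 h3
    have q := H.z2 (-t) (-w) (-e) (by omega) (by omega) h1 (by omega) h3 (by omega) h5
    have n := hm_zne hL H (t := -t) (by omega) (by omega) h1 (by omega) h3 h5
    unfold rf
    omega
  · rw [hm_anc] at h1 h2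
    have q := H.z3 (-t) (-v) (-u) (by omega) (by omega) h2 h1 (by omega) (by omega) (by omega)
    unfold rf
    exact ⟨fun c => q.2 (by omega), fun c => q.1 (by omega)⟩
  · rw [hm_anc] at h3
    rw [hm_ball] at h2
    obtain ⟨h, g1, g2, g3, g4⟩ := H.hole (-u) (-v) (-t) (-y) (by omega) (by omega) (by omega)
      (by omega) (by omega) h2 h3 h4
    refine ⟨-h, by omega, by omega, fun y' hy => ?_, fun t' y' k1 k2 k3 => ?_⟩
    · rw [hm_anc, neg_neg] at hy
      exact g3 _ hy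
    · rw [hm_anc] at k2
      rw [hm_ball] at k1
      obtain ⟨r1, r2, r3⟩ := g4 _ _ k1 k2 k3
      refine ⟨?_, ?_, ?_⟩
      · rw [hm_anc, neg_neg]; exact r1
      · rw [hm_anc, neg_neg]; exact r2
      · unfold rf
        rw [neg_neg, r3]

end Pool.Agent.Lib.TV
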