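import Pool.Agent.Lib.TV.Fin

set_option autoImplicit false

namespace Pool.Agent.Lib.TV

open Pool.Agent.Lib.MP_3ecc11_lc Pool.Agent.Lib.TV19

theorem AFF_final : St_AFF :=
  AFF_holds COST_holds ITEMS_holds DEG_holds FL_holds FIRST_holds
    (PT_holds HM_holds11 Pool.Agent.Lib.TVP.pl_holds)

theorem run_final : ∃ C : ℕ, Pool.Agent.Lib.TV63.RunLin C := by
  obtain ⟨C, hC⟩ := AFF_final
  refine ⟨21 * C + 20, fun n T S S' c f1 f2 _ hr => ?_⟩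
  obtain ⟨Y, sk, e1, e2, hk, c1, c2⟩ := EX_holds _ _ _ _ _ f1 f2 hr
  have hl := Y.T
  obtain ⟨d, z, H⟩ := HIER_holds Y.R Y.a Y.b (e1 ▸ hl)
  have c3 := hC Y sk d z e1 hk (e1 ▸ H)
  have e3 : nn Y = n := by
    unfold nn
    rw [e1, e2, Int.card_Ioo]
    omega
  rw [e3] at c3
  have c4 : C * (n + ∑ t ∈ Finset.Ioo Y.L Y.R, sk t) ≤ C * (21 * n) :=
    Nat.mul_le_mul_left _ (by omega)
  nlinarith

end Pool.Agent.Lib.TV
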