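import Pool.Agent.Lib.TV.Blue

set_option autoImplicit false
set_option linter.unusedVariables false

namespace Pool.Agent.Lib.TV

open Pool.Agent.Lib.MP_3ecc11_lc Pool.Agent.Lib.TV19

theorem card_le_or {ι : Type} (Z : Finset ι) (p q : ι → Prop) (h : ∀ x ∈ Z, p x ∨ q x) :
    ∃ Z1 Z2 : Finset ι, Z.card ≤ Z1.card + Z2.card ∧ (∀ x ∈ Z1, x ∈ Z ∧ p x) ∧
      (∀ x ∈ Z2, x ∈ Z ∧ q x) := by
  classical
  refine ⟨Z.filter p, Z.filter (fun x => ¬ p x), ?_, fun x hx => Finset.mem_filter.1 hx,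
    fun x hx => ?_⟩
  · rw [Finset.card_filter_add_card_filter_not]
  · obtain ⟨h1, h2⟩ := Finset.mem_filter.1 hx
    exact ⟨h1, (h x h1).resolve_left h2⟩

theorem NN_le (h2 : St_PC2) (h3 : St_PC3) (h4 : St_PC4) {ι : Type} (M : PS ι) (H : M.OK) (r : ℕ) :
    r * M.NN r ≤ 800 * r * M.n + 160 * M.AA := by
  classical
  set Z := M.X.filter (fun x => M.Rise x ∧ ¬ M.Nice r x) with hZ
  have e : M.NN r = ∑ x ∈ Z, 2 ^ (M.k x / 40 + 1) := by
    unfold PS.NN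
    congr
  have s1 := Finset.sum_filter_add_sum_filter_not Z (fun x => (M.LR x).Nonempty)
    (fun x => 2 ^ (M.k x / 40 + 1))
  have s2 := Finset.sum_filter_add_sum_filter_not (Z.filter (fun x => (M.LR x).Nonempty))
    (fun x => M.T12 r x) (fun x => 2 ^ (M.k x / 40 + 1))
  have a1 := (h4 ι M H).1 (Z.filter (fun x => ¬ (M.LR x).Nonempty)) (fun x hx => by
    obtain ⟨g1, g2⟩ := Finset.mem_filter.1 hx
    exact ⟨(Finset.mem_filter.1 g1).2.1, g2⟩)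
  have a2 := h2 ι M H r ((Z.filter (fun x => (M.LR x).Nonempty)).filter (fun x => ¬ M.T12 r x))
    (fun x hx => by
      obtain ⟨g1, g2⟩ := Finset.mem_filter.1 hx
      obtain ⟨g3, g4⟩ := Finset.mem_filter.1 g1
      exact ⟨(Finset.mem_filter.1 g3).2.1, g4, g2⟩)
  have a3 := h3 ι M H ((Z.filter (fun x => (M.LR x).Nonempty)).filter (fun x => M.T12 r x))
    (fun x hx => by
      obtain ⟨g1, g2⟩ := Finset.mem_filter.1 hx
      obtain ⟨g3, g4⟩ := Finset.mem_filter.1 g1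
      obtain ⟨g5, g6⟩ := (Finset.mem_filter.1 g3).2
      refine ⟨g5, g4, ?_⟩
      by_contra hc
      exact g6 ⟨g5, g4, by omega, g2⟩)
  rw [e, ← s1, ← s2]
  have b1 := Nat.mul_le_mul_left r a1
  have b3 := Nat.mul_le_mul_left r a3
  nlinarith

theorem PA_holds (h1 : St_PC1) (h2 : St_PC2) (h3 : St_PC3) (h4 : St_PC4) (hA : St_PCA)
    (hB : St_PCB) (hC : St_PCC) (hD : St_PCD) (g3 : St_PG3) (g4 : St_PG4) (hR : St_PRI)
    (h7 : St_PC7) : St_PA := by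
  intro R
  set D0 := 3 * R with hD0
  set D1 := 3 * R * D0 with hD1
  set r := 160 * (3 * R * D0 * (D1 + 2)) with hr
  refine ⟨R + R * D0 * (321 + 512000 * D1 + 512320 * (r + 2)) + 5 * r, fun ι M H => ?_⟩
  obtain ⟨Z1, Z2, c1, p1, p2⟩ := card_le_or M.X M.Last (fun x => ¬ M.Last x)
    (fun x _ => em _)
  obtain ⟨Z3, Z4, c2, p3, p4⟩ := card_le_or Z2 (fun x => D0 ≤ (M.Rn x).card)
    (fun x => (M.Rn x).card < D0) (fun x _ => le_or_gt _ _)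
  have a1 := (h4 ι M H).2.2 Z1 p1
  have a3 := h1 ι M H D0 Z3 (fun x hx => ⟨(p2 x (p3 x hx).1).1, (p2 x (p3 x hx).1).2, (p3 x hx).2⟩)
  obtain ⟨Y, c3, pY⟩ := h7 ι M H D0 Z4 (fun x hx => ⟨(p2 x (p4 x hx).1).1, (p4 x hx).2⟩)
  obtain ⟨Y1, Y2, c4, q1, q2⟩ := card_le_or Y (M.Good r) (fun x => ¬ M.Good r x) (fun x _ => em _)
  obtain ⟨U, c5, pU⟩ := hR ι M H r D1 Y2 (fun x hx => ⟨pY x (q2 x hx).1, (q2 x hx).2⟩)
  obtain ⟨U1, U2, c6, u1, u2⟩ := card_le_or U _ _ pU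
  obtain ⟨U3, U4, c7, u3, u4⟩ := card_le_or U2 _ _ (fun x hx => (u2 x hx).2)
  obtain ⟨U5, U6, c8, u5, u6⟩ := card_le_or U4 _ _ (fun x hx => (u4 x hx).2)
  obtain ⟨V1, V2, c9, v1, v2⟩ := card_le_or Y1 _ _ (fun x hx => hD ι M H r x (q1 x hx).2)
  obtain ⟨V3, V4, c10, v3, v4⟩ := card_le_or V2 _ _ (fun x hx => (v2 x hx).2)
  have b1 := (h4 ι M H).2.1 U1 (fun x hx => (u1 x hx).2)
  have b3 := h1 ι M H D1 U3 (fun x hx => (u3 x hx).2)
  have b5 := g3 ι M H D1 U5 (fun x hx => (u5 x hx).2)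
  have b6 := g4 ι M H r D1 U6 (fun x hx => (u6 x hx).2)
  have d1 := hA ι M H r V1 (fun x hx => (v1 x hx).2)
  have d3 := hB ι M H r V3 (fun x hx => (v3 x hx).2)
  have d4 := hC ι M H r V4 (fun x hx => (v4 x hx).2)
  have nn := NN_le h2 h3 h4 M H r
  have e1 : Y.card ≤ (321 + 512000 * D1 + 512320 * (r + 2)) * M.n + U3.card
      + (D1 + 2) * M.NN r := by nlinarith
  have e2 : 3 * R * D0 * (D1 + 2) * M.NN r ≤ 5 * r * M.n + M.AA := by
    have : r * M.NN r = 160 * (3 * R * D0 * (D1 + 2) * M.NN r) := by rw [hr]; ring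
    nlinarith
  have e3 : 3 * R * (D0 * Y.card) ≤ 3 * R * D0 * ((321 + 512000 * D1 + 512320 * (r + 2)) * M.n
      + U3.card + (D1 + 2) * M.NN r) := by
    rw [← mul_assoc]
    exact Nat.mul_le_mul_left _ e1
  have e4 : M.X.card ≤ M.n + Z3.card + D0 * Y.card := by omega
  have e5 := Nat.mul_le_mul_left (3 * R) e4
  have e6 : 3 * R * D0 * U3.card ≤ M.AA := b3
  have e7 : 3 * R * Z3.card ≤ M.AA := a3
  generalize (321 + 512000 * D1 + 512320 * (r + 2)) = K at *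
  nlinarith [Nat.zero_le (r * M.n)]

theorem PL_holds (hA : St_PA) (h1 : St_PO1) (h2 : St_PO2) (h3 : St_PO3) (hF : St_PF) : St_PL := by
  intro R
  obtain ⟨C, hC⟩ := hA R
  refine ⟨C + R, fun S d z A H I Z hZ => ?_⟩
  obtain ⟨Z1, Z2, c1, p1, p2⟩ := card_le_or Z (fun x => S.e x ≤ z x.t) (fun x => z x.t < S.e x)
    (fun x _ => le_or_gt _ _)
  have q1 : ∀ x ∈ Z1, PR S d z x := fun x hx =>
    ⟨(hZ x (p1 x hx).1).1, (hZ x (p1 x hx).1).2, (p1 x hx).2⟩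
  have a1 : R * Z1.card ≤ C * nn S + AA S A :=
    hC Lnk (mkPS S d A Z1) ⟨h1 S d z A Z1 H q1, h2 S d z A Z1 H q1, h3 S d z A Z1 H I q1⟩
  have a2 := hF S d z H Z2 (fun x hx => ⟨(hZ x (p2 x hx).1).1, (hZ x (p2 x hx).1).2, (p2 x hx).2⟩)
  have a3 := Nat.mul_le_mul_left R a2
  have a4 := Nat.mul_le_mul_left R c1
  nlinarith

end Pool.Agent.Lib.TV
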