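import Pool.Agent.Lib.TV.Blue

set_option autoImplicit false
set_option linter.unusedVariables false

namespace Pool.Agent.Lib.TV

open Pool.Agent.Lib.MP_3ecc11_lc Pool.Agent.Lib.TV19

theorem PF_holds (hLF : St_LF) : St_PF := by
  intro S d z H Z hZ
  have F := hLF S
  have key : ∀ x ∈ Z, S.IsLink x ∧ S.Key x.t ∧ x.lo < z x.t ∧ z x.t < x.hi := by
    intro x hx
    obtain ⟨⟨hl, hne, hd⟩, hw, hz⟩ := hZ x hx
    obtain ⟨k1, a1, a2, a3, a4, a5, -⟩ := F.l1 x hl
    obtain ⟨b1, b2, b3, b4⟩ := F.l3 x hl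
    obtain ⟨c1, c2, -⟩ := F.l4 x hl hw
    have h2 := H.z2 x.t (S.w x) (S.e x) k1.1 k1.2 ⟨by omega, by omega⟩ (by omega)
      ⟨by omega, by omega⟩ (by omega) hd
    have h3 : S.w x < z (S.w x) := h2.2.1 (by omega)
    have h4 := h2.1
    exact ⟨hl, k1, by omega, by omega⟩
  unfold nn
  refine Finset.card_le_card_of_injOn (fun x => x.t) ?_ ?_
  · intro x hx
    have := (key x hx).2.1
    exact Finset.mem_coe.2 (Finset.mem_Ioo.2 this)
  · intro x hx y hy hxy
    obtain ⟨l1, -, p1, p2⟩ := key x hx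
    obtain ⟨l2, -, q1, q2⟩ := key y hy
    have e : x.t = y.t := hxy
    rw [← e] at q1 q2
    rcases F.l2 x y l1 l2 e with h | h | h
    · exact h
    · omega
    · omega

end Pool.Agent.Lib.TV
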