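import Pool.Agent.Lib.TV.Blue
import Pool.Agent.Lib.TV19.Sec0

set_option autoImplicit false
set_option linter.unusedVariables false

namespace Pool.Agent.Lib.TV

open Pool.Agent.Lib.MP_3ecc11_lc Pool.Agent.Lib.TV19

namespace PO2b

variable {S : Sys} {d : ℤ → ℤ → ℕ} {z : ℤ → ℤ}

/-- basic geometry of a rising left P-link -/
structure Bs (S : Sys) (d : ℤ → ℤ → ℕ) (z : ℤ → ℤ) (x : Lnk) : Prop where
  kt : S.Key x.t
  kw : S.Key (S.w x)
  ke : S.Key (S.e x)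
  tw : Anc S.a S.b x.t (S.w x)
  te : Anc S.a S.b x.t (S.e x)
  we : Anc S.a S.b (S.w x) (S.e x)
  nw : S.w x ≠ x.t
  ne : S.e x ≠ x.t
  o1 : x.lo ≤ S.w x
  o2 : S.w x < x.m
  o3 : x.m ≤ S.e x
  o4 : S.e x ≤ x.hi
  o5 : S.e x ≤ z x.t
  o6 : x.m ≤ S.g x
  o7 : S.g x < x.hi
  lt : d x.t (S.w x) < d x.t (S.e x)

theorem bs (F : LF S) (H : Hier S.L S.R S.a S.b d z) {x : Lnk} (h : PR S d z x) : Bs S d z x := by
  obtain ⟨⟨h1, h2, h3⟩, h4, h5⟩ := h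
  obtain ⟨a1, a2, a3, a4, a5, a6, -⟩ := F.l1 x h1
  obtain ⟨b1, b2, b3, b4⟩ := F.l3 x h1
  obtain ⟨c1, c2, c3, c4, -⟩ := F.l4 x h1 h4
  have tw : Anc S.a S.b x.t (S.w x) := ⟨by omega, by omega⟩
  have te : Anc S.a S.b x.t (S.e x) := ⟨by omega, by omega⟩
  have we : Anc S.a S.b (S.w x) (S.e x) := ⟨by omega, by omega⟩
  have := H.d3 _ _ _ a1.1 a1.2 tw we
  exact ⟨a1, a1.of_anc tw, a1.of_anc te, tw, te, we, by omega, by omega, b1, h4, c1, c2, h5, c3, c4,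
    by omega⟩

theorem far (H : Hier S.L S.R S.a S.b d z) {u v w : ℤ} (hu : S.Key u) (hv : S.Key v)
    (hw : S.Key w) (h : d u v < d v w) : d u w = d v w := by
  have h1 := H.d1 u v w hu.1 hu.2 hv.1 hv.2 hw.1 hw.2
  have h2 := H.d1 v u w hv.1 hv.2 hu.1 hu.2 hw.1 hw.2
  have h3 := H.sym u v hu.1 hu.2 hv.1 hv.2
  omega

theorem hole (H : Hier S.L S.R S.a S.b d z) {x : Lnk} (B : Bs S d z x) :
    ∃ h, S.Key h ∧ d x.t (S.w x) < d x.t h ∧ ∀ t y, S.Key t → d x.t t ≤ d x.t (S.w x) →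
      Anc S.a S.b t y → d x.t (S.w x) < d x.t y →
      Anc S.a S.b t h ∧ Anc S.a S.b h y ∧ z t = z h := by
  have h0 := (H.d0 _ _ B.kt.1 B.kt.2 B.kt.1 B.kt.2).2 rfl
  obtain ⟨h, h1, h2, h3, h4⟩ := H.hole x.t (S.w x) x.t (S.e x) B.kt.1 B.kt.2 B.kw.1 B.kw.2 B.nw.symm
    (mem_ball.2 ⟨B.kt.1, B.kt.2, by omega⟩) B.te B.lt
  exact ⟨h, ⟨h1, h2⟩, h3 h (Sys.Key.refl ⟨h1, h2⟩), fun t y a1 a2 a3 a4 =>
    h4 t y (mem_ball.2 ⟨a1.1, a1.2, a2⟩) a3 a4⟩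

theorem cmp (H : Hier S.L S.R S.a S.b d z) {x : Lnk} (B : Bs S d z x) {t y : ℤ} (ht : S.Key t)
    (h1 : d x.t t ≤ d x.t (S.w x)) (h2 : Anc S.a S.b t y) (h3 : d x.t (S.w x) < d t y) :
    Anc S.a S.b x.t t ∨ Anc S.a S.b t x.t := by
  obtain ⟨h, -, -, hh⟩ := hole H B
  have h0 := (H.d0 _ _ B.kt.1 B.kt.2 B.kt.1 B.kt.2).2 rfl
  have e := far H B.kt ht (ht.of_anc h2) (by omega)
  exact B.kt.total ht (hh _ _ B.kt (by omega) B.te B.lt).1 (hh _ _ ht h1 h2 (by omega)).1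

theorem same (F : LF S) (H : Hier S.L S.R S.a S.b d z) {x y : Lnk} (hx : PR S d z x)
    (hy : PR S d z y) (e : x.t = y.t) : x = y ∨ d x.t (S.e x) ≤ d y.t (S.w y) ∨
      d y.t (S.e y) ≤ d x.t (S.w x) := by
  have B := bs F H hx
  have C := bs F H hy
  have := B.o1; have := B.o2; have := B.o3; have := B.o4; have := B.o5
  have := C.o1; have := C.o2; have := C.o3; have := C.o4; have := C.o5
  rcases F.l2 x y hx.1.1 hy.1.1 e with h | h | h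
  · exact .inl h
  · refine .inr (.inl ?_)
    rw [e]
    exact (H.z3 _ _ _ C.kt.1 C.kt.2 (e ▸ B.te) C.tw (by omega) (e ▸ B.ne) C.nw).1 (by omega)
  · refine .inr (.inr ?_)
    rw [← e]
    exact (H.z3 _ _ _ B.kt.1 B.kt.2 (e ▸ C.te) B.tw (by omega) (e ▸ C.ne) B.nw).1 (by omega)

end PO2b

open PO2b in
theorem PO2_holds (hL : St_LF) (hW : St_WG) : St_PO2 := by
  intro S d z A Z H hZ
  have F := hL S
  have W : ∀ x y, (mkPS S d A Z).Lt x y → d x.t y.t < d x.t (S.w x) ∧ z x.t = z y.t ∧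
      Anc S.a S.b y.t (S.w x) ∧ y.t ≠ S.w x ∧ (y.t < S.w x ↔ y.t < S.w y) ∧ x.hi ≤ y.m ∧
      d x.t (S.e y) = d y.t (S.e y) := fun x y h =>
    hW S d z H x y (hZ x h.1) (hZ y h.2.1) h.2.2.1 h.2.2.2.1 h.2.2.2.2.1 h.2.2.2.2.2
  refine ⟨fun x hx => (bs F H (hZ x hx)).lt,
    fun x hx y hy e => same F H (hZ x hx) (hZ y hy) e, fun x hx y hy e1 e2 => ?_,
    fun x y h => ?_, fun x y x' y' h h' e1 e2 => ?_, fun x y h hh hxy h1 h2 h3 => ?_,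
    fun h hh y hy h1 h2 => ?_⟩
  · have B := bs F H (hZ x hx)
    have C := bs F H (hZ y hy)
    have b1 := B.lt
    have c1 := C.lt
    change d x.t (S.w x) = d y.t (S.w y) at e1
    by_cases e : x.t = y.t
    · rcases same F H (hZ x hx) (hZ y hy) e with h | h | h
      · exact .inl h
      · omega
      · omega
    · rcases cmp H B C.kt e2 C.te (by omega) with h | h
      · exact .inr (.inl ⟨h, e⟩)
      · exact .inr (.inr ⟨h, Ne.symm e⟩)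
  · have B := bs F H (hZ x h.1)
    have C := bs F H (hZ y h.2.1)
    obtain ⟨-, w2, -, -, -, w6, w7⟩ := W x y h
    obtain ⟨g1, g2⟩ : Anc S.a S.b x.t y.t ∧ x.t ≠ y.t := h.2.2.2.2
    have := B.o4; have := B.o7; have := C.o3; have := C.o5; have := C.o6
    refine ⟨?_, show S.g x ≠ S.g y by omega⟩
    change d x.t (S.e x) ≤ d y.t (S.e y)
    rw [← w7]
    exact (H.z3 _ _ _ B.kt.1 B.kt.2 B.te (B.kt.trans g1 C.te) (by omega) B.ne
      (fun e => g2 (B.kt.antisymm g1 (e ▸ C.te)))).1 (by omega)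
  · have p := hZ y h.2.1
    have p' := hZ y' h'.2.1
    have e3 : S.e y = S.e y' := by
      rw [(F.l6 y p.1.1 p.1.2.1).2, (F.l6 y' p'.1.1 p'.1.2.1).2, show S.g y = S.g y' from e2]
    change d y.t (S.e y) = d y'.t (S.e y')
    rw [← (W x y h).2.2.2.2.2.2, ← (W x' y' h').2.2.2.2.2.2, e3, show x.t = x'.t from e1]
  · have B := bs F H (hZ x hxy.1)
    have C := bs F H (hZ h hh)
    obtain ⟨w1, -, w3, w4, -⟩ := W x y hxy
    obtain ⟨g1, g2⟩ : Anc S.a S.b x.t h.t ∧ x.t ≠ h.t := h1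
    change Anc S.a S.b h.t y.t at h2
    change d x.t (S.w x) < d h.t (S.w h) at h3
    change d x.t (S.e x) ≤ d h.t (S.w h)
    have g3 := C.kt.trans h2 w3
    have g4 : h.t ≠ S.w x := fun e => w4 ((C.kt.of_anc h2).antisymm w3 (e ▸ h2))
    have g5 := (F.l7 x h.t (hZ x hxy.1).1.1 g1 g2.symm g3).2.2 g4
    have g6 := (H.d3 _ _ _ B.kt.1 B.kt.2 g1 h2).1
    have g7 := far H B.kt C.kt C.kw (by omega)
    obtain ⟨k, kk, k0, k1⟩ := hole H B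
    have h0 := (H.d0 _ _ B.kt.1 B.kt.2 B.kt.1 B.kt.2).2 rfl
    obtain ⟨-, a2, a3⟩ := k1 _ _ B.kt (by omega) B.te B.lt
    obtain ⟨-, b2, b3⟩ := k1 _ _ C.kt (by omega) C.tw (by omega)
    obtain ⟨c1, -, -⟩ := k1 _ _ B.kw le_rfl B.we B.lt
    have c2 := B.kw.out c1 (fun e => by rw [← e] at k0; omega)
    obtain ⟨-, -, -, l4, -, -, l7, l8, -⟩ := F.l1 h (hZ h hh).1.1
    obtain ⟨-, -, m3, m4⟩ := F.l3 h (hZ h hh).1.1
    have := B.o1; have := B.o2; have := B.o3; have := B.o4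
    have := C.o1; have := C.o2; have := C.o3; have := C.o5
    have n2 : ¬ (x.lo < h.lo ∧ h.lo < x.hi) := fun e => g5 _ e.1 e.2 l7
    have n3 : ¬ (x.lo < h.m ∧ h.m < x.hi) := fun e => g5 _ e.1 e.2 l8
    have n4 : S.e x ≤ S.w h := by
      by_contra hc
      have a4 := a2.2
      have b4 := b2.1
      have e := B.kw.antisymm (B.kw.trans c1 b2) ⟨by omega, by omega⟩
      rw [← e] at g7
      omega
    rw [← g7]
    exact (H.z3 _ _ _ B.kt.1 B.kt.2 B.te (B.kt.trans g1 C.tw) n4 B.ne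
      (fun e => g2 (B.kt.antisymm g1 (e ▸ C.tw)))).1 (by omega)
  · have B := bs F H (hZ y hy)
    have C := bs F H (hZ h hh)
    change d h.t y.t ≤ d y.t (S.w y) at h1
    rw [H.sym _ _ C.kt.1 C.kt.2 B.kt.1 B.kt.2] at h1
    exact (cmp H B C.kt h1 C.tw h2).symm

end Pool.Agent.Lib.TV
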