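import Pool.Agent.Lib.TV.Blue
import Pool.Agent.Lib.TV19.Tr

set_option autoImplicit false
set_option linter.unusedVariables false

namespace Pool.Agent.Lib.TV

open Pool.Agent.Lib.MP_3ecc11_lc Pool.Agent.Lib.TV19

/-- position facts of a left type link -/
theorem po3_basic {S : Sys} (F : LF S) {x : Lnk} (hx : S.IsLink x) (hw : S.w x < x.m) :
    Anc S.a S.b x.t (S.w x) ∧ Anc S.a S.b (S.w x) (S.e x) ∧ Anc S.a S.b x.t (S.e x) ∧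
      x.t ≠ S.w x ∧ x.t ≠ S.e x := by
  obtain ⟨k, a1, a2, a3, a4, a5, -⟩ := F.l1 x hx
  obtain ⟨b1, b2, b3, b4⟩ := F.l3 x hx
  obtain ⟨c1, c2, -⟩ := F.l4 x hx hw
  unfold Anc
  omega

/-- the common core of the two item facts -/
theorem po3_core (hLF : St_LF) (hWG : St_WG) (hTS : St_TS) {S : Sys} {d : ℤ → ℤ → ℕ}
    {z : ℤ → ℤ} {A : ℤ → Finset ℤ} (H : Hier S.L S.R S.a S.b d z) (hA : S.Items A) {x y : Lnk}
    (px : PR S d z x) (py : PR S d z y) (hk : d x.t (S.w x) = d y.t (S.w y))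
    (hd : d x.t y.t ≤ d x.t (S.w x)) (hxy : Anc S.a S.b x.t y.t) (ne : x.t ≠ y.t)
    {tp q nv : ℤ} (kp : S.Key tp) (hp : Anc S.a S.b tp x.t) (dp : d tp x.t ≤ d x.t (S.w x))
    (hq : Anc S.a S.b tp q) (nq : q ≠ tp) (dq : d y.t (S.e y) < d tp q) (af : S.Aff tp nv)
    (q1 : q ≤ nv) (q2 : nv < S.b q) :
    ∃ τ, Anc S.a S.b tp τ ∧ Anc S.a S.b τ x.t ∧ S.g y ∈ A τ := by
  have F := hLF S
  have T := S.T
  obtain ⟨w1, w2, w3, w4, w5, w6, w7⟩ := hWG S d z H x y px py hk hd hxy ne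
  obtain ⟨⟨lx, -, dx⟩, wx, zx⟩ := px
  obtain ⟨⟨ly, ny, dy⟩, wy, zy⟩ := py
  obtain ⟨kx, x1, x2, x3, x4, x5, -, -, afx⟩ := F.l1 x lx
  obtain ⟨ky, y1, y2, y3, y4, y5, -, afm, afh⟩ := F.l1 y ly
  obtain ⟨x6, x7, x8, x9⟩ := F.l3 x lx
  obtain ⟨y6, y7, y8, y9⟩ := F.l3 y ly
  obtain ⟨e1, e2, e3, e4, e5, e6, e7⟩ := F.l4 y ly wy
  obtain ⟨e8, -⟩ := F.l6 y ly ny
  obtain ⟨bx1, bx2, bx3, bx4, bx5⟩ := po3_basic F lx wx
  obtain ⟨by1, by2, by3, by4, by5⟩ := po3_basic F ly wy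
  have kw := anc_key T kx.1 kx.2 bx1
  have kq := anc_key T kp.1 kp.2 hq
  have ke := anc_key T ky.1 ky.2 by3
  -- levels
  have cy := (H.d3 y.t (S.w y) (S.e y) ky.1 ky.2 by1 by2).2
  have sp := H.sym tp x.t kp.1 kp.2 kx.1 kx.2
  have uq := H.d1 tp x.t q kp.1 kp.2 kx.1 kx.2 kq.1 kq.2
  have ue := H.d1 tp x.t (S.e y) kp.1 kp.2 kx.1 kx.2 ke.1 ke.2
  have my : y.t ∈ ball S.L S.R d x.t (d x.t (S.w x)) := mem_ball.2 ⟨ky.1, ky.2, hd⟩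
  have mp : tp ∈ ball S.L S.R d x.t (d x.t (S.w x)) := mem_ball.2 ⟨kp.1, kp.2, by omega⟩
  have oe : d x.t (S.w x) < d x.t (S.e y) := by omega
  have oq : d x.t (S.w x) < d x.t q := by omega
  obtain ⟨h, h1, h2, h3, h4⟩ :=
    H.hole x.t (S.w x) y.t (S.e y) kx.1 kx.2 kw.1 kw.2 bx4 my by3 oe
  obtain ⟨g1, g2, g3⟩ := h4 y.t (S.e y) my by3 oe
  obtain ⟨f1, f2, f3⟩ := h4 tp q mp hq oq
  have hh := h3 h (anc_refl T h1 h2)
  have nh : y.t ≠ h := by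
    intro e
    rw [← e] at hh
    omega
  have s1 := anc_sub T ky.1 ky.2 g1
  have s2 := anc_sub T h1 h2 f2
  have o1 := anc_out T ky.1 ky.2 g1 nh
  have py' : Anc S.a S.b tp y.t := anc_trans T kp.1 kp.2 hp hxy
  have npy : tp ≠ y.t := by
    intro e
    rw [e] at hp
    exact ne (anc_antisymm T kx.1 kx.2 hxy hp)
  have eq : S.e y < q := by
    by_contra hc
    have net : S.e y ≠ tp := by
      intro e
      rw [e] at oe
      omega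
    have := (H.z3 tp q (S.e y) kp.1 kp.2 hq (anc_trans T kp.1 kp.2 py' by3) (by omega) nq
      net).1 (by omega)
    omega
  have w3' := w3
  have g2' := g2
  unfold Anc at w3' g2'
  obtain ⟨τ, kτ, iτ, hτ⟩ := hTS S A hA y.t y.m y.hi x.t tp x.hi nv ky afm afh y3 (by omega) kx kp
    hxy ne py' npy afx af (by omega) (by omega) (by omega) (by omega) (by omega)
  rw [← e7] at iτ
  rcases hτ with ⟨t1, t2⟩ | ⟨t1, t2⟩
  · have e := anc_antisymm T kp.1 kp.2 hp (anc_trans T kx.1 kx.2 t1 t2)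
    exact ⟨τ, e ▸ t1, e ▸ t2, iτ⟩
  · exact ⟨τ, t1, t2, iτ⟩

theorem PO3_holds (hLF : St_LF) (hWG : St_WG) (hTS : St_TS) : St_PO3 := by
  intro S d z A Z H hA hZ
  have F := hLF S
  have T := S.T
  constructor
  · intro x y x' mx' hl ht hc
    obtain ⟨mx, my, hk, hd, hxy, ne⟩ := hl
    simp only [mkPS] at mx my mx' hk hd hxy ne ht hc ⊢
    have px := hZ x mx
    have px' := hZ x' mx'
    obtain ⟨⟨lx', -, -⟩, wx', -⟩ := px'
    obtain ⟨kx, -⟩ := F.l1 x px.1.1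
    obtain ⟨-, -, -, -, -, -, -, -, af⟩ := F.l1 x' lx'
    obtain ⟨-, e2, -, -, -, e6, -⟩ := F.l4 x' lx' wx'
    obtain ⟨-, -, b3, -, b5⟩ := po3_basic F lx' wx'
    rw [ht] at af b3 b5 hc
    have d0 := (H.d0 x.t x.t kx.1 kx.2 kx.1 kx.2).2 rfl
    obtain ⟨τ, t1, t2, iτ⟩ := po3_core hLF hWG hTS H hA px (hZ y my) hk hd hxy ne kx
      (anc_refl T kx.1 kx.2) (by omega) b3 (Ne.symm b5) hc af e2 e6
    rw [anc_antisymm T kx.1 kx.2 t1 t2]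
    exact iτ
  · intro x y0 y p mp hl0 hl hxp hp hc
    obtain ⟨mx, -, hk0, hd0, -, -⟩ := hl0
    obtain ⟨my0, my, hk, hd, hxy, ne⟩ := hl
    obtain ⟨hxp, -⟩ := hxp
    unfold PS.Ge at *
    simp only [mkPS] at mx my0 my mp hk0 hd0 hk hd hxy ne hxp hp hc ⊢
    obtain ⟨⟨lp, -, -⟩, wp, -⟩ := hZ p mp
    obtain ⟨kx, -⟩ := F.l1 x (hZ x mx).1.1
    obtain ⟨kp, -, -, p3, -, -, -, af, -⟩ := F.l1 p lp
    obtain ⟨-, -, -, p4⟩ := F.l3 p lp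
    obtain ⟨b1, -, -, b4, -⟩ := po3_basic F lp wp
    have d3 := (H.d3 x.t p.t y0.t kx.1 kx.2 hxp hp).2
    exact po3_core hLF hWG hTS H hA (hZ y0 my0) (hZ y my) hk hd hxy ne kp hp (by omega) b1
      (Ne.symm b4) hc af (le_of_lt wp) (by omega)

end Pool.Agent.Lib.TV
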