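import Pool.Agent.Lib.TV.Blue
import Pool.Agent.Lib.TV19.TS

set_option autoImplicit false
set_option linter.unusedVariables false

namespace Pool.Agent.Lib.TV

open Pool.Agent.Lib.MP_3ecc11_lc Pool.Agent.Lib.TV19

theorem F0_holds : St_F0 := fun S t s c h1 h2 h3 h4 h5 => Sys.freeze h1 h2 h3 h4 h5

theorem HB_holds : St_HB := fun S t s c h1 h2 h3 h4 h5 => Sys.hb h1 h2 h3 h4 h5

theorem LF_holds : St_LF := by
  intro S
  refine ⟨fun x h => ?_, fun x y h k e => h.disj k e, fun x h => ?_, fun x h c => ?_,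
    fun x h c => ?_, fun x h ne => ?_, fun x s h h1 h2 h3 => ?_⟩
  · obtain ⟨a0, a1, a2, a3, a4, a5, a6, a7, a8⟩ := h.basic
    exact ⟨a0, a3, a1, a2, a4, a5, a6, a7, a8⟩
  · obtain ⟨-, a1, a2, a3, a4, -⟩ := h.geoW
    exact ⟨a1, a2, a3, a4⟩
  · obtain ⟨-, -, -, -, gx⟩ := h.geo (by omega)
    omega
  · obtain ⟨-, -, -, -, gx⟩ := h.geo (by omega)
    omega
  · obtain ⟨ke, -, -, eg, gx⟩ := h.geo ne
    refine ⟨eg, ?_⟩
    obtain ⟨kt, a1, a2, a3, a4, -⟩ := h.basic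
    have p := kt.pl
    have gx' : x.lo ≤ S.g x ∧ S.g x < x.hi ∧ S.a (S.e x) < S.g x ∧ S.g x + 1 < S.b (S.e x) := by
      omega
    clear gx
    have tp := S.tp (S.g x) (S.g x + 1) (by omega) (by omega) (by omega)
    exact ke.antisymm (by unfold Anc; omega) (by unfold Anc; omega)
  · obtain ⟨kw, a1, a2, a3, a4, -⟩ := h.geoW
    have su := (h.1.of_anc h1).sub h3
    have f := h.frozen h1 (Ne.symm h2) (by omega) (by omega)
    exact ⟨f.1, f.2, fun ne c c1 c2 => h.noaff h1 (Ne.symm h2) h3 ne c1 c2⟩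

theorem TS_holds : St_TS := by
  intro S A hA s g1 g2 tu tv nu nv ks a1 a2 g12 sd ku kv hu nu' hv nv' au av n1 n2 n3 n4 n5
  obtain ⟨t, t1, t2⟩ := Sys.ts hA ku kv hu nu' hv nv' a1 a2 g12 au av n4 n5 n1 n2 n3
  refine ⟨t, ?_, t1, t2⟩
  rcases t2 with k | k
  · exact ku.of_anc k.1
  · exact kv.of_anc k.1

end Pool.Agent.Lib.TV
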