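import Pool.Agent.Lib.TV.Blue
import Pool.Agent.Lib.TV19.Tr

set_option autoImplicit false
set_option linter.unusedVariables false

namespace Pool.Agent.Lib.TV

open Pool.Agent.Lib.MP_3ecc11_lc Pool.Agent.Lib.TV19

theorem top_uniq {L R : ℤ} {a b : ℤ → ℤ} (h : Lam L R a b) {u v k k' : ℤ} (u1 : L < u)
    (v2 : v < R) (h1 : u ≤ k ∧ k ≤ v ∧ a k < u ∧ v < b k)
    (h2 : u ≤ k' ∧ k' ≤ v ∧ a k' < u ∧ v < b k') : k = k' := by
  rcases lt_trichotomy k k' with c | c | c
  · have := h.l2 k k' (by omega) (by omega) c (by omega)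
    omega
  · exact c
  · have := h.l2 k' k (by omega) (by omega) c (by omega)
    omega

theorem TOP_holds : St_TOP := by
  intro L R a b h
  have ex : ∀ u v : ℤ, ∃ k : ℤ, L < u → u ≤ v → v < R → u ≤ k ∧ k ≤ v ∧ a k < u ∧ v < b k := by
    intro u v
    by_cases c : L < u ∧ u ≤ v ∧ v < R
    · obtain ⟨k, hk⟩ := exists_top h c.1 c.2.1 c.2.2
      exact ⟨k, fun _ _ _ => hk⟩
    · exact ⟨0, fun h1 h2 h3 => absurd ⟨h1, h2, h3⟩ c⟩
  choose top ht using ex
  refine ⟨top, fun u v => if top u v = u then u else top u v - 1, ht, ?_, ?_⟩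
  · intro u v h1 h2 h3
    have := ht u v h1 h2.le h3
    dsimp only
    split_ifs with c <;> omega
  · intro u v u' v' h1 h2 h3 h4 h5 h6
    dsimp only at h3 h4 ⊢
    have huv : u ≤ v := by split_ifs at h3 h4 <;> omega
    have t1 := ht u v h1 huv h6
    have huv' : u' ≤ v' := by split_ifs at h3 h4 <;> omega
    have t2 := ht u' v' (by omega) huv' (by omega)
    have e : top u' v' = top u v := by
      refine top_uniq h (u := u') (v := v') (by omega) (by omega) t2 ?_
      split_ifs at h3 h4 <;> omega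
    rw [e]
    split_ifs at h3 h4 ⊢ <;> omega

end Pool.Agent.Lib.TV
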