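import Pool.Agent.Lib.TV.Blue
import Pool.Agent.Lib.TV19.Tr

set_option autoImplicit false
set_option linter.unusedVariables false

namespace Pool.Agent.Lib.TV

open Pool.Agent.Lib.MP_3ecc11_lc Pool.Agent.Lib.TV19

/-- basic facts on a rising left P-link -/
theorem WG_basic (hLF : St_LF) {S : Sys} {d : ℤ → ℤ → ℕ} {z : ℤ → ℤ}
    (H : Hier S.L S.R S.a S.b d z) {x : Lnk} (hx : PR S d z x) :
    (S.L < x.t ∧ x.t < S.R) ∧ (S.L < S.w x ∧ S.w x < S.R) ∧ (S.L < S.e x ∧ S.e x < S.R) ∧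
      Anc S.a S.b x.t (S.w x) ∧ x.t ≠ S.w x ∧ Anc S.a S.b (S.w x) (S.e x) ∧
      Anc S.a S.b x.t (S.e x) ∧ d x.t (S.w x) < d x.t (S.e x) := by
  obtain ⟨⟨hl, hne, hd⟩, hw, hz⟩ := hx
  have F := hLF S
  obtain ⟨k1, a1, a2, a3, a4, a5, -⟩ := F.l1 x hl
  obtain ⟨b1, b2, b3, b4⟩ := F.l3 x hl
  obtain ⟨c1, c2, -, -, c5, c6, -⟩ := F.l4 x hl hw
  have kt : S.L < x.t ∧ x.t < S.R := k1
  have A1 : Anc S.a S.b x.t (S.w x) := by unfold Anc; omega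
  have A2 : Anc S.a S.b (S.w x) (S.e x) := by unfold Anc; omega
  have A3 : Anc S.a S.b x.t (S.e x) := by unfold Anc; omega
  have d3 := H.d3 x.t (S.w x) (S.e x) kt.1 kt.2 A1 A2
  exact ⟨kt, anc_key S.T kt.1 kt.2 A1, anc_key S.T kt.1 kt.2 A3, A1, by omega, A2, A3, by omega⟩

theorem WG_holds (hLF : St_LF) : St_WG := by
  intro S d z H x y hx hy hk hxy hA hne
  obtain ⟨kx, kwx, kex, x1, x2, x3, x4, x5⟩ := WG_basic hLF H hx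
  obtain ⟨ky, kwy, key, y1, y2, y3, y4, y5⟩ := WG_basic hLF H hy
  have F := hLF S
  have hxx : d x.t x.t = 0 := (H.d0 x.t x.t kx.1 kx.2 kx.1 kx.2).2 rfl
  have syx : d y.t x.t = d x.t y.t := H.sym _ _ ky.1 ky.2 kx.1 kx.2
  have u1 := H.d1 y.t x.t (S.e y) ky.1 ky.2 kx.1 kx.2 key.1 key.2
  have u2 := H.d1 x.t y.t (S.e y) kx.1 kx.2 ky.1 ky.2 key.1 key.2
  have u3 := H.d1 x.t y.t (S.w y) kx.1 kx.2 ky.1 ky.2 kwy.1 kwy.2
  have e7 : d x.t (S.e y) = d y.t (S.e y) := by omega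
  obtain ⟨h, h1, h2, hout, hin⟩ := H.hole x.t (S.w x) x.t (S.e x) kx.1 kx.2 kwx.1 kwx.2 x2
    (mem_ball.2 ⟨kx.1, kx.2, by omega⟩) x4 x5
  obtain ⟨p1, p2, p3⟩ := hin x.t (S.e x) (mem_ball.2 ⟨kx.1, kx.2, by omega⟩) x4 x5
  obtain ⟨q1, -, -⟩ := hin (S.w x) (S.e x) (mem_ball.2 ⟨kwx.1, kwx.2, le_rfl⟩) x3 x5
  obtain ⟨r1, r2, r3⟩ := hin y.t (S.e y) (mem_ball.2 ⟨ky.1, ky.2, hxy⟩) y4 (by omega)
  obtain ⟨s1, -, -⟩ := hin (S.w y) (S.e y) (mem_ball.2 ⟨kwy.1, kwy.2, by omega⟩) y3 (by omega)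
  have e1 : d x.t y.t < d x.t (S.w x) := by
    by_contra hc
    have v1 := H.d3 x.t y.t (S.w y) kx.1 kx.2 hA y1
    have v0 : d x.t y.t ≠ 0 := fun e => hne ((H.d0 _ _ kx.1 kx.2 ky.1 ky.2).1 e)
    have := H.d2 x.t y.t (S.w y) kx.1 kx.2 ky.1 ky.2 kwy.1 kwy.2 (by omega) (by omega)
    omega
  have e3 : Anc S.a S.b y.t (S.w x) := by
    rcases anc_total S.T ky.1 ky.2 kwx.1 kwx.2 r1 q1 with c | c
    · exact c
    · have := H.d3 x.t (S.w x) y.t kx.1 kx.2 x1 c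
      omega
  have e4 : y.t ≠ S.w x := by
    intro e
    rw [e] at e1
    omega
  have e5 : y.t < S.w x ↔ y.t < S.w y := by
    have m1 := anc_sub S.T ky.1 ky.2 e3
    have m2 := anc_sub S.T ky.1 ky.2 y1
    unfold Anc at q1 s1
    omega
  refine ⟨e1, by rw [p3, r3], e3, e4, e5, ?_, e7⟩
  obtain ⟨⟨hlx, -, -⟩, hwx, -⟩ := hx
  obtain ⟨⟨hly, -, -⟩, hwy, -⟩ := hy
  obtain ⟨-, -, l7⟩ := F.l7 x y.t hlx hA (Ne.symm hne) e3
  obtain ⟨-, -, -, -, -, -, -, am, -⟩ := F.l1 y hly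
  obtain ⟨b1, -, -, -⟩ := F.l3 x hlx
  obtain ⟨c1, -, -, -, -, -, -⟩ := F.l4 x hlx hwx
  obtain ⟨-, f2, -, -, f5, f6, -⟩ := F.l4 y hly hwy
  by_contra hc
  have hlo : y.m ≤ x.lo := by
    by_contra hd
    exact l7 e4 y.m (by omega) (by omega) am
  have nA : ¬ Anc S.a S.b h (S.w x) := fun c => by
    have := hout _ c
    omega
  have lt : S.w x < S.e y := by
    unfold Anc at nA p2 r2
    omega
  exact nA (anc_trans S.T h1 h2 r2 (by unfold Anc; omega))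

end Pool.Agent.Lib.TV
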